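import Mathlib

/-!
# The ratio criterion: elementary analysis
-/

set_option autoImplicit false

namespace Gri98

open Filter Topology

/-- If `r * B ≤ N` and `B ≥ 1`, then `B ^ r ≤ N.choose r`. -/
theorem asym_pow_le_choose (B : ℕ) (hB : 1 ≤ B) : ∀ r N : ℕ, r * B ≤ N → B ^ r ≤ N.choose r := by
  intro r
  induction r with
  | zero => intro N _; simp
  | succ r ih =>
    intro N hN
    obtain ⟨N', rfl⟩ : ∃ N', N = N' + 1 := by
      refine ⟨N - 1, ?_⟩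
      have : 1 ≤ N := le_trans (by nlinarith) hN
      omega
    have h1 : r * B ≤ N' := by
      have : (r + 1) * B = r * B + B := by ring
      omega
    have h2 := ih N' h1
    have h3 : (N' + 1) * N'.choose r = (N' + 1).choose (r + 1) * (r + 1) :=
      Nat.add_one_mul_choose_eq N' r
    have h4 : (r + 1) * B * B ^ r ≤ (N' + 1) * N'.choose r := Nat.mul_le_mul hN h2
    have h5 : B ^ (r + 1) * (r + 1) ≤ (N' + 1).choose (r + 1) * (r + 1) := by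
      rw [← h3]
      calc B ^ (r + 1) * (r + 1) = (r + 1) * B * B ^ r := by ring
        _ ≤ _ := h4
    exact Nat.le_of_mul_le_mul_right h5 (Nat.succ_pos r)

/-- Binomial coefficients increase up to the middle. -/
theorem asym_choose_mono (N r' : ℕ) : ∀ r, r' ≤ r → r ≤ N / 2 → N.choose r' ≤ N.choose r := by
  intro r hr
  induction r, hr using Nat.le_induction with
  | base => intro _; exact le_rfl
  | succ r _ ih =>
    intro h
    exact (ih (by omega)).trans (Nat.choose_le_succ_of_lt_half_left (by omega))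

/-- `D (k * n) ≤ k * D n` for `k ≥ 1`. -/
theorem asym_sub {D : ℕ → ℕ} (hsub : ∀ m n, D (m + n) ≤ D m + D n) (n : ℕ) :
    ∀ k, 1 ≤ k → D (k * n) ≤ k * D n := by
  intro k hk
  induction k, hk using Nat.le_induction with
  | base => simp
  | succ k _ ih =>
    have h1 : (k + 1) * n = k * n + n := by ring
    rw [h1]
    calc D (k * n + n) ≤ D (k * n) + D n := hsub _ _
      _ ≤ k * D n + D n := Nat.add_le_add_right ih _
      _ = (k + 1) * D n := by ring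

/-- The lower bound for `f`. -/
theorem asym_low {f D : ℕ → ℕ} (hmono : Monotone D)
    (hlin : ∀ q : ℕ, ∃ C : ℕ, ∀ n, q * D n ≤ n + C) (hunb : ∀ M, ∃ n, M ≤ D n)
    (hlow : ∀ m n, m ≤ n → (n - m).choose (D m) ≤ f n) (B : ℕ) (hB : 1 ≤ B) :
    ∃ n₀, ∀ n, n₀ ≤ n → B ≤ D (n / 4) ∧ B ^ D (n / 4) ≤ f n := by
  obtain ⟨C, hC⟩ := hlin B
  obtain ⟨n₁, hn₁⟩ := hunb B
  refine ⟨4 * (C + n₁ + 1), fun n hn => ⟨?_, ?_⟩⟩
  · exact hn₁.trans (hmono (by omega))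
  · refine (asym_pow_le_choose B hB _ _ ?_).trans (hlow (n / 4) n (by omega))
    have h1 := hC (n / 4)
    rw [mul_comm]
    omega

/-- The ratio inequality. -/
theorem asym_ratio {f D N : ℕ → ℕ} {K₀ : ℕ} (hmono : Monotone D)
    (hsub : ∀ m n, D (m + n) ≤ D m + D n)
    (hlin : ∀ q : ℕ, ∃ C : ℕ, ∀ n, q * D n ≤ n + C) (hunb : ∀ M, ∃ n, M ≤ D n)
    (hN : ∀ n, N n ≤ K₀ ^ D n)
    (hstep : ∀ K n, K * f (n + 1) ≤ (K + 1) * f n + K * N (n + 1) * 2 ^ ((K + 2) * D (n + 1)))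
    (hlow : ∀ m n, m ≤ n → (n - m).choose (D m) ≤ f n) (K : ℕ) (hK : 1 ≤ K) :
    ∃ n₀, ∀ n, n₀ ≤ n → K * f (n + 1) ≤ (K + 2) * f n := by
  set A : ℕ := (K₀ + 1) * 2 ^ (K + 2) with hA
  have hA1 : 1 ≤ A := Nat.mul_pos (Nat.succ_pos _) (by positivity)
  have hB1 : 1 ≤ K * A ^ 9 := Nat.mul_pos hK (pow_pos hA1 9)
  obtain ⟨n₀, hn₀⟩ := asym_low hmono hlin hunb hlow (K * A ^ 9) hB1
  refine ⟨n₀ + 4, fun n hn => ?_⟩
  obtain ⟨h1, h2⟩ := hn₀ n (by omega)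
  have h3 : D (n + 1) ≤ 9 * D (n / 4) :=
    (hmono (by omega : n + 1 ≤ 9 * (n / 4))).trans (asym_sub hsub (n / 4) 9 (by norm_num))
  have h4 : N (n + 1) * 2 ^ ((K + 2) * D (n + 1)) ≤ A ^ D (n + 1) := by
    rw [hA, mul_pow, pow_mul]
    refine Nat.mul_le_mul ((hN (n + 1)).trans (Nat.pow_le_pow_left (Nat.le_succ _) _)) le_rfl
  have h5 : A ^ D (n + 1) ≤ (A ^ 9) ^ D (n / 4) := by
    rw [← pow_mul]
    exact Nat.pow_le_pow_right hA1 h3
  have h6 : K * (A ^ 9) ^ D (n / 4) ≤ (K * A ^ 9) ^ D (n / 4) := by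
    rw [mul_pow K (A ^ 9)]
    refine Nat.mul_le_mul ?_ le_rfl
    exact Nat.le_self_pow (by omega) K
  have h7 : K * N (n + 1) * 2 ^ ((K + 2) * D (n + 1)) ≤ f n := by
    calc K * N (n + 1) * 2 ^ ((K + 2) * D (n + 1))
        = K * (N (n + 1) * 2 ^ ((K + 2) * D (n + 1))) := by ring
      _ ≤ K * (A ^ 9) ^ D (n / 4) := Nat.mul_le_mul le_rfl (h4.trans h5)
      _ ≤ f n := h6.trans h2
  calc K * f (n + 1) ≤ (K + 1) * f n + K * N (n + 1) * 2 ^ ((K + 2) * D (n + 1)) := hstep K n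
    _ ≤ (K + 1) * f n + f n := Nat.add_le_add_left h7 _
    _ = (K + 2) * f n := by ring

/-- The limit of the ratio. -/
theorem asym_tendsto_ratio {f : ℕ → ℕ} (hf : Monotone f) (hf1 : ∀ n, 1 ≤ f n)
    (h : ∀ K : ℕ, 1 ≤ K → ∃ n₀, ∀ n, n₀ ≤ n → K * f (n + 1) ≤ (K + 2) * f n) :
    Tendsto (fun n : ℕ => (f (n + 1) : ℝ) / (f n : ℝ)) atTop (𝓝 1) := by
  have hpos : ∀ n, (0 : ℝ) < f n := fun n => by exact_mod_cast hf1 n
  rw [Metric.tendsto_atTop]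
  intro ε hε
  obtain ⟨K, hK⟩ := exists_nat_gt (2 / ε)
  have hK0 : (0 : ℝ) < K := lt_trans (by positivity) hK
  have hK1 : 1 ≤ K := by exact_mod_cast hK0
  obtain ⟨n₀, hn₀⟩ := h K hK1
  refine ⟨n₀, fun n hn => ?_⟩
  have h1 : (K : ℝ) * f (n + 1) ≤ (K + 2) * f n := by exact_mod_cast hn₀ n hn
  have h2 : (1 : ℝ) ≤ (f (n + 1) : ℝ) / f n := by
    rw [le_div_iff₀ (hpos n), one_mul]
    exact_mod_cast hf (Nat.le_succ n)
  have h3 : (f (n + 1) : ℝ) / f n ≤ 1 + 2 / K := by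
    rw [div_le_iff₀ (hpos n)]
    have h4 : (1 + 2 / (K : ℝ)) * f n = ((K + 2) * f n) / K := by
      field_simp
    rw [h4, le_div_iff₀ hK0]
    linarith
  have h5 : 2 / (K : ℝ) < ε := by
    rw [div_lt_iff₀ hK0]
    rw [div_lt_iff₀ hε] at hK
    linarith
  rw [Real.dist_eq, abs_of_nonneg (by linarith)]
  linarith

/-- Subexponential growth. -/
theorem asym_root {f : ℕ → ℕ} (hf1 : ∀ n, 1 ≤ f n)
    (h : Tendsto (fun n : ℕ => (f (n + 1) : ℝ) / (f n : ℝ)) atTop (𝓝 1)) :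
    Tendsto (fun n : ℕ => (f n : ℝ) ^ ((1 : ℝ) / (n : ℝ))) atTop (𝓝 1) := by
  have hpos : ∀ n, (0 : ℝ) < f n := fun n => by exact_mod_cast hf1 n
  have h1 : Tendsto (fun n : ℕ => Real.log (f (n + 1)) - Real.log (f n)) atTop (𝓝 0) := by
    have h2 : Tendsto (fun n : ℕ => Real.log ((f (n + 1) : ℝ) / (f n : ℝ))) atTop
        (𝓝 (Real.log 1)) := (Real.continuousAt_log one_ne_zero).tendsto.comp h
    rw [Real.log_one] at h2
    refine h2.congr fun n => ?_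
    rw [Real.log_div (hpos _).ne' (hpos _).ne']
  have h3 := h1.cesaro
  have h4 : ∀ n : ℕ, ∑ i ∈ Finset.range n, (Real.log (f (i + 1)) - Real.log (f i)) =
      Real.log (f n) - Real.log (f 0) := fun n =>
    Finset.sum_range_sub (fun i => Real.log (f i)) n
  have h5 : Tendsto (fun n : ℕ => (n : ℝ)⁻¹ * Real.log (f 0)) atTop (𝓝 (0 * Real.log (f 0))) :=
    (tendsto_inv_atTop_nhds_zero_nat (𝕜 := ℝ)).mul_const _
  have h6 : Tendsto (fun n : ℕ => Real.log (f n) * ((1 : ℝ) / n)) atTop (𝓝 0) := by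
    have h7 := h3.add h5
    rw [zero_mul, add_zero] at h7
    refine h7.congr fun n => ?_
    rw [h4 n]
    ring
  have h8 := (Real.continuous_exp.tendsto 0).comp h6
  rw [Real.exp_zero] at h8
  refine h8.congr fun n => ?_
  simp only [Function.comp]
  rw [Real.rpow_def_of_pos (hpos n)]

/-- The polynomial lower bound. -/
theorem asym_poly {f D : ℕ → ℕ} (hmono : Monotone D)
    (hlin : ∀ q : ℕ, ∃ C : ℕ, ∀ n, q * D n ≤ n + C) (hunb : ∀ M, ∃ n, M ≤ D n)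
    (hlow : ∀ m n, m ≤ n → (n - m).choose (D m) ≤ f n) (d : ℕ) :
    ∃ n₀, ∀ n, n₀ ≤ n → n ^ (d + 1) ≤ (4 * (d + 1)) ^ (d + 1) * f n := by
  obtain ⟨C, hC⟩ := hlin 1
  obtain ⟨n₁, hn₁⟩ := hunb (d + 1)
  refine ⟨4 * (2 * C + n₁ + d + 2), fun n hn => ?_⟩
  have h1 : d + 1 ≤ D (n / 4) := hn₁.trans (hmono (by omega))
  have h2 : D (n / 4) ≤ (n - n / 4) / 2 := by
    have h := hC (n / 4)
    omega
  set N' := n - n / 4 with hN'
  set B := N' / (d + 1) with hB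
  have hdB : (d + 1) * B ≤ N' := Nat.mul_div_le _ _
  have hlt : N' < (d + 1) * (B + 1) := by
    have := Nat.lt_mul_div_succ N' (Nat.succ_pos d)
    simpa [hB] using this
  have hB1 : 1 ≤ B := by
    rw [hB, Nat.one_le_div_iff (Nat.succ_pos d)]
    omega
  have h3 : B ^ (d + 1) ≤ f n :=
    (asym_pow_le_choose B hB1 (d + 1) N' hdB).trans
      ((asym_choose_mono N' (d + 1) (D (n / 4)) h1 h2).trans (hlow (n / 4) n (by omega)))
  have h4 : n ≤ 4 * (d + 1) * B := by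
    have h5 : (d + 1) * (B + 1) ≤ (d + 1) * (2 * B) := Nat.mul_le_mul le_rfl (by omega)
    have h6 : n ≤ 2 * N' := by omega
    calc n ≤ 2 * N' := h6
      _ ≤ 2 * ((d + 1) * (2 * B)) := by omega
      _ = 4 * (d + 1) * B := by ring
  calc n ^ (d + 1) ≤ (4 * (d + 1) * B) ^ (d + 1) := Nat.pow_le_pow_left h4 _
    _ = (4 * (d + 1)) ^ (d + 1) * B ^ (d + 1) := mul_pow _ _ _
    _ ≤ (4 * (d + 1)) ^ (d + 1) * f n := Nat.mul_le_mul le_rfl h3

/-- The analytic part of the criterion.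

Proof. Write `D = D n` etc. (1) By `hsub` and `hmono` `D (k * n) ≤ k * D n` for `k ≥ 1`, so for `n ≥ 4`,
`m = n / 4 ≥ 1` (floor) we have `n + 1 ≤ 9 * m`, hence `D (n + 1) ≤ 9 * D m`. (`n ≤ 4 m + 3`, `n + 1 ≤ 4 m + 4 ≤ 8 m`.)
(2) Fix `B : ℕ`. For all large `n`, with `m = n / 4`, `D m ≥ B` and `f n ≥ B ^ (D m)`: By `hlow`,
`f n ≥ (n - m).choose (D m)`, `n - m ≥ m`. For `r ≤ N`, `N.choose r ≥ (N / r) ^ r` (natural division, or real:
`((N : ℝ) / r) ^ r ≤ N.choose r`, in Mathlib `Nat.pow_le_choose : ((N + 1 - r : ℕ) ^ r : α) ≤ r ! * N.choose r` and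
`Nat.choose_le...`; an easy route: by induction on `r`, if `r * B ≤ N` then `B ^ r ≤ N.choose r`: use
`(N+1).choose (r+1) * (r+1) = (N+1) * N.choose r` (`Nat.succ_mul_choose_eq`); if `(r+1) * B ≤ N + 1`, `B ≥ 1` then
`r * B ≤ N` and `(N+1).choose (r+1) = (N+1) * N.choose r / (r+1) ≥ B * B ^ r`). By `hlin` with `q = 2 * B` (say) there
is `C` with `2 B * D m ≤ m + C`, so for `m ≥ C` `B * D m ≤ m`, and `f n ≥ m.choose (D m) ≥ B ^ (D m)`. `D m ≥ B` for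
large `m` by `hunb` and `hmono`.
(3) Ratio. Fix `K ≥ 1`. By `hstep` and `hN` (`K₀ ≥ 1` without loss; replace `K₀` by `K₀ + 1`)
`f (n+1) / f n ≤ (1 + 1/K) + K₀ ^ D(n+1) * 2 ^ ((K+2) * D(n+1)) / f n`, and with `B ≥ 2 * (K₀ * 2^(K+2)) ^ 9`
`(K₀ * 2^(K+2)) ^ D(n+1) ≤ (K₀ * 2^(K+2)) ^ (9 * D m) ≤ (B / 2) ^ (D m) ≤ f n / 2 ^ (D m)`, and `2 ^ (D m) → ∞`. So
`limsup ≤ 1 + 1/K` for every `K`, and `f (n+1) / f n ≥ 1` by `hf`. Hence the limit `1`.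
(4) `f (n+1) / f n → 1` implies `f n ^ (1/n) → 1`: `log f (n+1) - log f n → 0`, Cesàro means
(`Filter.Tendsto.cesaro`) of these differences, `log f n / n → 0`, exponentiate
(`Real.rpow_def_of_pos`, `f n ≥ 1`).
(5) `f n / n ^ d → ∞`: for `m = n / 4` large `d + 1 ≤ D m` and `2 * D m ≤ m` so
`f n ≥ m.choose (D m) ≥ m.choose (d + 1)` (`Nat.choose_le_succ_of_lt_half_left`/`Nat.choose_mono` up to the middle, or:
replace it by (2) in the form: if `r' ≤ r` and `2 r ≤ N` then `N.choose r' ≤ N.choose r`), and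
`m.choose (d+1) ≥ ((m - d) / (d+1)) ^ (d+1)` grows like `m ^ (d+1)`, `m ≥ (n - 3) / 4`. -/
theorem asym {f D N : ℕ → ℕ} {K₀ : ℕ} (hmono : Monotone D) (hsub : ∀ m n, D (m + n) ≤ D m + D n)
    (hlin : ∀ q : ℕ, ∃ C : ℕ, ∀ n, q * D n ≤ n + C) (hunb : ∀ M, ∃ n, M ≤ D n)
    (hN : ∀ n, N n ≤ K₀ ^ D n) (hf : Monotone f) (hf1 : ∀ n, 1 ≤ f n)
    (hstep : ∀ K n, K * f (n + 1) ≤ (K + 1) * f n + K * N (n + 1) * 2 ^ ((K + 2) * D (n + 1)))
    (hlow : ∀ m n, m ≤ n → (n - m).choose (D m) ≤ f n) :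
    Tendsto (fun n : ℕ => (f (n + 1) : ℝ) / (f n : ℝ)) atTop (𝓝 1) ∧
    Tendsto (fun n : ℕ => (f n : ℝ) ^ ((1 : ℝ) / (n : ℝ))) atTop (𝓝 1) ∧
    ∀ d : ℕ, Tendsto (fun n : ℕ => (f n : ℝ) / (n : ℝ) ^ d) atTop atTop := by
  have h1 := asym_tendsto_ratio hf hf1
    (asym_ratio hmono hsub hlin hunb hN hstep hlow)
  refine ⟨h1, asym_root hf1 h1, fun d => ?_⟩
  obtain ⟨n₀, hn₀⟩ := asym_poly hmono hlin hunb hlow d
  have hc : (0 : ℝ) < ((4 * ((d : ℝ) + 1)) ^ (d + 1))⁻¹ := by positivity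
  have h2 : Tendsto (fun n : ℕ => (n : ℝ) * ((4 * ((d : ℝ) + 1)) ^ (d + 1))⁻¹) atTop atTop :=
    tendsto_natCast_atTop_atTop.atTop_mul_const hc
  refine tendsto_atTop_mono' atTop ?_ h2
  filter_upwards [eventually_ge_atTop (n₀ + 1)] with n hn
  have hn0 : (0 : ℝ) < n := by
    have : 0 < n := by omega
    exact_mod_cast this
  have h3 : (n : ℝ) ^ (d + 1) ≤ (4 * ((d : ℝ) + 1)) ^ (d + 1) * f n := by
    exact_mod_cast hn₀ n (by omega)
  rw [le_div_iff₀ (pow_pos hn0 d)]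
  have hc' : (0 : ℝ) < (4 * ((d : ℝ) + 1)) ^ (d + 1) := by positivity
  calc (n : ℝ) * ((4 * ((d : ℝ) + 1)) ^ (d + 1))⁻¹ * (n : ℝ) ^ d
      = (n : ℝ) ^ (d + 1) * ((4 * ((d : ℝ) + 1)) ^ (d + 1))⁻¹ := by ring
    _ ≤ (4 * ((d : ℝ) + 1)) ^ (d + 1) * f n * ((4 * ((d : ℝ) + 1)) ^ (d + 1))⁻¹ :=
        mul_le_mul_of_nonneg_right h3 hc.le
    _ = f n := by
        field_simp

end Gri98
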