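import Pool.Agent.W_afafb9_h98.Def

/-!
# Basic properties of the maps `a`, `b`, `c`, `d`
-/

set_option autoImplicit false

namespace Gri98

open scoped Classical

theorem tl_cons (i : Bool) (y : Om) : tl (cons i y) = y := by
  funext n
  rfl

theorem cons_zero (i : Bool) (y : Om) : cons i y 0 = i := rfl

theorem cons_tl (x : Om) : cons (x 0) (tl x) = x := by
  funext n
  cases n <;> rfl

theorem cons_inj {i j : Bool} {y z : Om} (h : cons i y = cons j z) : i = j ∧ y = z := by
  constructor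
  · exact congrFun h 0
  · have := congrArg tl h
    simpa [tl_cons] using this

theorem cons_true_x0 : cons true x0 = x0 := by
  funext n
  cases n <;> rfl

theorem tl_x0 : tl x0 = x0 := rfl

theorem aF_cons (i : Bool) (y : Om) : aF (cons i y) = cons (!i) y := by
  rfl

theorem aF_aF (x : Om) : aF (aF x) = x := by
  conv_rhs => rw [← cons_tl x]
  conv_lhs => rw [← cons_tl x]
  rw [aF_cons, aF_cons, Bool.not_not]

theorem aF_inj : Function.Injective aF := fun x y h => by
  have := congrArg aF h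
  rwa [aF_aF, aF_aF] at this

theorem bF_succ (ω : ℕ → Bt) (β : Bt) (x : Om) (n : ℕ) : bF ω β x (n + 1) =
    if (∀ i < n, x i = true) ∧ x n = false ∧ ns (ω n) β then !x (n + 1) else x (n + 1) := rfl

theorem bF_true (ω : ℕ → Bt) (β : Bt) (y : Om) : bF ω β (cons true y) = cons true (bF (sh ω) β y) := by
  funext n
  rcases n with _ | _ | n
  · rfl
  · rw [bF_succ, if_neg]
    · rfl
    · rintro ⟨-, h, -⟩
      exact Bool.noConfusion h
  · show (if (∀ i < n + 1, cons true y i = true) ∧ cons true y (n + 1) = false ∧ ns (ω (n + 1)) β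
      then !cons true y (n + 2) else cons true y (n + 2)) =
      (if (∀ i < n, y i = true) ∧ y n = false ∧ ns (ω (n + 1)) β then !y (n + 1) else y (n + 1))
    have h : (∀ i < n + 1, cons true y i = true) ↔ (∀ i < n, y i = true) := by
      constructor
      · intro h i hi
        exact h (i + 1) (by omega)
      · intro h i hi
        rcases i with _ | i
        · rfl
        · exact h i (by omega)
    simp only [h]
    rfl

theorem bF_false (ω : ℕ → Bt) (β : Bt) (y : Om) :
    bF ω β (cons false y) = cons false (if ns (ω 0) β then aF y else y) := by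
  funext n
  rcases n with _ | _ | n
  · rfl
  · rw [bF_succ]
    by_cases h : ns (ω 0) β
    · rw [if_pos ⟨by intro i hi; omega, rfl, h⟩, if_pos h]
      rfl
    · rw [if_neg (fun hh => h hh.2.2), if_neg h]
  · show (if (∀ i < n + 1, cons false y i = true) ∧ cons false y (n + 1) = false ∧ ns (ω (n + 1)) β
      then !cons false y (n + 2) else cons false y (n + 2)) =
      (if ns (ω 0) β then aF y else y) (n + 1)
    rw [if_neg (fun hh => by
      have := hh.1 0 (by omega)
      exact Bool.noConfusion this)]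
    split_ifs <;> rfl

theorem bF_x0 (ω : ℕ → Bt) (β : Bt) : bF ω β x0 = x0 := by
  funext n
  rcases n with _ | n
  · rfl
  · show (if (∀ i < n, x0 i = true) ∧ x0 n = false ∧ ns (ω n) β then !x0 (n + 1) else x0 (n + 1)) = _
    rw [if_neg]
    rintro ⟨-, h, -⟩
    exact Bool.noConfusion h

theorem bF_e (ω : ℕ → Bt) (x : Om) : bF ω .e x = x := by
  funext n
  rcases n with _ | n
  · rfl
  · show (if (∀ i < n, x i = true) ∧ x n = false ∧ ns (ω n) .e then !x (n + 1) else x (n + 1)) = _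
    rw [if_neg]
    rintro ⟨-, -, h⟩
    exact h.1 rfl

namespace Bt

theorem e_mul (x : Bt) : Bt.e * x = x := by cases x <;> rfl

theorem mul_e (x : Bt) : x * Bt.e = x := by cases x <;> rfl

theorem mul_self (x : Bt) : x * x = Bt.e := by cases x <;> rfl

theorem mul_comm (x y : Bt) : x * y = y * x := by cases x <;> cases y <;> rfl

theorem mul_assoc (x y z : Bt) : x * y * z = x * (y * z) := by cases x <;> cases y <;> cases z <;> rfl

end Bt

theorem ns_mul {s : Bt} (hs : s ≠ .e) (x y : Bt) : ns s (x * y) ↔ (ns s x ↔ ¬ ns s y) := by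
  cases s <;> first | exact absurd rfl hs | (cases x <;> cases y <;> decide)

theorem ns_e (s : Bt) : ¬ ns s .e := fun h => h.1 rfl

theorem bF_mul {ω : ℕ → Bt} (hω : Ok ω) (β γ : Bt) (x : Om) : bF ω (β * γ) x = bF ω β (bF ω γ x) := by
  have key : ∀ n : ℕ, ∀ ω : ℕ → Bt, Ok ω → ∀ x : Om,
      bF ω (β * γ) x n = bF ω β (bF ω γ x) n := by
    intro n
    induction n with
    | zero => intro ω _ x; rfl
    | succ n ih =>
      intro ω hω x
      rw [← cons_tl x]
      cases x 0
      · rw [bF_false, bF_false, bF_false]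
        show (if ns (ω 0) (β * γ) then aF (tl x) else tl x) n = (if ns (ω 0) β then
          aF (if ns (ω 0) γ then aF (tl x) else tl x) else (if ns (ω 0) γ then aF (tl x) else tl x)) n
        have h := ns_mul (hω 0) β γ
        by_cases h1 : ns (ω 0) β <;> by_cases h2 : ns (ω 0) γ <;>
          simp only [h1, h2, if_true, if_false, aF_aF, not_true, not_false_iff, iff_true,
            iff_false] at h ⊢ <;> simp [h]
      · rw [bF_true, bF_true, bF_true]
        exact ih (sh ω) (fun k => hω (k + 1)) (tl x)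
  funext n
  exact key n ω hω x

theorem bF_bF {ω : ℕ → Bt} (hω : Ok ω) (β : Bt) (x : Om) : bF ω β (bF ω β x) = x := by
  rw [← bF_mul hω, Bt.mul_self, bF_e]

theorem bF_inj {ω : ℕ → Bt} (hω : Ok ω) (β : Bt) : Function.Injective (bF ω β) := fun x y h => by
  have := congrArg (bF ω β) h
  rwa [bF_bF hω, bF_bF hω] at this

theorem ok_sh {ω : ℕ → Bt} (hω : Ok ω) : Ok (sh ω) := fun n => hω (n + 1)

theorem ev_inj {ω : ℕ → Bt} (hω : Ok ω) (γ : Bt) (l : List Bt) : Function.Injective (ev ω γ l) := by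
  induction l generalizing γ with
  | nil => exact bF_inj hω γ
  | cons δ l ih => exact (bF_inj hω γ).comp (aF_inj.comp (ih δ))

theorem ev_cons (ω : ℕ → Bt) (γ δ : Bt) (l : List Bt) (x : Om) :
    ev ω γ (δ :: l) x = bF ω γ (aF (ev ω δ l x)) := rfl

/-- multiplying the first letter -/
theorem ev_mul {ω : ℕ → Bt} (hω : Ok ω) (β γ : Bt) (l : List Bt) (x : Om) :
    ev ω (β * γ) l x = bF ω β (ev ω γ l x) := by
  cases l with
  | nil => exact bF_mul hω β γ x
  | cons δ l => exact bF_mul hω β γ _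

theorem x0_mem_orb (ω : ℕ → Bt) (γ : Bt) (l : List Bt) : x0 ∈ orb ω γ l := by
  cases l <;> simp [orb]

theorem mem_orb_cons {ω : ℕ → Bt} {γ δ : Bt} {l : List Bt} {x : Om} :
    x ∈ orb ω γ (δ :: l) ↔ x = x0 ∨ ∃ z ∈ orb ω δ l, bF ω γ (aF z) = x := by
  simp [orb]

theorem mem_orbm_cons {ω : ℕ → Bt} {γ δ : Bt} {l : List Bt} {x : Om} :
    x ∈ orbm ω γ (δ :: l) ↔ x = x0 ∨ ∃ z ∈ orbm ω δ l, bF ω γ (aF z) = x := by
  simp [orbm]

theorem mem_inn_cons {ω : ℕ → Bt} {γ δ : Bt} {l : List Bt} {x : Om} :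
    x ∈ inn ω γ (δ :: l) ↔ ∃ z ∈ orbm ω δ l, bF ω γ (aF z) = x := by
  simp [inn]

theorem orb_mul {ω : ℕ → Bt} (hω : Ok ω) (β γ : Bt) (l : List Bt) (x : Om) :
    x ∈ orb ω (β * γ) l ↔ ∃ z ∈ orb ω γ l, bF ω β z = x := by
  cases l with
  | nil =>
    simp only [orb, Finset.mem_singleton]
    constructor
    · rintro rfl
      exact ⟨x0, rfl, bF_x0 ω β⟩
    · rintro ⟨z, rfl, rfl⟩
      exact bF_x0 ω β
  | cons δ l =>
    simp only [mem_orb_cons]
    constructor
    · rintro (rfl | ⟨z, hz, rfl⟩)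
      · exact ⟨x0, Or.inl rfl, bF_x0 ω β⟩
      · exact ⟨bF ω γ (aF z), Or.inr ⟨z, hz, rfl⟩, (bF_mul hω β γ _).symm⟩
    · rintro ⟨z, rfl | ⟨u, hu, rfl⟩, rfl⟩
      · exact Or.inl (bF_x0 ω β)
      · exact Or.inr ⟨u, hu, bF_mul hω β γ _⟩

theorem orbm_subset_orb (ω : ℕ → Bt) (γ : Bt) (l : List Bt) : orbm ω γ l ⊆ orb ω γ l := by
  induction l generalizing γ with
  | nil => simp [orbm]
  | cons δ l ih =>
    intro x hx
    rw [mem_orbm_cons] at hx
    rw [mem_orb_cons]
    rcases hx with h | ⟨z, hz, h⟩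
    · exact Or.inl h
    · exact Or.inr ⟨z, ih δ hz, h⟩

theorem inn_subset_orbm (ω : ℕ → Bt) (γ : Bt) (l : List Bt) : inn ω γ l ⊆ orbm ω γ l := by
  cases l with
  | nil => simp [inn]
  | cons δ l =>
    intro x hx
    rw [mem_inn_cons] at hx
    rw [mem_orbm_cons]
    exact Or.inr hx

theorem inn_subset_orb (ω : ℕ → Bt) (γ : Bt) (l : List Bt) : inn ω γ l ⊆ orb ω γ l :=
  (inn_subset_orbm ω γ l).trans (orbm_subset_orb ω γ l)

theorem card_orb_le (ω : ℕ → Bt) (γ : Bt) (l : List Bt) : (orb ω γ l).card ≤ l.length + 1 := by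
  induction l generalizing γ with
  | nil => simp [orb]
  | cons δ l ih =>
    calc (orb ω γ (δ :: l)).card ≤ ((orb ω δ l).image fun x => bF ω γ (aF x)).card + 1 :=
          Finset.card_insert_le _ _
      _ ≤ (orb ω δ l).card + 1 := by
          have := Finset.card_image_le (s := orb ω δ l) (f := fun x => bF ω γ (aF x))
          omega
      _ ≤ _ := by
          have := ih δ
          simp only [List.length_cons]
          omega

theorem card_orb_pos (ω : ℕ → Bt) (γ : Bt) (l : List Bt) : 1 ≤ (orb ω γ l).card :=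
  Finset.card_pos.2 ⟨x0, x0_mem_orb ω γ l⟩

theorem dl_bdd (ω : ℕ → Bt) (n : ℕ) :
    BddAbove {m | ∃ (γ : Bt) (l : List Bt), l.length ≤ n ∧ (orb ω γ l).card = m} := by
  refine ⟨n + 1, ?_⟩
  rintro m ⟨γ, l, hl, rfl⟩
  have := card_orb_le ω γ l
  omega

theorem card_orb_le_dl {ω : ℕ → Bt} {γ : Bt} {l : List Bt} {n : ℕ} (h : l.length ≤ n) :
    (orb ω γ l).card ≤ Dl ω n :=
  le_csSup (dl_bdd ω n) ⟨γ, l, h, rfl⟩

theorem dl_le {ω : ℕ → Bt} {n M : ℕ} (h : ∀ γ : Bt, ∀ l : List Bt, l.length ≤ n → (orb ω γ l).card ≤ M) :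
    Dl ω n ≤ M := by
  refine csSup_le ⟨_, .e, [], Nat.zero_le _, rfl⟩ ?_
  rintro m ⟨γ, l, hl, rfl⟩
  exact h γ l hl

theorem dl_exists (ω : ℕ → Bt) (n : ℕ) :
    ∃ (γ : Bt) (l : List Bt), l.length ≤ n ∧ (orb ω γ l).card = Dl ω n :=
  Nat.sSup_mem (s := {m | ∃ (γ : Bt) (l : List Bt), l.length ≤ n ∧ (orb ω γ l).card = m})
    ⟨_, .e, [], Nat.zero_le _, rfl⟩ (dl_bdd ω n)

theorem dl_mono (ω : ℕ → Bt) : Monotone (Dl ω) := fun _ _ h =>
  dl_le fun _ _ hl => card_orb_le_dl (hl.trans h)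

theorem dl_le_succ (ω : ℕ → Bt) (n : ℕ) : Dl ω n ≤ n + 1 :=
  dl_le fun γ l hl => (card_orb_le ω γ l).trans (by omega)

theorem one_le_dl (ω : ℕ → Bt) (n : ℕ) : 1 ≤ Dl ω n :=
  (card_orb_pos ω .e []).trans (card_orb_le_dl (Nat.zero_le n))

end Gri98
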