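import Pool.Agent.W_afafb9_h98.LDef

/-!
# The balls of the wreath product
-/

set_option autoImplicit false

namespace Gri98

open scoped Classical

variable {X : Type*}

/-- Proof. `El σ U (x, 0) = (σ x, U (σ x))`; compare both components, `σ` is surjective. -/
theorem el_inj {σ τ : Equiv.Perm X} {U V : X →₀ ℤ} (h : El σ U = El τ V) : σ = τ ∧ U = V := by
  have h1 : ∀ x, σ x = τ x ∧ U (σ x) = V (τ x) := fun x => by
    have h0 : El σ U (x, (0 : ℤ)) = El τ V (x, (0 : ℤ)) := by rw [h]
    have h3 : (σ x, (0 : ℤ) + U (σ x)) = (τ x, (0 : ℤ) + V (τ x)) := h0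
    obtain ⟨h4, h5⟩ := Prod.mk.inj h3
    exact ⟨h4, by linarith⟩
  have h2 : σ = τ := Equiv.ext fun x => (h1 x).1
  refine ⟨h2, Finsupp.ext fun y => ?_⟩
  obtain ⟨x, rfl⟩ := σ.surjective y
  rw [(h1 x).2, ← h2]

/-- The product: `El σ U * El τ V = El (σ τ) (U + σ V)`, where `(σ V)(x) = V (σ⁻¹ x)`.

Proof. `El σ U (El τ V (x, k)) = (σ τ x, k + V (τ x) + U (σ τ x))`, and
`(V.mapDomain σ) (σ (τ x)) = V (τ x)` (`Finsupp.mapDomain_apply σ.injective`). -/
theorem el_mul (σ τ : Equiv.Perm X) (U V : X →₀ ℤ) :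
    El σ U * El τ V = El (σ * τ) (U + V.mapDomain σ) := by
  refine Equiv.ext fun p => ?_
  obtain ⟨x, k⟩ := p
  have h1 : (El σ U * El τ V) (x, k) = (σ (τ x), k + V (τ x) + U (σ (τ x))) := rfl
  have h2 : (El (σ * τ) (U + V.mapDomain σ)) (x, k) =
      (σ (τ x), k + (U + V.mapDomain σ) (σ (τ x))) := rfl
  rw [h1, h2, Finsupp.add_apply, Finsupp.mapDomain_apply σ.injective]
  congr 1
  ring

theorem lampBall_one : El (1 : Equiv.Perm X) 0 = 1 := by
  refine Equiv.ext fun p => ?_
  obtain ⟨x, k⟩ := p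
  show (x, k + (0 : X →₀ ℤ) x) = (x, k)
  simp

theorem lampBall_inv (s : Equiv.Perm X) : (El s 0)⁻¹ = El s⁻¹ 0 := by
  refine inv_eq_of_mul_eq_one_right ?_
  rw [el_mul, Finsupp.mapDomain_zero, add_zero, mul_inv_cancel, lampBall_one]

theorem lampBall_zz (o : X) : (zz o)⁻¹ = El 1 (Finsupp.single o (-1)) := by
  refine inv_eq_of_mul_eq_one_right ?_
  rw [zz, el_mul]
  have h : Finsupp.mapDomain (⇑(1 : Equiv.Perm X)) (Finsupp.single o (-1 : ℤ)) =
      Finsupp.single o (-1) := by
    rw [Finsupp.mapDomain_single]; rfl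
  rw [h, ← Finsupp.single_add, mul_one]
  simp [lampBall_one]

theorem lampBall_map (s : Equiv.Perm X) (U : X →₀ ℤ) : nm (U.mapDomain s) = nm U :=
  Finsupp.sum_mapDomain_index_inj s.injective

theorem lampBall_single (o : X) (k : ℤ) : nm (Finsupp.single o k) = k.natAbs :=
  Finsupp.sum_single_index rfl

theorem lampBall_add (U V : X →₀ ℤ) : nm (U + V) ≤ nm U + nm V := by
  have h1 : nm (U + V) = ∑ x ∈ U.support ∪ V.support, ((U + V) x).natAbs :=
    Finsupp.sum_of_support_subset _ Finsupp.support_add _ (fun _ _ => rfl)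
  have h2 : nm U = ∑ x ∈ U.support ∪ V.support, (U x).natAbs :=
    Finsupp.sum_of_support_subset _ Finset.subset_union_left _ (fun _ _ => rfl)
  have h3 : nm V = ∑ x ∈ U.support ∪ V.support, (V x).natAbs :=
    Finsupp.sum_of_support_subset _ Finset.subset_union_right _ (fun _ _ => rfl)
  rw [h1, h2, h3, ← Finset.sum_add_distrib]
  exact Finset.sum_le_sum fun x _ => by
    rw [Finsupp.add_apply]; exact Int.natAbs_add_le _ _

theorem lampBall_self (o : X) (w : List (Equiv.Perm X)) : o ∈ orbL o w := by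
  cases w with
  | nil => simp [orbL]
  | cons s w => simp [orbL]

theorem lampBall_fwd (o : X) (A : Set (Equiv.Perm X)) (l : List (Equiv.Perm (X × ℤ))) :
    (∀ x ∈ l, x ∈ SW o A ∨ x⁻¹ ∈ SW o A) →
    ∃ (σ : Equiv.Perm X) (U : X →₀ ℤ), l.prod = El σ U ∧ ∃ w : List (Equiv.Perm X),
      w.length + nm U ≤ l.length ∧ (∀ s ∈ w, s ∈ A ∨ s⁻¹ ∈ A) ∧ w.prod = σ ∧
      U.support ⊆ orbL o w := by
  induction l with
  | nil =>
    intro _
    refine ⟨1, 0, by rw [List.prod_nil, lampBall_one], [], ?_, by simp, rfl, by simp⟩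
    simp [nm]
  | cons x l ih =>
    intro hl
    obtain ⟨σ, U, h1, w, h2, h3, h4, h5⟩ := ih fun y hy => hl y (List.mem_cons_of_mem _ hy)
    have hx : (∃ s, (s ∈ A ∨ s⁻¹ ∈ A) ∧ x = El s 0) ∨ ∃ k : ℤ, k.natAbs = 1 ∧
        x = El 1 (Finsupp.single o k) := by
      rcases hl x List.mem_cons_self with h | h
      · rcases h with ⟨s, hs, h⟩ | h
        · exact Or.inl ⟨s, Or.inl hs, h.symm⟩
        · exact Or.inr ⟨1, rfl, h⟩
      · rcases h with ⟨s, hs, h⟩ | h
        · refine Or.inl ⟨s⁻¹, Or.inr (by rwa [inv_inv]), ?_⟩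
          have h0 : El s 0 = x⁻¹ := h
          rw [← lampBall_inv, h0, inv_inv]
        · refine Or.inr ⟨-1, rfl, ?_⟩
          have h0 : x⁻¹ = zz o := h
          rw [← lampBall_zz, ← h0, inv_inv]
    rcases hx with ⟨s, hs, hx⟩ | ⟨k, hk, hx⟩
    · refine ⟨s * σ, U.mapDomain s, ?_, s :: w, ?_, ?_, ?_, ?_⟩
      · rw [List.prod_cons, h1, hx, el_mul, zero_add]
      · rw [lampBall_map, List.length_cons, List.length_cons]; omega
      · intro t ht
        rcases List.mem_cons.1 ht with rfl | ht
        · exact hs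
        · exact h3 t ht
      · rw [List.prod_cons, h4]
      · intro y hy
        have hy1 := Finsupp.mapDomain_support hy
        obtain ⟨z, hz, rfl⟩ := Finset.mem_image.1 hy1
        exact Finset.mem_insert_of_mem (Finset.mem_image.2 ⟨z, h5 hz, rfl⟩)
    · refine ⟨σ, Finsupp.single o k + U, ?_, w, ?_, h3, h4, ?_⟩
      · rw [List.prod_cons, h1, hx, el_mul, one_mul]
        congr 1
        have : Finsupp.mapDomain (⇑(1 : Equiv.Perm X)) U = U := Finsupp.mapDomain_id
        rw [this]
      · have h6 := lampBall_add (Finsupp.single o k) U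
        rw [lampBall_single, hk] at h6
        rw [List.length_cons]; omega
      · intro y hy
        rcases Finset.mem_union.1 (Finsupp.support_add hy) with hy | hy
        · have hy2 := Finsupp.support_single_subset hy
          rw [Finset.mem_singleton.1 hy2]
          exact lampBall_self o w
        · exact h5 hy

theorem lampBall_pow (o : X) (A : Set (Equiv.Perm X)) (k : ℤ) :
    ∃ l : List (Equiv.Perm (X × ℤ)), l.length = k.natAbs ∧ (∀ x ∈ l, x ∈ SW o A ∨ x⁻¹ ∈ SW o A) ∧
      l.prod = El 1 (Finsupp.single o k) := by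
  have key : ∀ (ε : ℤ) (x : Equiv.Perm (X × ℤ)), x = El 1 (Finsupp.single o ε) → ∀ n : ℕ,
      (List.replicate n x).prod = El 1 (Finsupp.single o (n * ε)) := by
    intro ε x hx n
    induction n with
    | zero => simp [lampBall_one]
    | succ n ih =>
      rw [List.replicate_succ, List.prod_cons, ih, hx, el_mul, one_mul]
      have : Finsupp.mapDomain (⇑(1 : Equiv.Perm X)) (Finsupp.single o ((n : ℤ) * ε)) =
        Finsupp.single o ((n : ℤ) * ε) := by rw [Finsupp.mapDomain_single]; rfl
      rw [this, ← Finsupp.single_add]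
      congr 2
      push_cast; ring
  rcases le_total 0 k with hk | hk
  · refine ⟨List.replicate k.natAbs (zz o), List.length_replicate, ?_, ?_⟩
    · intro x hx
      rw [List.eq_of_mem_replicate hx]
      exact Or.inl (Or.inr rfl)
    · rw [key 1 (zz o) rfl, mul_one, Int.natCast_natAbs, abs_of_nonneg hk]
  · refine ⟨List.replicate k.natAbs (zz o)⁻¹, List.length_replicate, ?_, ?_⟩
    · intro x hx
      rw [List.eq_of_mem_replicate hx, inv_inv]
      exact Or.inr (Or.inr rfl)
    · rw [key (-1) _ (lampBall_zz o), Int.natCast_natAbs, abs_of_nonpos hk]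
      congr 2; ring

theorem lampBall_bwd (o : X) (A : Set (Equiv.Perm X)) (w : List (Equiv.Perm X)) :
    (∀ s ∈ w, s ∈ A ∨ s⁻¹ ∈ A) → ∀ U : X →₀ ℤ, U.support ⊆ orbL o w →
    ∃ l : List (Equiv.Perm (X × ℤ)), l.length ≤ w.length + nm U ∧
      (∀ x ∈ l, x ∈ SW o A ∨ x⁻¹ ∈ SW o A) ∧ l.prod = El w.prod U := by
  have red : ∀ (w : List (Equiv.Perm X)) (U : X →₀ ℤ), (∃ l : List (Equiv.Perm (X × ℤ)),
      l.length ≤ w.length + nm (U.erase o) ∧ (∀ x ∈ l, x ∈ SW o A ∨ x⁻¹ ∈ SW o A) ∧
      l.prod = El w.prod (U.erase o)) → ∃ l : List (Equiv.Perm (X × ℤ)),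
      l.length ≤ w.length + nm U ∧ (∀ x ∈ l, x ∈ SW o A ∨ x⁻¹ ∈ SW o A) ∧
      l.prod = El w.prod U := by
    rintro w U ⟨l, h1, h2, h3⟩
    obtain ⟨l', h4, h5, h6⟩ := lampBall_pow o A (U o)
    have hU : Finsupp.single o (U o) + U.erase o = U := Finsupp.single_add_erase o U
    have hn : nm U = (U o).natAbs + nm (U.erase o) := by
      by_cases ho : o ∈ U.support
      · exact (Finsupp.add_sum_erase U o (fun _ k => k.natAbs) ho).symm
      · have h0 : U o = 0 := by simpa using ho
        have h00 : U.erase o = U := Finsupp.erase_of_notMem_support ho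
        rw [h00, h0]; simp
    refine ⟨l' ++ l, ?_, ?_, ?_⟩
    · rw [List.length_append, h4, hn]; omega
    · intro x hx
      rcases List.mem_append.1 hx with hx | hx
      · exact h5 x hx
      · exact h2 x hx
    · rw [List.prod_append, h3, h6, el_mul, one_mul]
      have : Finsupp.mapDomain (⇑(1 : Equiv.Perm X)) (U.erase o) = U.erase o :=
        Finsupp.mapDomain_id
      rw [this, hU]
  induction w with
  | nil =>
    intro _ U hU
    apply red
    refine ⟨[], by simp, by simp, ?_⟩
    have h0 : U.erase o = 0 := by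
      ext x
      by_cases hx : x = o
      · rw [hx, Finsupp.erase_same]; rfl
      · rw [Finsupp.erase_ne hx]
        by_contra h
        exact hx (Finset.mem_singleton.1 (hU (Finsupp.mem_support_iff.2 h)))
    rw [h0, List.prod_nil, List.prod_nil, lampBall_one]
  | cons s w ih =>
    intro hw U hU
    apply red
    obtain ⟨l, h1, h2, h3⟩ := ih (fun t ht => hw t (List.mem_cons_of_mem _ ht))
      ((U.erase o).mapDomain (⇑(s⁻¹))) (by
        intro y hy
        have hy1 := Finsupp.mapDomain_support hy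
        obtain ⟨z, hz, rfl⟩ := Finset.mem_image.1 hy1
        rw [Finsupp.support_erase] at hz
        obtain ⟨hz1, hz2⟩ := Finset.mem_erase.1 hz
        rcases Finset.mem_insert.1 (hU hz2) with h | h
        · exact absurd h hz1
        · obtain ⟨y', hy', hy''⟩ := Finset.mem_image.1 h
          have h8 : s⁻¹ z = y' := by rw [← hy'']; simp
          rw [h8]
          exact hy')
    rw [lampBall_map] at h1
    refine ⟨El s 0 :: l, ?_, ?_, ?_⟩
    · rw [List.length_cons, List.length_cons]; omega
    · intro x hx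
      rcases List.mem_cons.1 hx with rfl | hx
      · rcases hw s List.mem_cons_self with h | h
        · exact Or.inl (Or.inl ⟨s, h, rfl⟩)
        · refine Or.inr (Or.inl ⟨s⁻¹, h, ?_⟩)
          rw [lampBall_inv]
      · exact h2 x hx
    · rw [List.prod_cons, List.prod_cons, h3, el_mul, zero_add, ← Finsupp.mapDomain_comp]
      congr 1
      have : (⇑s ∘ ⇑s⁻¹) = id := by
        ext x; simp
      rw [this, Finsupp.mapDomain_id]

/-- The ball of radius `n` of the wreath product: `El σ U` lies in it if and only if there is a word `w` of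
length `m ≤ n - nm U` in the letters `A` and their inverses with product `σ` which visits the support
of `U`.

Proof. (→) Induction on the word `l` of `h`: `l = []`: `h = 1 = El 1 0`, `m = 0`. Let `l = x :: l'`, and
`l'.prod = El σ U` with `w`, `m + nm U ≤ l'.length`, `U.support ⊆ orbL o w`. If `x = El s 0` or `x⁻¹ = El s 0` with
`s ∈ A` (so `x = El s' 0` with `s' ∈ A` or `s'⁻¹ ∈ A`) then `x * l'.prod = El (s' * σ) (U.mapDomain s')`, the support of
`U.mapDomain s'` is the image of the support of `U` under `s'` and so is contained in `orbL o (s' :: w)`, and `nm` does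
not change (`Finsupp.sum_mapDomain_index_inj`). If `x = zz o` or `x⁻¹ = zz o` then `x = El 1 (single o (±1))` and
`x * l'.prod = El σ (single o (±1) + U)`, the norm grows by at most `1`, the support is contained in
`insert o U.support ⊆ orbL o w` (`o ∈ orbL o w` always).

(←) Claim: for every word `w` with letters in `A` and inverses and every `U` with
`U.support ⊆ orbL o w` there is a word `l` in `SW o A` and inverses with `l.length ≤ w.length + nm U`
and `l.prod = El w.prod U`. Induction on `w`, for all `U`. Write `k = U o` and `U = single o k + U'` with `U' = U.erase o`;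
`nm U = k.natAbs + nm U'`. `El σ U = El 1 (single o k) * El σ U'` and `El 1 (single o k) = (zz o) ^ k` is the product of
`k.natAbs` letters `zz o` (or of `(zz o)⁻¹`). If `w = []` then `U' = 0` and we are done. If `w = s :: w'` then
`U'.support ⊆ (orbL o w').image s` (as `o ∉ U'.support`), so `V = U'.mapDomain s⁻¹` has `V.support ⊆ orbL o w'`,
`nm V = nm U'`, and `El (s :: w').prod U' = El s 0 * El w'.prod V`: use the induction hypothesis for `w'`, `V`
and one more letter `El s 0`, which is in `SW o A` or its inverse `El s⁻¹ 0` is. -/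
theorem wd_iff (o : X) (A : Set (Equiv.Perm X)) (n : ℕ) (h : Equiv.Perm (X × ℤ)) :
    Wd (SW o A) n h ↔
      ∃ (σ : Equiv.Perm X) (U : X →₀ ℤ), h = El σ U ∧ ∃ m, m + nm U ≤ n ∧ Rp o A m σ U.support := by
  constructor
  · rintro ⟨l, h1, h2, rfl⟩
    obtain ⟨σ, U, h3, w, h4, h5, h6, h7⟩ := lampBall_fwd o A l h2
    exact ⟨σ, U, h3, w.length, by omega, w, le_rfl, h5, h6, h7⟩
  · rintro ⟨σ, U, rfl, m, hm, w, h1, h2, rfl, h3⟩
    obtain ⟨l, h4, h5, h6⟩ := lampBall_bwd o A w h2 U h3
    exact ⟨l, by omega, h5, h6⟩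

end Gri98
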