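import Pool.Agent.W_afafb9_h98.LampCount
import Pool.Agent.W_afafb9_h98.LampBall

/-!
# The growth function of the wreath product

The modules `LampCount` and `LampBall` are stubs being proved by others; use their statements.
-/

set_option autoImplicit false

namespace Gri98

open scoped Classical

variable {X : Type*}

theorem LampSum_words (A : Set (Equiv.Perm X)) (hA : A.Finite) (m : ℕ) :
    {w : List (Equiv.Perm X) | w.length ≤ m ∧ ∀ s ∈ w, s ∈ A ∨ s⁻¹ ∈ A}.Finite := by
  have hB : (A ∪ A⁻¹).Finite := hA.union hA.inv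
  haveI : Finite ↥(A ∪ A⁻¹) := hB.to_subtype
  refine ((List.finite_length_le ↥(A ∪ A⁻¹) m).image (List.map Subtype.val)).subset ?_
  rintro w ⟨h1, h2⟩
  have h3 : ∀ s ∈ w, s ∈ A ∪ A⁻¹ := fun s hs => by
    rcases h2 s hs with h | h
    · exact Or.inl h
    · exact Or.inr h
  refine ⟨w.attachWith _ h3, ?_, ?_⟩
  · simpa using h1
  · simp

theorem LampSum_rp_mono {o : X} {A : Set (Equiv.Perm X)} {m m' : ℕ} {σ : Equiv.Perm X} {R : Finset X}
    (h : Rp o A m σ R) (hm : m ≤ m') : Rp o A m' σ R := by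
  obtain ⟨w, h1, h2⟩ := h
  exact ⟨w, h1.trans hm, h2⟩

/-- Proof. The words of length at most `m` in the finite set `A ∪ A⁻¹` form a finite set
(`List.finite_length_le`-like for lists over a finite type, or induction on `m`: prove it for the set of words
`{w | w.length ≤ m ∧ ∀ s ∈ w, s ∈ A ∨ s⁻¹ ∈ A}`), and `Cls o A m` is contained in the finite union over these words `w`
of `{w.prod} ×ˢ (orbL o w).powerset`. -/
theorem cls_finite (o : X) {A : Set (Equiv.Perm X)} (hA : A.Finite) (m : ℕ) : (Cls o A m).Finite := by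
  refine ((LampSum_words A hA m).biUnion (t := fun w => ({w.prod} : Set (Equiv.Perm X)) ×ˢ
    (((orbL o w).powerset : Finset (Finset X)) : Set (Finset X))) ?_).subset ?_
  · intro w _
    exact (Set.finite_singleton _).prod (Finset.finite_toSet _)
  · rintro ⟨σ, R⟩ ⟨w, h1, h2, h3, h4⟩
    simp only [Set.mem_iUnion]
    refine ⟨w, ⟨h1, h2⟩, ?_⟩
    refine ⟨?_, ?_⟩
    · simpa using h3.symm
    · simpa using h4

/-- the least length -/
noncomputable def LampSum_mu (o : X) (A : Set (Equiv.Perm X)) (p : Equiv.Perm X × Finset X) : ℕ :=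
  sInf {m | Rp o A m p.1 p.2}

theorem LampSum_mu_le {o : X} {A : Set (Equiv.Perm X)} {p : Equiv.Perm X × Finset X} {m : ℕ}
    (h : Rp o A m p.1 p.2) : LampSum_mu o A p ≤ m := Nat.sInf_le h

theorem LampSum_mu_mem {o : X} {A : Set (Equiv.Perm X)} {p : Equiv.Perm X × Finset X} {m : ℕ}
    (h : Rp o A m p.1 p.2) : Rp o A (LampSum_mu o A p) p.1 p.2 :=
  Nat.sInf_mem (s := {m | Rp o A m p.1 p.2}) ⟨m, h⟩

theorem LampSum_V (o : X) (A : Set (Equiv.Perm X)) (k : ℕ) (p : Equiv.Perm X × Finset X) :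
    {U : X →₀ ℤ | U.support = p.2 ∧ LampSum_mu o A p + nm U ≤ k}.Finite ∧
    {U : X →₀ ℤ | U.support = p.2 ∧ LampSum_mu o A p + nm U ≤ k}.ncard =
      if LampSum_mu o A p ≤ k then 2 ^ p.2.card * (k - LampSum_mu o A p).choose p.2.card else 0 := by
  by_cases h : LampSum_mu o A p ≤ k
  · have he : {U : X →₀ ℤ | U.support = p.2 ∧ LampSum_mu o A p + nm U ≤ k} =
        {U : X →₀ ℤ | U.support = p.2 ∧ nm U ≤ k - LampSum_mu o A p} := by
      ext U
      simp only [Set.mem_setOf_eq]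
      constructor
      · rintro ⟨h1, h2⟩
        exact ⟨h1, by omega⟩
      · rintro ⟨h1, h2⟩
        exact ⟨h1, by omega⟩
    rw [he, if_pos h]
    exact lamp_count p.2 _
  · have he : {U : X →₀ ℤ | U.support = p.2 ∧ LampSum_mu o A p + nm U ≤ k} = ∅ := by
      ext U
      simp only [Set.mem_setOf_eq, Set.mem_empty_iff_false, iff_false]
      rintro ⟨h1, h2⟩
      omega
    rw [he, if_neg h]
    simp

theorem LampSum_ball (o : X) {A : Set (Equiv.Perm X)} (hA : A.Finite) (M k : ℕ) (hk : k ≤ M) :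
    {h | Wd (SW o A) k h}.Finite ∧
    gr (SW o A) k = ∑ p ∈ (cls_finite o hA M).toFinset,
      if LampSum_mu o A p ≤ k then 2 ^ p.2.card * (k - LampSum_mu o A p).choose p.2.card else 0 := by
  let S : Finset (Σ _ : Equiv.Perm X × Finset X, (X →₀ ℤ)) :=
    ((cls_finite o hA M).toFinset).sigma (fun p => (LampSum_V o A k p).1.toFinset)
  let g : (Σ _ : Equiv.Perm X × Finset X, (X →₀ ℤ)) → Equiv.Perm (X × ℤ) := fun q => El q.1.1 q.2
  have hS : ∀ q ∈ S, Rp o A M q.1.1 q.1.2 ∧ q.2.support = q.1.2 ∧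
      LampSum_mu o A q.1 + nm q.2 ≤ k := by
    intro q hq
    have h1 := Finset.mem_sigma.1 hq
    have h2 := (Set.Finite.mem_toFinset _).1 h1.1
    have h3 := (Set.Finite.mem_toFinset _).1 h1.2
    exact ⟨h2, h3.1, h3.2⟩
  have hset : {h | Wd (SW o A) k h} = ((S.image g : Finset _) : Set (Equiv.Perm (X × ℤ))) := by
    ext h
    simp only [Set.mem_setOf_eq, Finset.coe_image, Set.mem_image, Finset.mem_coe]
    constructor
    · intro hh
      obtain ⟨σ, U, h1, m, h2, h3⟩ := (wd_iff o A k h).1 hh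
      refine ⟨⟨(σ, U.support), U⟩, ?_, h1.symm⟩
      apply Finset.mem_sigma.2
      refine ⟨(Set.Finite.mem_toFinset _).2 ?_, (Set.Finite.mem_toFinset _).2 ⟨rfl, ?_⟩⟩
      · exact LampSum_rp_mono h3 (by omega)
      · have := LampSum_mu_le (o := o) (A := A) (p := (σ, U.support)) (m := m) h3
        show LampSum_mu o A (σ, U.support) + nm U ≤ k
        omega
    · rintro ⟨q, hq, rfl⟩
      obtain ⟨h1, h2, h3⟩ := hS q hq
      refine (wd_iff o A k _).2 ⟨q.1.1, q.2, rfl, LampSum_mu o A q.1, h3, ?_⟩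
      rw [h2]
      exact LampSum_mu_mem h1
  have hinj : Set.InjOn g (S : Set (Σ _ : Equiv.Perm X × Finset X, (X →₀ ℤ))) := by
    intro q hq q' hq' hgg
    obtain ⟨-, h2, -⟩ := hS q hq
    obtain ⟨-, h2', -⟩ := hS q' hq'
    obtain ⟨e1, e2⟩ := el_inj (σ := q.1.1) (τ := q'.1.1) (U := q.2) (V := q'.2) hgg
    obtain ⟨⟨σ, R⟩, U⟩ := q
    obtain ⟨⟨σ', R'⟩, U'⟩ := q'
    simp only at e1 e2 h2 h2'
    subst e1 e2 h2 h2'
    rfl
  refine ⟨by rw [hset]; exact Finset.finite_toSet _, ?_⟩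
  have h1 : gr (SW o A) k = {h | Wd (SW o A) k h}.ncard := by
    unfold gr
    exact Nat.card_coe_set_eq _
  rw [h1, hset, Set.ncard_coe_finset, Finset.card_image_of_injOn hinj, Finset.card_sigma]
  apply Finset.sum_congr rfl
  intro p _
  exact (Set.ncard_eq_toFinset_card _ (LampSum_V o A k p).1).symm.trans (LampSum_V o A k p).2

theorem LampSum_choose (K N r d : ℕ) (hr : r ≤ d) :
    K * (2 ^ r * (N + 1).choose r) ≤ (K + 1) * (2 ^ r * N.choose r) + K * 2 ^ ((K + 2) * d) := by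
  by_cases h : (K + 1) * r ≤ N + 1
  · have h1 := Nat.choose_mul_succ_eq N r
    have hrN : r ≤ N + 1 := le_trans (Nat.le_mul_of_pos_left r (Nat.succ_pos K)) h
    have h2 : K * (N + 1) ≤ (K + 1) * (N + 1 - r) := by
      have : (K + 1) * (N + 1 - r) = (K + 1) * (N + 1) - (K + 1) * r := Nat.mul_sub _ _ _
      rw [this]
      have h3 : (K + 1) * (N + 1) = K * (N + 1) + (N + 1) := by ring
      omega
    have h3 : K * (N + 1).choose r ≤ (K + 1) * N.choose r := by
      have h4 : (K * (N + 1).choose r) * (N + 1) ≤ ((K + 1) * N.choose r) * (N + 1) := by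
        calc (K * (N + 1).choose r) * (N + 1) = (N + 1).choose r * (K * (N + 1)) := by ring
          _ ≤ (N + 1).choose r * ((K + 1) * (N + 1 - r)) := Nat.mul_le_mul_left _ h2
          _ = (K + 1) * ((N + 1).choose r * (N + 1 - r)) := by ring
          _ = (K + 1) * (N.choose r * (N + 1)) := by rw [h1]
          _ = ((K + 1) * N.choose r) * (N + 1) := by ring
      exact Nat.le_of_mul_le_mul_right h4 (Nat.succ_pos N)
    calc K * (2 ^ r * (N + 1).choose r) = 2 ^ r * (K * (N + 1).choose r) := by ring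
      _ ≤ 2 ^ r * ((K + 1) * N.choose r) := Nat.mul_le_mul_left _ h3
      _ = (K + 1) * (2 ^ r * N.choose r) := by ring
      _ ≤ _ := Nat.le_add_right _ _
  · have h1 : N + 1 ≤ (K + 1) * d := by
      have := Nat.mul_le_mul_left (K + 1) hr
      omega
    have h2 : 2 ^ r * (N + 1).choose r ≤ 2 ^ ((K + 2) * d) := by
      calc 2 ^ r * (N + 1).choose r ≤ 2 ^ d * 2 ^ (N + 1) :=
            Nat.mul_le_mul (Nat.pow_le_pow_right (by norm_num) hr) (Nat.choose_le_two_pow _ _)
        _ ≤ 2 ^ d * 2 ^ ((K + 1) * d) :=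
            Nat.mul_le_mul_left _ (Nat.pow_le_pow_right (by norm_num) h1)
        _ = 2 ^ ((K + 2) * d) := by
            rw [← pow_add]
            congr 1
            ring
    exact le_trans (Nat.mul_le_mul_left K h2) (Nat.le_add_left _ _)

/-- One step. Let `d` bound the cardinality of all site sets of words of length at most `n + 1`.

Proof. For `(σ, R) ∈ Cls o A (n+1)` let `μ(σ,R) ≤ n + 1` be the least `m` with `Rp o A m σ R` (`Nat.find`); `Rp` is
monotone in `m`. By `wd_iff` and `el_inj`, for `k ≤ n + 1` the ball `{h | Wd (SW o A) k h}` is in bijection with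
the triples `(σ, R, U)` with `(σ, R) ∈ Cls o A (n+1)`, `μ(σ,R) ≤ k`, `U.support = R`, `nm U ≤ k - μ(σ,R)`. By `lamp_count`
`gr (SW o A) k = ∑ (σ,R) ∈ Cls o A (n+1) with μ(σ,R) ≤ k, 2^r * (k - μ(σ,R)).choose r`, `r = R.card`
(everything is finite; `cls_finite`). We compare the terms for `k = n + 1` and `k = n`. Let
`N = n - μ` if `μ ≤ n`. Claim: `K * 2^r * (N+1).choose r ≤ (K+1) * 2^r * N.choose r + K * 2^((K+2)*d)`.
If `(K+1) * r ≤ N + 1` then `(N+1-r) * (N+1).choose r = (N+1) * N.choose r` (`Nat.succ_mul_choose_eq`,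
`Nat.choose_mul_succ_eq : n.choose k * (n+1) = (n+1).choose k * (n+1-k)`) and
`K * (N+1) ≤ (K+1) * (N+1-r)`, so `K * (N+1).choose r ≤ (K+1) * N.choose r`. Otherwise `N + 1 < (K+1) * r ≤ (K+1) * d`, and
`2^r * (N+1).choose r ≤ 2^d * 2^(N+1) ≤ 2^((K+2)*d)` (`Nat.choose_le_two_pow`). If `μ = n + 1` then the term
for `n + 1` is `2^r * (0).choose r ≤ 1` (`r = 0` or the binomial is `0`). Sum over `(σ,R) ∈ Cls o A (n+1)`. -/
theorem gr_step (o : X) {A : Set (Equiv.Perm X)} (hA : A.Finite) (K n d : ℕ)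
    (hd : ∀ (σ : Equiv.Perm X) (R : Finset X), Rp o A (n + 1) σ R → R.card ≤ d) :
    K * gr (SW o A) (n + 1) ≤
      (K + 1) * gr (SW o A) n + K * (Cls o A (n + 1)).ncard * 2 ^ ((K + 2) * d) := by
  rw [(LampSum_ball o hA (n + 1) (n + 1) le_rfl).2, (LampSum_ball o hA (n + 1) n (Nat.le_succ n)).2,
    Set.ncard_eq_toFinset_card _ (cls_finite o hA (n + 1)), Finset.mul_sum, Finset.mul_sum]
  have hc : K * ((cls_finite o hA (n + 1)).toFinset).card * 2 ^ ((K + 2) * d) =
      ∑ _p ∈ (cls_finite o hA (n + 1)).toFinset, K * 2 ^ ((K + 2) * d) := by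
    rw [Finset.sum_const, smul_eq_mul]
    ring
  rw [hc, ← Finset.sum_add_distrib]
  apply Finset.sum_le_sum
  intro p hp
  have hp' : Rp o A (n + 1) p.1 p.2 := (Set.Finite.mem_toFinset (cls_finite o hA (n + 1))).1 hp
  have hr : p.2.card ≤ d := hd p.1 p.2 hp'
  have hm := LampSum_mu_le hp'
  rw [if_pos hm]
  by_cases h : LampSum_mu o A p ≤ n
  · rw [if_pos h]
    have e : n + 1 - LampSum_mu o A p = (n - LampSum_mu o A p) + 1 := by omega
    rw [e]
    exact LampSum_choose K _ _ d hr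
  · rw [if_neg h]
    have e : n + 1 - LampSum_mu o A p = 0 := by omega
    rw [e, mul_zero, zero_add]
    apply Nat.mul_le_mul_left
    calc 2 ^ p.2.card * (0 : ℕ).choose p.2.card ≤ 2 ^ d * 2 ^ 0 :=
          Nat.mul_le_mul (Nat.pow_le_pow_right (by norm_num) hr) (Nat.choose_le_two_pow _ _)
      _ = 2 ^ d := by ring
      _ ≤ 2 ^ ((K + 2) * d) := by
          apply Nat.pow_le_pow_right (by norm_num)
          have : d * 1 ≤ d * (K + 2) := Nat.mul_le_mul_left d (by omega)
          linarith [Nat.mul_comm (K + 2) d]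

/-- Proof. The `2^r * (n-m).choose r` elements `El σ U` with `U.support = R`, `nm U ≤ n - m` lie in the ball of
radius `n` (`wd_iff`, `el_inj`, `lamp_count`); the ball is finite because `SW o A` is finite. -/
theorem gr_lower (o : X) {A : Set (Equiv.Perm X)} (hA : A.Finite) {m n : ℕ} {σ : Equiv.Perm X} {R : Finset X}
    (h : Rp o A m σ R) (hmn : m ≤ n) : (n - m).choose R.card ≤ gr (SW o A) n := by
  have hfin := (LampSum_ball o hA n n le_rfl).1
  have h1 : gr (SW o A) n = {h | Wd (SW o A) n h}.ncard := by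
    unfold gr
    exact Nat.card_coe_set_eq _
  rw [h1]
  have h2 := lamp_count R (n - m)
  have h3 : (El σ '' {U : X →₀ ℤ | U.support = R ∧ nm U ≤ n - m}).ncard =
      2 ^ R.card * (n - m).choose R.card := by
    rw [Set.ncard_image_of_injective _ (fun U V hUV => (el_inj hUV).2), h2.2]
  have h4 : El σ '' {U : X →₀ ℤ | U.support = R ∧ nm U ≤ n - m} ⊆ {h | Wd (SW o A) n h} := by
    rintro _ ⟨U, ⟨hU, hn⟩, rfl⟩
    refine (wd_iff o A n _).2 ⟨σ, U, rfl, m, by omega, ?_⟩
    rw [hU]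
    exact h
  calc (n - m).choose R.card ≤ 2 ^ R.card * (n - m).choose R.card :=
        Nat.le_mul_of_pos_left _ (by positivity)
    _ = (El σ '' {U : X →₀ ℤ | U.support = R ∧ nm U ≤ n - m}).ncard := h3.symm
    _ ≤ {h | Wd (SW o A) n h}.ncard := Set.ncard_le_ncard h4 hfin

/-- Proof. The ball of radius `m` is contained in the ball of radius `n`, which is finite; it contains `1`. -/
theorem gr_mono (o : X) {A : Set (Equiv.Perm X)} (hA : A.Finite) : Monotone (gr (SW o A)) := by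
  intro m n hmn
  have h1 : ∀ k, gr (SW o A) k = {h | Wd (SW o A) k h}.ncard := fun k => by
    unfold gr
    exact Nat.card_coe_set_eq _
  rw [h1, h1]
  apply Set.ncard_le_ncard _ (LampSum_ball o hA n n le_rfl).1
  rintro h ⟨l, hl, h2⟩
  exact ⟨l, hl.trans hmn, h2⟩

/-- Proof. The ball is finite and contains `1`. -/
theorem gr_pos (o : X) {A : Set (Equiv.Perm X)} (hA : A.Finite) (n : ℕ) : 1 ≤ gr (SW o A) n := by
  have h1 : gr (SW o A) n = {h | Wd (SW o A) n h}.ncard := by
    unfold gr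
    exact Nat.card_coe_set_eq _
  rw [h1]
  apply (Set.ncard_pos (LampSum_ball o hA n n le_rfl).1).2
  exact ⟨1, [], by simp, by simp, by simp⟩

end Gri98
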