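import Mathlib

/-!
# MP_afafb9_al: permutational wreath products `ℤ wr_X Γ`: definitions

`Γ` is generated by a set `A` of permutations of `X`; the wreath product acts on `X × ℤ`.
-/

set_option autoImplicit false

open scoped Classical

namespace Gri98

/-- `g` is a product of at most `n` elements of `T` and their inverses -/
def Wd {H : Type*} [Group H] (T : Set H) (n : ℕ) (g : H) : Prop :=
  ∃ l : List H, l.length ≤ n ∧ (∀ x ∈ l, x ∈ T ∨ x⁻¹ ∈ T) ∧ l.prod = g

/-- the growth function of the subgroup generated by `T` -/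
noncomputable def gr {H : Type*} [Group H] (T : Set H) (n : ℕ) : ℕ := Nat.card {g : H // Wd T n g}

variable {X : Type*}

/-- the sites of a word: the images of `o` under its beginnings -/
noncomputable def orbL (o : X) : List (Equiv.Perm X) → Finset X
  | [] => {o}
  | s :: w => insert o ((orbL o w).image s)

/-- `σ` is a product of at most `m` letters and `R` is a set of sites of this word -/
def Rp (o : X) (A : Set (Equiv.Perm X)) (m : ℕ) (σ : Equiv.Perm X) (R : Finset X) : Prop :=
  ∃ w : List (Equiv.Perm X), w.length ≤ m ∧ (∀ s ∈ w, s ∈ A ∨ s⁻¹ ∈ A) ∧ w.prod = σ ∧ R ⊆ orbL o w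

/-- the pairs `(σ, R)` -/
def Cls (o : X) (A : Set (Equiv.Perm X)) (m : ℕ) : Set (Equiv.Perm X × Finset X) :=
  {p | Rp o A m p.1 p.2}

/-- the inverted orbit growth: the largest number of sites of a word of length at most `m` -/
noncomputable def dA (o : X) (A : Set (Equiv.Perm X)) (m : ℕ) : ℕ :=
  sSup {k | ∃ (σ : Equiv.Perm X) (R : Finset X), Rp o A m σ R ∧ R.card = k}

/-- the element `(σ, U)` of the wreath product, as a permutation of `X × ℤ` -/
def El (σ : Equiv.Perm X) (U : X →₀ ℤ) : Equiv.Perm (X × ℤ) where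
  toFun p := (σ p.1, p.2 + U (σ p.1))
  invFun p := (σ.symm p.1, p.2 - U p.1)
  left_inv p := by simp
  right_inv p := by simp

/-- the generator `z`: it adds `1` to the lamp at `o` -/
noncomputable def zz (o : X) : Equiv.Perm (X × ℤ) := El 1 (Finsupp.single o 1)

/-- the generators of the wreath product: `A` and `z` -/
def SW (o : X) (A : Set (Equiv.Perm X)) : Set (Equiv.Perm (X × ℤ)) :=
  (fun σ => El σ 0) '' A ∪ {zz o}

/-- the `ℓ¹`-norm -/
def nm (U : X →₀ ℤ) : ℕ := U.sum fun _ k => k.natAbs

end Gri98
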