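import Pool.Agent.W_afafb9_h98.Base
import Pool.Agent.W_afafb9_h98.LDef

/-!
# The group `Γ_ω` and its generating sets
-/

set_option autoImplicit false

namespace Gri98

open scoped Classical

/-- `a` as a permutation -/
def aP : Equiv.Perm Om := ⟨aF, aF, aF_aF, aF_aF⟩

/-- `b`, `c`, `d` as permutations -/
def bP (ω : ℕ → Bt) (hω : Ok ω) (β : Bt) : Equiv.Perm Om := ⟨bF ω β, bF ω β, bF_bF hω β, bF_bF hω β⟩

/-- the standard generators -/
def stdS (ω : ℕ → Bt) (hω : Ok ω) : Set (Equiv.Perm Om) := {aP, bP ω hω .b, bP ω hω .c, bP ω hω .d}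

/-- the Grigorchuk group `Γ_ω = ⟨a, b, c, d⟩` -/
def Gam (ω : ℕ → Bt) (hω : Ok ω) : Subgroup (Equiv.Perm Om) := Subgroup.closure (stdS ω hω)

theorem wordsA_bmem {ω : ℕ → Bt} (hω : Ok ω) {γ : Bt} (h : γ ≠ .e) : bP ω hω γ ∈ stdS ω hω := by
  cases γ
  · exact absurd rfl h
  · exact Or.inr (Or.inl rfl)
  · exact Or.inr (Or.inr (Or.inl rfl))
  · exact Or.inr (Or.inr (Or.inr rfl))

theorem wordsA_cases {ω : ℕ → Bt} (hω : Ok ω) {s : Equiv.Perm Om} (h : s ∈ stdS ω hω) :
    s = aP ∨ ∃ β : Bt, s = bP ω hω β := by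
  rcases h with h | h | h | h
  · exact Or.inl h
  · exact Or.inr ⟨.b, h⟩
  · exact Or.inr ⟨.c, h⟩
  · exact Or.inr ⟨.d, h⟩

theorem wordsA_cases' {ω : ℕ → Bt} (hω : Ok ω) {s : Equiv.Perm Om}
    (h : s ∈ stdS ω hω ∨ s⁻¹ ∈ stdS ω hω) : s = aP ∨ ∃ β : Bt, s = bP ω hω β := by
  rcases h with h | h
  · exact wordsA_cases hω h
  · rcases wordsA_cases hω h with h | ⟨β, h⟩
    · left
      rw [← inv_inv s, h]
      rfl
    · right
      refine ⟨β, ?_⟩
      rw [← inv_inv s, h]
      rfl

/-- From standard words to words `γ a δ₁ a …`.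

Proof. Induction on `w`, with `(γ, l) ↦ (e, γ :: l)` for the letter `aP` and `(γ, l) ↦ (β * γ, l)` for the letter
`bP β`; the inverse of a letter is the letter itself. `ev_mul`, `orb_mul`, `bF_e`, `bF_x0`. -/
theorem conv1 {ω : ℕ → Bt} (hω : Ok ω) (w : List (Equiv.Perm Om))
    (hw : ∀ s ∈ w, s ∈ stdS ω hω ∨ s⁻¹ ∈ stdS ω hω) :
    ∃ (γ : Bt) (l : List Bt), l.length ≤ w.length ∧ ev ω γ l = ⇑w.prod ∧ orbL x0 w ⊆ orb ω γ l := by
  induction w with
  | nil =>
    refine ⟨.e, [], le_refl _, ?_, ?_⟩
    · funext x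
      exact bF_e ω x
    · intro x hx
      exact hx
  | cons s w ih =>
    obtain ⟨γ, l, hl, hev, horb⟩ := ih fun t ht => hw t (List.mem_cons_of_mem _ ht)
    rcases wordsA_cases' hω (hw s List.mem_cons_self) with rfl | ⟨β, rfl⟩
    · refine ⟨.e, γ :: l, ?_, ?_, ?_⟩
      · simp only [List.length_cons]
        omega
      · funext x
        rw [ev_cons, bF_e, hev, List.prod_cons]
        rfl
      · intro x hx
        simp only [orbL, Finset.mem_insert, Finset.mem_image] at hx
        rw [mem_orb_cons]
        rcases hx with h | ⟨z, hz, h⟩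
        · exact Or.inl h
        · refine Or.inr ⟨z, horb hz, ?_⟩
          rw [bF_e]
          exact h
    · refine ⟨β * γ, l, ?_, ?_, ?_⟩
      · simp only [List.length_cons]
        omega
      · funext x
        rw [ev_mul hω, hev, List.prod_cons]
        rfl
      · intro x hx
        simp only [orbL, Finset.mem_insert, Finset.mem_image] at hx
        rcases hx with h | ⟨z, hz, h⟩
        · rw [h]
          exact x0_mem_orb ω _ l
        · rw [orb_mul hω]
          exact ⟨z, horb hz, h⟩

/-- From words `γ a δ₁ a …` to standard words.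

Proof. Induction on `l`: `γ` followed by `a` followed by the word of `(δ, l)`, where `γ = e` is omitted. -/
theorem conv2 {ω : ℕ → Bt} (hω : Ok ω) (γ : Bt) (l : List Bt) :
    ∃ w : List (Equiv.Perm Om), w.length ≤ 2 * l.length + 1 ∧ (∀ s ∈ w, s ∈ stdS ω hω) ∧
      ⇑w.prod = ev ω γ l ∧ orb ω γ l ⊆ orbL x0 w := by
  induction l generalizing γ with
  | nil =>
    by_cases h : γ = .e
    · subst h
      refine ⟨[], ?_, ?_, ?_, ?_⟩
      · simp
      · intro s hs
        simp at hs
      · funext x
        exact (bF_e ω x).symm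
      · intro x hx
        exact hx
    · refine ⟨[bP ω hω γ], ?_, ?_, ?_, ?_⟩
      · simp
      · intro s hs
        rw [List.mem_singleton] at hs
        rw [hs]
        exact wordsA_bmem hω h
      · rw [List.prod_singleton]
        rfl
      · intro x hx
        simp only [orb, Finset.mem_singleton] at hx
        simp only [orbL, Finset.mem_insert]
        exact Or.inl hx
  | cons δ l ih =>
    obtain ⟨w, hlen, hmem, hprod, horb⟩ := ih δ
    by_cases h : γ = .e
    · subst h
      refine ⟨aP :: w, ?_, ?_, ?_, ?_⟩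
      · simp only [List.length_cons]
        omega
      · intro s hs
        rcases List.mem_cons.1 hs with hs | hs
        · rw [hs]
          exact Or.inl rfl
        · exact hmem s hs
      · funext x
        rw [ev_cons, bF_e, ← hprod, List.prod_cons]
        rfl
      · intro x hx
        rw [mem_orb_cons] at hx
        simp only [orbL, Finset.mem_insert, Finset.mem_image]
        rcases hx with hx | ⟨z, hz, hx⟩
        · exact Or.inl hx
        · refine Or.inr ⟨z, horb hz, ?_⟩
          rw [bF_e] at hx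
          exact hx
    · refine ⟨bP ω hω γ :: aP :: w, ?_, ?_, ?_, ?_⟩
      · simp only [List.length_cons]
        omega
      · intro s hs
        rcases List.mem_cons.1 hs with hs | hs
        · rw [hs]
          exact wordsA_bmem hω h
        · rcases List.mem_cons.1 hs with hs | hs
          · rw [hs]
            exact Or.inl rfl
          · exact hmem s hs
      · funext x
        rw [ev_cons, ← hprod, List.prod_cons, List.prod_cons]
        rfl
      · intro x hx
        rw [mem_orb_cons] at hx
        simp only [orbL, Finset.mem_insert, Finset.mem_image]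
        rcases hx with hx | ⟨z, hz, hx⟩
        · exact Or.inl hx
        · refine Or.inr ⟨aF z, Or.inr ⟨z, horb hz, rfl⟩, hx⟩

end Gri98
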