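import Pool.Agent.W_afafb9_h98.Slow
import Pool.Agent.W_afafb9_h98.LampSum
import Pool.Agent.W_afafb9_h98.WordsA

/-!
# Wreath products of large subexponential growth

(`Slow`, `LampSum`, `WordsA` are stubs being proved by others; use their statements.)
-/

set_option autoImplicit false

namespace Gri98

open Filter Topology
open scoped Classical

theorem Big_choose (r : ℕ) : 2 ^ r ≤ (2 * r).choose r := by
  have h : ∀ r : ℕ, 2 ^ r ≤ Nat.centralBinom r := by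
    intro r
    induction r with
    | zero => simp
    | succ r ih =>
      have h1 := Nat.succ_mul_centralBinom_succ r
      have h2 : (r + 1) * (2 * Nat.centralBinom r) ≤ (r + 1) * Nat.centralBinom (r + 1) := by
        rw [h1]
        have h3 : (r + 1) * (2 * Nat.centralBinom r) = 2 * (r + 1) * Nat.centralBinom r := by ring
        rw [h3]
        exact Nat.mul_le_mul_right _ (by omega)
      have h4 := Nat.le_of_mul_le_mul_left h2 (Nat.succ_pos r)
      rw [pow_succ]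
      omega
  exact h r

theorem Big_ev {g : ℕ → ℕ} (hg : Tendsto (fun n : ℕ => (g n : ℝ) ^ ((1 : ℝ) / (n : ℝ))) atTop (𝓝 1))
    (A : ℕ) : ∃ N, ∀ n, N ≤ n → g n ^ (8 * A) ≤ 2 ^ n := by
  have h1 : Tendsto (fun n : ℕ => ((g n : ℝ) ^ ((1 : ℝ) / (n : ℝ))) ^ (8 * A)) atTop (𝓝 1) := by
    have := hg.pow (8 * A)
    rwa [one_pow] at this
  obtain ⟨N, hN⟩ := Filter.eventually_atTop.1
    ((h1.eventually (gt_mem_nhds (show (1 : ℝ) < 2 by norm_num))).and (Filter.eventually_ge_atTop 1))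
  refine ⟨N, fun n hn => ?_⟩
  obtain ⟨h2, h3⟩ := hN n hn
  have h4 : ((g n : ℝ) ^ ((1 : ℝ) / (n : ℝ))) ^ n = g n := by
    rw [one_div]
    exact Real.rpow_inv_natCast_pow (Nat.cast_nonneg _) (by omega)
  have h5 : ((g n : ℝ)) ^ (8 * A) ≤ 2 ^ n := by
    calc ((g n : ℝ)) ^ (8 * A) = (((g n : ℝ) ^ ((1 : ℝ) / (n : ℝ))) ^ n) ^ (8 * A) := by rw [h4]
      _ = (((g n : ℝ) ^ ((1 : ℝ) / (n : ℝ))) ^ (8 * A)) ^ n := by
        rw [← pow_mul, ← pow_mul, mul_comm]
      _ ≤ 2 ^ n := pow_le_pow_left₀ (by positivity) h2.le n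
  exact_mod_cast h5

/-- the largest exponent -/
noncomputable def Big_phi (g : ℕ → ℕ) (k : ℕ) : ℕ :=
  Nat.findGreatest (fun A => ∀ n, k ≤ n → g n ^ (8 * A) ≤ 2 ^ n) k

theorem Big_phi_spec (g : ℕ → ℕ) (k n : ℕ) (h : k ≤ n) : g n ^ (8 * Big_phi g k) ≤ 2 ^ n := by
  have h0 : ∀ n, k ≤ n → g n ^ (8 * 0) ≤ 2 ^ n := fun n _ => by
    rw [mul_zero, pow_zero]
    exact Nat.one_le_two_pow
  exact Nat.findGreatest_spec (P := fun A => ∀ n, k ≤ n → g n ^ (8 * A) ≤ 2 ^ n) (Nat.zero_le k)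
    h0 n h

theorem Big_phi_tendsto {g : ℕ → ℕ}
    (hg : Tendsto (fun n : ℕ => (g n : ℝ) ^ ((1 : ℝ) / (n : ℝ))) atTop (𝓝 1)) :
    Tendsto (Big_phi g) atTop atTop := by
  rw [Filter.tendsto_atTop]
  intro A
  obtain ⟨N, hN⟩ := Big_ev hg A
  filter_upwards [Filter.eventually_ge_atTop (max N A)] with k hk
  exact Nat.le_findGreatest (le_trans (le_max_right _ _) hk)
    fun n hn => hN n (le_trans (le_trans (le_max_left _ _) hk) hn)

/-- A lower bound for the growth function.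

Proof. Let `r = Dl ω k`, `(orb ω γ l).card = r`, `l.length ≤ k` (`dl_exists`), `r ≤ k + 1` (`dl_le_succ`). By `conv2` there is a
standard word `w` of length at most `2 k + 1` with `orb ω γ l ⊆ orbL x0 w`, so `Rp x0 (stdS ω hω) (2 k + 1) w.prod (orb ω γ l)`. By
`gr_lower` `gr (SW x0 (stdS ω hω)) n ≥ (n - (2 k + 1)).choose r`, and `n - (2 k + 1) ≥ 2 r`, so this is at least
`(2 * r).choose r ≥ 2 ^ r` (e.g. `Nat.centralBinom`, `Nat.four_pow_le_two_mul_self_mul_centralBinom`, or a direct induction). -/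
theorem big_lower {ω : ℕ → Bt} (hω : Ok ω) (k n : ℕ) (h : 4 * k + 3 ≤ n) :
    2 ^ Dl ω k ≤ gr (SW x0 (stdS ω hω)) n := by
  obtain ⟨γ, l, h1, h2⟩ := dl_exists ω k
  obtain ⟨w, h3, h4, h5, h6⟩ := conv2 hω γ l
  have hfin : (stdS ω hω).Finite := by
    unfold stdS
    exact Set.toFinite _
  have hR : Rp x0 (stdS ω hω) (2 * k + 1) w.prod (orb ω γ l) :=
    ⟨w, by omega, fun s hs => Or.inl (h4 s hs), rfl, h6⟩
  have h7 := gr_lower x0 hfin hR (show 2 * k + 1 ≤ n by omega)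
  rw [h2] at h7
  have h8 := dl_le_succ ω k
  refine le_trans (le_trans (Big_choose (Dl ω k)) ?_) h7
  exact Nat.choose_le_choose _ (by omega)

/-- For every subexponential function there is a larger growth function in the family.

Proof. Let `h n = sup` over `m ≥ n` of `log₂ (g m + 1) / m`: `h → 0` (`hg`; `g m ^ (1/m) → 1` gives that
`limsup log (g m + 1) / m ≤ 0`). Choose `φ : ℕ → ℕ`, `φ → ∞`, with `log₂ (g n + 1) * 8 * φ k ≤ n` for all large `k` and all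
`n ≥ 4 k + 3` (e.g. `φ k = ⌊1 / (8 * h k)⌋` if `h k > 0` and `k` else; in words: for every `A` the inequality
`8 * A * log₂ (g n + 1) ≤ n` holds for all `n ≥ N_A`; let `φ k` be the largest `A ≤ k` such that it holds for all `n ≥ k`
(`A = 0` is always possible)). Take `ω` by `slow`. For large `n` let `k = (n - 3) / 4` (natural division), so
`4 k + 3 ≤ n` and `n ≤ 8 * k`, `k ≤ Dl ω k * φ k`. If `g n > 0` then
`log₂ (g n) * 8 * φ k ≤ n ≤ 8 * k ≤ 8 * Dl ω k * φ k`, so `g n ≤ 2 ^ Dl ω k ≤ gr … n` by `big_lower`. -/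
theorem big {g : ℕ → ℕ} (hg : Tendsto (fun n : ℕ => (g n : ℝ) ^ ((1 : ℝ) / (n : ℝ))) atTop (𝓝 1)) :
    ∃ (ω : ℕ → Bt) (hω : Ok ω), (∀ s : Bt, s ≠ .e → ∀ n, ∃ m ≥ n, ω m = s) ∧
      ∀ᶠ n in atTop, g n ≤ gr (SW x0 (stdS ω hω)) n := by
  have hφ := Big_phi_tendsto hg
  obtain ⟨ω, hω, h1, h2⟩ := slow hφ
  refine ⟨ω, hω, h1, ?_⟩
  have h3 : ∀ᶠ k in atTop, k ≤ Dl ω k * Big_phi g k ∧ 1 ≤ Big_phi g k :=
    h2.and (hφ.eventually (Filter.eventually_ge_atTop 1))
  obtain ⟨K, hK⟩ := Filter.eventually_atTop.1 h3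
  filter_upwards [Filter.eventually_ge_atTop (4 * K + 11)] with n hn
  have hk1 : 4 * ((n - 3) / 4) + 3 ≤ n := by omega
  have hk2 : n ≤ 8 * ((n - 3) / 4) := by omega
  have hk3 : K ≤ (n - 3) / 4 := by omega
  obtain ⟨h4, h5⟩ := hK _ hk3
  have h6 := Big_phi_spec g ((n - 3) / 4) n (by omega)
  refine le_trans ?_ (big_lower hω _ n hk1)
  generalize (n - 3) / 4 = k at *
  have h7 : g n ^ (8 * Big_phi g k) ≤ (2 ^ Dl ω k) ^ (8 * Big_phi g k) := by
    refine le_trans h6 ?_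
    rw [← pow_mul]
    apply Nat.pow_le_pow_right (by norm_num)
    calc n ≤ 8 * k := hk2
      _ ≤ 8 * (Dl ω k * Big_phi g k) := Nat.mul_le_mul_left _ h4
      _ = Dl ω k * (8 * Big_phi g k) := by ring
  exact (Nat.pow_le_pow_iff_left (by omega)).1 h7

end Gri98
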