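import Pool.Agent.W_afafb9_h98.LDef

/-!
# The inverted orbit growth
-/

set_option autoImplicit false

namespace Gri98

open scoped Classical

variable {X : Type*}

/-- Proof. Induction on `w`, `Finset.card_insert_le`, `Finset.card_image_le`. -/
theorem card_orbL_le (o : X) (w : List (Equiv.Perm X)) : (orbL o w).card ≤ w.length + 1 := by
  induction w with
  | nil => simp [orbL]
  | cons s w ih =>
    rw [orbL, List.length_cons]
    refine (Finset.card_insert_le _ _).trans ?_
    have := Finset.card_image_le (s := orbL o w) (f := (s : X → X))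
    omega

/-- Proof. `o ∈ orbL o w`. -/
theorem mem_orbL (o : X) (w : List (Equiv.Perm X)) : o ∈ orbL o w := by
  cases w with
  | nil => simp [orbL]
  | cons s w => rw [orbL]; exact Finset.mem_insert_self _ _

/-- The sites of a product. Proof. Induction on `w`. -/
theorem orbL_append (o : X) (w v : List (Equiv.Perm X)) :
    orbL o (w ++ v) = orbL o w ∪ (orbL o v).image w.prod := by
  induction w with
  | nil =>
    ext x
    have h : (orbL o ([] : List (Equiv.Perm X))) = {o} := rfl
    simp only [List.nil_append, h, List.prod_nil, Finset.mem_union, Finset.mem_singleton,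
      Finset.mem_image, Equiv.Perm.coe_one, id_eq, exists_eq_right]
    constructor
    · exact fun hx => Or.inr hx
    · rintro (rfl | hx)
      · exact mem_orbL _ _
      · exact hx
  | cons s w ih =>
    rw [List.cons_append, orbL, ih, orbL, List.prod_cons, Finset.image_union, Finset.image_image,
      Equiv.Perm.coe_mul, Finset.insert_union]

theorem DaBase_bdd (o : X) (A : Set (Equiv.Perm X)) (m : ℕ) :
    BddAbove {k | ∃ (σ : Equiv.Perm X) (R : Finset X), Rp o A m σ R ∧ R.card = k} := by
  refine ⟨m + 1, ?_⟩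
  rintro k ⟨σ, R, ⟨w, hw, -, -, hR⟩, rfl⟩
  have h1 := Finset.card_le_card hR
  have h2 := card_orbL_le o w
  omega

/-- Proof. `R ⊆ orbL o w`, `card_orbL_le`; `le_csSup`. -/
theorem card_le_dA {o : X} {A : Set (Equiv.Perm X)} {m : ℕ} {σ : Equiv.Perm X} {R : Finset X}
    (h : Rp o A m σ R) : R.card ≤ dA o A m :=
  le_csSup (DaBase_bdd o A m) ⟨σ, R, h, rfl⟩

theorem DaBase_one (o : X) (A : Set (Equiv.Perm X)) (m : ℕ) : Rp o A m 1 {o} :=
  ⟨[], by simp, by simp, by simp, by simp [orbL]⟩

/-- Proof. The set in the definition is not empty (`w = []`, `R = {o}`) and bounded by `m + 1`;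
`Nat.sSup_mem`. -/
theorem dA_exists (o : X) (A : Set (Equiv.Perm X)) (m : ℕ) :
    ∃ (σ : Equiv.Perm X) (R : Finset X), Rp o A m σ R ∧ R.card = dA o A m :=
  Nat.sSup_mem (s := {k | ∃ (σ : Equiv.Perm X) (R : Finset X), Rp o A m σ R ∧ R.card = k})
    ⟨1, 1, {o}, DaBase_one o A m, by simp⟩ (DaBase_bdd o A m)

theorem dA_mono (o : X) (A : Set (Equiv.Perm X)) : Monotone (dA o A) := by
  intro m n hmn
  obtain ⟨σ, R, ⟨w, hw, h1, h2, h3⟩, hc⟩ := dA_exists o A m
  rw [← hc]
  exact card_le_dA (σ := σ) ⟨w, hw.trans hmn, h1, h2, h3⟩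

/-- Proof. `R = {o}`, `w = []`. -/
theorem one_le_dA (o : X) (A : Set (Equiv.Perm X)) (m : ℕ) : 1 ≤ dA o A m := by
  simpa using card_le_dA (DaBase_one o A m)

/-- Proof. Take `σ, R, w` for `dA o A (m + n)`, `R ⊆ orbL o w`, `w.length ≤ m + n`. Split `w = u ++ v`,
`u = w.take m`, `v = w.drop m`, `u.length ≤ m`, `v.length ≤ n`. By `orbL_append`
`R.card ≤ (orbL o w).card ≤ (orbL o u).card + (orbL o v).card` and the pairs `(u.prod, orbL o u)` and
`(v.prod, orbL o v)` are in `Rp`. -/
theorem dA_add (o : X) (A : Set (Equiv.Perm X)) (m n : ℕ) : dA o A (m + n) ≤ dA o A m + dA o A n := by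
  obtain ⟨σ, R, ⟨w, hw, h1, h2, h3⟩, hc⟩ := dA_exists o A (m + n)
  rw [← hc]
  have hu : Rp o A m (w.take m).prod (orbL o (w.take m)) :=
    ⟨w.take m, List.length_take_le _ _, fun s hs => h1 s (List.mem_of_mem_take hs), rfl,
      Finset.Subset.refl _⟩
  have hv : Rp o A n (w.drop m).prod (orbL o (w.drop m)) :=
    ⟨w.drop m, by rw [List.length_drop]; omega, fun s hs => h1 s (List.mem_of_mem_drop hs), rfl,
      Finset.Subset.refl _⟩
  have e : orbL o w = orbL o (w.take m) ∪ (orbL o (w.drop m)).image (w.take m).prod := by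
    rw [← orbL_append, List.take_append_drop]
  calc R.card ≤ (orbL o w).card := Finset.card_le_card h3
    _ ≤ (orbL o (w.take m)).card + ((orbL o (w.drop m)).image (w.take m).prod).card := by
        rw [e]; exact Finset.card_union_le _ _
    _ ≤ (orbL o (w.take m)).card + (orbL o (w.drop m)).card :=
        Nat.add_le_add_left Finset.card_image_le _
    _ ≤ dA o A m + dA o A n := Nat.add_le_add (card_le_dA hu) (card_le_dA hv)

end Gri98
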