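import Pool.Agent.W_afafb9_h98.LampSum
import Pool.Agent.W_afafb9_h98.DaBase
import Pool.Agent.W_afafb9_h98.Asym

/-!
# The criterion
-/

set_option autoImplicit false

namespace Gri98

open Filter Topology
open scoped Classical

variable {X : Type*}

/-- the criterion for the growth function of the wreath product -/
theorem crit (o : X) {A : Set (Equiv.Perm X)} (hA : A.Finite) {K₀ : ℕ}
    (hlin : ∀ q : ℕ, ∃ C : ℕ, ∀ n, q * dA o A n ≤ n + C) (hunb : ∀ M, ∃ n, M ≤ dA o A n)
    (hN : ∀ n, (Cls o A n).ncard ≤ K₀ ^ dA o A n) :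
    Tendsto (fun n : ℕ => (gr (SW o A) (n + 1) : ℝ) / (gr (SW o A) n : ℝ)) atTop (𝓝 1) ∧
    Tendsto (fun n : ℕ => (gr (SW o A) n : ℝ) ^ ((1 : ℝ) / (n : ℝ))) atTop (𝓝 1) ∧
    ∀ d : ℕ, Tendsto (fun n : ℕ => (gr (SW o A) n : ℝ) / (n : ℝ) ^ d) atTop atTop := by
  refine asym (D := dA o A) (N := fun n => (Cls o A n).ncard) (K₀ := K₀) (dA_mono o A) (dA_add o A) hlin
    hunb hN (gr_mono o hA) (gr_pos o hA) ?_ ?_
  · intro K n
    exact gr_step o hA K n _ (fun σ R h => card_le_dA h)
  · intro m n hmn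
    obtain ⟨σ, R, h, hR⟩ := dA_exists o A m
    rw [← hR]
    exact gr_lower o hA h hmn

/-- the growth function of the subgroup generated by a set -/
theorem gr_subgroup {H : Type*} [Group H] (T : Set H) (S : Finset (Subgroup.closure T))
    (hS : ∀ g : Subgroup.closure T, g ∈ S ↔ (g : H) ∈ T) (n : ℕ) :
    Nat.card {g : Subgroup.closure T // ∃ l : List (Subgroup.closure T), l.length ≤ n ∧
      (∀ x ∈ l, x ∈ S ∨ x⁻¹ ∈ S) ∧ l.prod = g} = gr T n := by
  unfold gr
  refine Nat.card_congr ⟨fun g => ⟨((g : Subgroup.closure T) : H), ?_⟩, fun h => ⟨⟨(h : H), ?_⟩, ?_⟩, ?_, ?_⟩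
  · obtain ⟨l, h1, h2, h3⟩ := g.2
    refine ⟨l.map (Subgroup.closure T).subtype, by simpa using h1, ?_, ?_⟩
    · intro x hx
      rw [List.mem_map] at hx
      obtain ⟨y, hy, rfl⟩ := hx
      rcases h2 y hy with h | h
      · exact Or.inl ((hS y).1 h)
      · right
        have := (hS y⁻¹).1 h
        simpa using this
    · rw [← map_list_prod, h3]
      rfl
  · obtain ⟨l, h1, h2, h3⟩ := h.2
    rw [← h3]
    refine Subgroup.list_prod_mem _ ?_
    intro x hx
    rcases h2 x hx with h | h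
    · exact Subgroup.subset_closure h
    · exact (Subgroup.inv_mem_iff _).1 (Subgroup.subset_closure h)
  · obtain ⟨l, h1, h2, h3⟩ := h.2
    have hl : ∀ x ∈ l, x ∈ Subgroup.closure T := by
      intro x hx
      rcases h2 x hx with h | h
      · exact Subgroup.subset_closure h
      · exact (Subgroup.inv_mem_iff _).1 (Subgroup.subset_closure h)
    refine ⟨l.attach.map fun x => ⟨x.1, hl x.1 x.2⟩, by simpa using h1, ?_, ?_⟩
    · intro x hx
      rw [List.mem_map] at hx
      obtain ⟨y, hy, rfl⟩ := hx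
      rcases h2 y.1 y.2 with h | h
      · exact Or.inl ((hS _).2 h)
      · exact Or.inr ((hS _).2 h)
    · apply Subtype.ext
      show ((Subgroup.closure T).subtype _) = _
      rw [map_list_prod, List.map_map]
      show (l.attach.map fun x => x.1).prod = _
      rw [List.attach_map_subtype_val]
      exact h3
  · intro g
    rfl
  · intro h
    rfl

end Gri98
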