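import Mathlib

/-!
# MP_afafb9_al: Grigorchuk groups, inverted orbits, lamps: definitions

`Om = {0,1}^ℕ` (`true = 1`), `x0 = 1^∞`.  `Bt = {1,b,c,d}` is the Klein four-group; for `ω : ℕ → Bt`
(values in `{b,c,d}`: `ω n` is the letter which is silent at level `n`) the permutation `bt ω β` of `Om` flips
the letter after the first `0` of `x`, if this `0` has number `n` and `β ≠ 1`, `β ≠ ω n`.
-/

set_option autoImplicit false

namespace Gri98

/-- infinite sequences of `0` and `1` -/
abbrev Om : Type := ℕ → Bool

/-- the sequence `i y` -/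
def cons (i : Bool) (y : Om) : Om := fun n => Nat.casesOn n i y

/-- the sequence without its first letter -/
def tl (x : Om) : Om := fun n => x (n + 1)

/-- the sequence `1^∞` -/
def x0 : Om := fun _ => true

/-- the Klein four-group `{1,b,c,d}` -/
inductive Bt | e | b | c | d
  deriving DecidableEq

instance : Fintype Bt := ⟨{.e, .b, .c, .d}, by intro x; cases x <;> simp⟩

namespace Bt

/-- the multiplication of the Klein four-group -/
def mul : Bt → Bt → Bt
  | e, y => y
  | x, e => x
  | b, b => e
  | b, c => d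
  | b, d => c
  | c, b => d
  | c, c => e
  | c, d => b
  | d, b => c
  | d, c => b
  | d, d => e

instance : Mul Bt := ⟨mul⟩

end Bt

/-- the letter `β` is not silent, if `s` is the silent letter -/
def ns (s β : Bt) : Prop := β ≠ .e ∧ β ≠ s

instance (s β : Bt) : Decidable (ns s β) := inferInstanceAs (Decidable (β ≠ .e ∧ β ≠ s))

open scoped Classical

/-- the map `a` flips the first letter -/
def aF (x : Om) : Om := cons (!x 0) (tl x)

/-- the map `β` for the sequence `ω` of silent letters -/
def bF (ω : ℕ → Bt) (β : Bt) (x : Om) : Om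
  | 0 => x 0
  | n + 1 => if (∀ i < n, x i = true) ∧ x n = false ∧ ns (ω n) β then !x (n + 1) else x (n + 1)

/-- the shifted sequence -/
def sh (ω : ℕ → Bt) : ℕ → Bt := fun n => ω (n + 1)

/-- all values are letters `b`, `c`, `d` -/
def Ok (ω : ℕ → Bt) : Prop := ∀ n, ω n ≠ .e

/-! ### words `γ a δ₁ a δ₂ ... a δ_k` -/

/-- the map of the word `γ a δ₁ a δ₂ ... a δ_k` -/
def ev (ω : ℕ → Bt) : Bt → List Bt → Om → Om
  | γ, [], x => bF ω γ x
  | γ, δ :: l, x => bF ω γ (aF (ev ω δ l x))

/-- the sites of the word: the images of `x0` under the beginnings `γ a δ₁ ... a δ_i`, `0 ≤ i ≤ k` -/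
noncomputable def orb (ω : ℕ → Bt) : Bt → List Bt → Finset Om
  | _, [] => {x0}
  | γ, δ :: l => insert x0 ((orb ω δ l).image fun x => bF ω γ (aF x))

/-- the sites with numbers `0 ≤ i < k` -/
noncomputable def orbm (ω : ℕ → Bt) : Bt → List Bt → Finset Om
  | _, [] => ∅
  | γ, δ :: l => insert x0 ((orbm ω δ l).image fun x => bF ω γ (aF x))

/-- the sites with numbers `1 ≤ i < k` -/
noncomputable def inn (ω : ℕ → Bt) : Bt → List Bt → Finset Om
  | _, [] => ∅
  | γ, δ :: l => (orbm ω δ l).image fun x => bF ω γ (aF x)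

/-- the action of one letter on the section: at the state `true` the letter `γ` itself, at the state
`false` the rooted letter `a` if `γ` is not silent -/
def letter (s : Bt) (y : Bool) (γ : Bt) (t : Bt × List Bt) : Bt × List Bt :=
  if y then (γ * t.1, t.2) else if ns s γ then (.e, t.1 :: t.2) else t

/-- the section of the word at the vertex `y` (of the image) -/
def sec (s : Bt) : Bool → Bt → List Bt → Bt × List Bt
  | y, γ, [] => letter s y γ (.e, [])
  | y, γ, δ :: l => letter s y γ (sec s (!y) δ l)

/-- the parity of the number of letters `a` -/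
def par : List Bt → Bool
  | [] => false
  | _ :: l => !par l

/-- the same notions for pairs `(γ, l)` -/
def evP (ω : ℕ → Bt) (t : Bt × List Bt) : Om → Om := ev ω t.1 t.2

/-- the sites of a pair -/
noncomputable def orbP (ω : ℕ → Bt) (t : Bt × List Bt) : Finset Om := orb ω t.1 t.2

/-- `orbm` of a pair -/
noncomputable def orbmP (ω : ℕ → Bt) (t : Bt × List Bt) : Finset Om := orbm ω t.1 t.2

/-- `inn` of a pair -/
noncomputable def innP (ω : ℕ → Bt) (t : Bt × List Bt) : Finset Om := inn ω t.1 t.2

/-- the largest number of sites of a word with at most `n` letters `a` -/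
noncomputable def Dl (ω : ℕ → Bt) (n : ℕ) : ℕ :=
  sSup {m | ∃ (γ : Bt) (l : List Bt), l.length ≤ n ∧ (orb ω γ l).card = m}

/-- the pairs `(g, R)`: `g` is the map of a word with at most `n` letters `a` and `R` a set of sites
of this word -/
def Prs (ω : ℕ → Bt) (n : ℕ) : Set ((Om → Om) × Finset Om) :=
  {p | ∃ (γ : Bt) (l : List Bt), l.length ≤ n ∧ ev ω γ l = p.1 ∧ p.2 ⊆ orb ω γ l}

end Gri98
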