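import Pool.Agent.W_afafb9_h98.LampBall

/-!
# The elements of the wreath product
-/

set_option autoImplicit false

namespace Gri98

open scoped Classical

variable {X : Type*}

theorem descr_one : El (1 : Equiv.Perm X) 0 = 1 := by
  ext p <;> simp [El]

theorem descr_lift (o : X) {A : Set (Equiv.Perm X)} {σ : Equiv.Perm X} (h : σ ∈ Subgroup.closure A) :
    El σ 0 ∈ Subgroup.closure (SW o A) := by
  induction h using Subgroup.closure_induction with
  | mem s hs => exact Subgroup.subset_closure (Or.inl ⟨s, hs, rfl⟩)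
  | one => rw [descr_one]; exact Subgroup.one_mem _
  | mul s t _ _ hs ht =>
    have : El (s * t) 0 = El s 0 * El t 0 := by rw [el_mul]; simp
    rw [this]
    exact Subgroup.mul_mem _ hs ht
  | inv s _ hs =>
    have : El s⁻¹ 0 = (El s 0)⁻¹ := by
      rw [eq_inv_iff_mul_eq_one, el_mul]
      simp [descr_one]
    rw [this]
    exact Subgroup.inv_mem _ hs

theorem descr_zpow (o : X) (k : ℤ) : (zz o) ^ k = El 1 (Finsupp.single o k) := by
  have h1 : ∀ a b : ℤ, El (1 : Equiv.Perm X) (Finsupp.single o (a + b)) =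
      El 1 (Finsupp.single o a) * El 1 (Finsupp.single o b) := by
    intro a b
    rw [el_mul, one_mul, Finsupp.mapDomain_single, Equiv.Perm.one_apply, ← Finsupp.single_add]
  induction k using Int.induction_on with
  | zero => rw [zpow_zero, Finsupp.single_zero, descr_one]
  | succ n ih =>
    rw [zpow_add_one, ih, h1]
    rfl
  | pred n ih =>
    have h2 := h1 (-(n : ℤ) - 1) 1
    rw [sub_add_cancel, ← ih] at h2
    have h3 : El 1 (Finsupp.single o (1 : ℤ)) = zz o := rfl
    rw [h3] at h2
    rw [zpow_sub_one, ← mul_inv_eq_iff_eq_mul.2 h2]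

theorem descr_single (o : X) {A : Set (Equiv.Perm X)} {x : X}
    (h : ∃ τ : Equiv.Perm X, τ ∈ Subgroup.closure A ∧ τ o = x) (k : ℤ) :
    El 1 (Finsupp.single x k) ∈ Subgroup.closure (SW o A) := by
  obtain ⟨τ, hτ, rfl⟩ := h
  have h1 : El 1 (Finsupp.single (τ o) k) = El τ 0 * (zz o) ^ k * El τ⁻¹ 0 := by
    rw [descr_zpow, el_mul, el_mul]
    simp
  rw [h1]
  refine Subgroup.mul_mem _ (Subgroup.mul_mem _ (descr_lift o hτ) ?_) (descr_lift o (Subgroup.inv_mem _ hτ))
  exact Subgroup.zpow_mem (Subgroup.closure (SW o A)) (Subgroup.subset_closure (Or.inr rfl)) k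

/-- the elements of the group generated by `SW o A` -/
theorem descr (o : X) (A : Set (Equiv.Perm X)) (h : Equiv.Perm (X × ℤ)) :
    h ∈ Subgroup.closure (SW o A) ↔ ∃ (σ : Equiv.Perm X) (U : X →₀ ℤ), σ ∈ Subgroup.closure A ∧
      (∀ x ∈ U.support, ∃ τ : Equiv.Perm X, τ ∈ Subgroup.closure A ∧ τ o = x) ∧ h = El σ U := by
  constructor
  · intro hh
    induction hh using Subgroup.closure_induction with
    | mem s hs =>
      rcases hs with ⟨σ, hσ, rfl⟩ | hs
      · exact ⟨σ, 0, Subgroup.subset_closure hσ, by simp, rfl⟩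
      · refine ⟨1, Finsupp.single o 1, Subgroup.one_mem _, ?_, hs⟩
        intro x hx
        have : x = o := by simpa using Finsupp.support_single_subset hx
        exact ⟨1, Subgroup.one_mem _, this.symm⟩
    | one => exact ⟨1, 0, Subgroup.one_mem _, by simp, descr_one.symm⟩
    | mul s t _ _ hs ht =>
      obtain ⟨σ, U, h1, h2, rfl⟩ := hs
      obtain ⟨τ, V, h3, h4, rfl⟩ := ht
      refine ⟨σ * τ, _, Subgroup.mul_mem _ h1 h3, ?_, el_mul _ _ _ _⟩
      intro x hx
      rcases Finset.mem_union.1 (Finsupp.support_add hx) with h | h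
      · exact h2 x h
      · obtain ⟨y, hy, rfl⟩ := Finset.mem_image.1 (Finsupp.mapDomain_support h)
        obtain ⟨ρ, hρ, rfl⟩ := h4 y hy
        exact ⟨σ * ρ, Subgroup.mul_mem _ h1 hρ, rfl⟩
    | inv s _ hs =>
      obtain ⟨σ, U, h1, h2, rfl⟩ := hs
      refine ⟨σ⁻¹, (-U).mapDomain ⇑(σ⁻¹), Subgroup.inv_mem _ h1, ?_, ?_⟩
      · intro x hx
        obtain ⟨y, hy, rfl⟩ := Finset.mem_image.1 (Finsupp.mapDomain_support hx)
        rw [Finsupp.support_neg] at hy
        obtain ⟨ρ, hρ, rfl⟩ := h2 y hy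
        exact ⟨σ⁻¹ * ρ, Subgroup.mul_mem _ (Subgroup.inv_mem _ h1) hρ, rfl⟩
      · rw [inv_eq_iff_mul_eq_one, el_mul, ← Finsupp.mapDomain_comp]
        have : (⇑σ ∘ ⇑(σ⁻¹) : X → X) = id := by
          funext x
          simp
        rw [this, Finsupp.mapDomain_id, add_neg_cancel, mul_inv_cancel, descr_one]
  · rintro ⟨σ, U, hσ, hU, rfl⟩
    have h1 : El σ U = El 1 U * El σ 0 := by rw [el_mul]; simp
    rw [h1]
    refine Subgroup.mul_mem _ ?_ (descr_lift o hσ)
    induction U using Finsupp.induction with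
    | zero => rw [descr_one]; exact Subgroup.one_mem _
    | single_add a b f ha hb ih =>
      have h2 : El (1 : Equiv.Perm X) (Finsupp.single a b + f) = El 1 (Finsupp.single a b) * El 1 f := by
        rw [el_mul]
        have : (⇑(1 : Equiv.Perm X) : X → X) = id := rfl
        rw [this, Finsupp.mapDomain_id, one_mul]
      have h3 : (Finsupp.single a b + f).support = insert a f.support := by
        rw [Finsupp.support_single_add ha hb]
        ext x
        simp
      rw [h2]
      refine Subgroup.mul_mem _ (descr_single o (hU a ?_) b) (ih ?_ ?_)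
      · rw [h3]; exact Finset.mem_insert_self _ _
      · intro x hx
        exact hU x (by rw [h3]; exact Finset.mem_insert_of_mem hx)
      · rw [el_mul]; simp

end Gri98
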