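import Mathlib

/-!
# Counting labelled binary trees
-/

set_option autoImplicit false

namespace Gri98

/-- binary trees with leaves labelled by `L` and inner nodes labelled by `Bool` -/
inductive Tr (L : Type) : Type
  | leaf (x : L) : Tr L
  | node (b : Bool) (s t : Tr L) : Tr L

/-- the number of leaves -/
def Tr.leaves {L : Type} : Tr L → ℕ
  | .leaf _ => 1
  | .node _ s t => s.leaves + t.leaves

/-- the code of a tree -/
def TrCount_enc {L : Type} : Tr L → List (L ⊕ Bool)
  | .leaf x => [Sum.inl x]
  | .node b s t => Sum.inr b :: (TrCount_enc s ++ TrCount_enc t)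

theorem TrCount_len {L : Type} (t : Tr L) : (TrCount_enc t).length + 1 = 2 * t.leaves := by
  induction t with
  | leaf x => simp [TrCount_enc, Tr.leaves]
  | node b s t hs ht =>
    simp only [TrCount_enc, Tr.leaves, List.length_cons, List.length_append]
    omega

theorem TrCount_dec {L : Type} (s : Tr L) : ∀ (t : Tr L) (u v : List (L ⊕ Bool)),
    TrCount_enc s ++ u = TrCount_enc t ++ v → s = t ∧ u = v := by
  induction s with
  | leaf x =>
    intro t u v h
    cases t with
    | leaf y =>
      simp only [TrCount_enc, List.cons_append, List.nil_append, List.cons.injEq, Sum.inl.injEq] at h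
      exact ⟨by rw [h.1], h.2⟩
    | node b s t =>
      simp [TrCount_enc] at h
  | node b s1 s2 h1 h2 =>
    intro t u v h
    cases t with
    | leaf y =>
      simp [TrCount_enc] at h
    | node c t1 t2 =>
      simp only [TrCount_enc, List.cons_append, List.cons.injEq, Sum.inr.injEq, List.append_assoc] at h
      obtain ⟨hb, h⟩ := h
      obtain ⟨e1, h⟩ := h1 _ _ _ h
      obtain ⟨e2, h⟩ := h2 _ _ _ h
      exact ⟨by rw [hb, e1, e2], h⟩

theorem TrCount_inj {L : Type} {s t : Tr L} (h : TrCount_enc s = TrCount_enc t) : s = t :=
  (TrCount_dec s t [] [] (by simpa using h)).1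

/-- Counting trees.

Proof. Encode a tree by a word over the alphabet `L ⊕ Bool`: `enc (leaf x) = [inl x]`,
`enc (node b s t) = inr b :: (enc s ++ enc t)`. By induction `(enc t).length + 1 = 2 * t.leaves`, and the code
is uniquely decodable: `enc s ++ u = enc t ++ v → s = t ∧ u = v` (induction on `s`, generalizing `t u v`). So `enc` is
injective on trees, and the map `t ↦ fun i : Fin (2 * N) => (enc t)[i]?` into `Fin (2 * N) → Option (L ⊕ Bool)`
is injective on the trees with at most `N` leaves (the length of `enc t` is at most `2 * N`). The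
cardinality of `Option (L ⊕ Bool)` is `Fintype.card L + 3`. -/
theorem tr_count {L : Type} [Fintype L] (N : ℕ) :
    {t : Tr L | t.leaves ≤ N}.Finite ∧ {t : Tr L | t.leaves ≤ N}.ncard ≤ (Fintype.card L + 3) ^ (2 * N) := by
  classical
  set F : Tr L → (Fin (2 * N) → Option (L ⊕ Bool)) := fun t i => (TrCount_enc t)[(i : ℕ)]? with hF
  have hinj : Set.InjOn F {t : Tr L | t.leaves ≤ N} := by
    intro s hs t ht h
    apply TrCount_inj
    apply List.ext_getElem?
    intro i
    have ls := TrCount_len s
    have lt := TrCount_len t
    simp only [Set.mem_setOf_eq] at hs ht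
    by_cases hi : i < 2 * N
    · exact congrFun h ⟨i, hi⟩
    · rw [List.getElem?_eq_none (by omega), List.getElem?_eq_none (by omega)]
  constructor
  · exact Set.Finite.of_finite_image (Set.toFinite _) hinj
  · rw [← Set.ncard_image_of_injOn hinj]
    calc (F '' {t : Tr L | t.leaves ≤ N}).ncard ≤ (Set.univ : Set (Fin (2 * N) → Option (L ⊕ Bool))).ncard :=
          Set.ncard_le_ncard (Set.subset_univ _) Set.finite_univ
      _ = (Fintype.card L + 3) ^ (2 * N) := by
          rw [Set.ncard_univ, Nat.card_eq_fintype_card]
          simp [Fintype.card_option, Fintype.card_sum, Fintype.card_bool]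

end Gri98
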