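import Pool.Agent.W_afafb9_h98.Sec
import Pool.Agent.W_afafb9_h98.TrCount

/-!
# Words with their sites are described by trees with few leaves

The trees are those of `TrCount`.
-/

set_option autoImplicit false

namespace Gri98

open scoped Classical

/-- the labels of the leaves: words with at most two letters `a` and sets of sites -/
abbrev Lab : Type := (Bt × Fin 3 × Bt × Bt) × Finset (Fin 3)

/-- the word of a label -/
def labw (u : Lab) : Bt × List Bt := (u.1.1, [u.1.2.2.1, u.1.2.2.2].take u.1.2.1)

/-- the list of the sites `q_0, q_1, …, q_k` of a word -/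
noncomputable def sites (ω : ℕ → Bt) : Bt → List Bt → List Om
  | _, [] => [x0]
  | γ, δ :: l => x0 :: (sites ω δ l).map fun x => bF ω γ (aF x)

/-- the set of sites of a label -/
noncomputable def labR (ω : ℕ → Bt) (u : Lab) : Finset Om :=
  ((Finset.univ : Finset (Fin 3)).filter fun i => i ∈ u.2).image
    fun i : Fin 3 => (sites ω (labw u).1 (labw u).2).getD (i : ℕ) x0

/-- the pair `(g, R)` of a tree: at a node with label `p` and subtrees `s` (for `false`) and `t` (for `true`)
`g (i y) = j (g_j y)` with `j = i + p`, and `R = 0 R_0 ∪ 1 R_1` -/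
noncomputable def val : (ℕ → Bt) → Tr Lab → (Om → Om) × Finset Om
  | ω, .leaf u => (ev ω (labw u).1 (labw u).2, labR ω u)
  | ω, .node p s t =>
    (fun x => cons (xor (x 0) p) ((if xor (x 0) p then (val (sh ω) t).1 else (val (sh ω) s).1) (tl x)),
      (val (sh ω) s).2.image (cons false) ∪ (val (sh ω) t).2.image (cons true))

theorem leaves_sites_length (ω : ℕ → Bt) (γ : Bt) (l : List Bt) : (sites ω γ l).length = l.length + 1 := by
  induction l generalizing γ with
  | nil => rfl
  | cons δ l ih => simp [sites, ih δ]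

theorem leaves_mem_sites (ω : ℕ → Bt) (γ : Bt) (l : List Bt) (x : Om) : x ∈ sites ω γ l ↔ x ∈ orb ω γ l := by
  induction l generalizing γ x with
  | nil => simp [sites, orb]
  | cons δ l ih =>
    rw [mem_orb_cons]
    simp only [sites, List.mem_cons, List.mem_map]
    constructor
    · rintro (h | ⟨z, hz, h⟩)
      · exact Or.inl h
      · exact Or.inr ⟨z, (ih δ z).1 hz, h⟩
    · rintro (h | ⟨z, hz, h⟩)
      · exact Or.inl h
      · exact Or.inr ⟨z, (ih δ z).2 hz, h⟩

/-- the word of the label of a short word -/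
theorem leaves_take (l : List Bt) (hl : l.length ≤ 2) : [l.getD 0 .e, l.getD 1 .e].take l.length = l := by
  match l, hl with
  | [], _ => rfl
  | [_], _ => rfl
  | [_, _], _ => rfl
  | _ :: _ :: _ :: _, h => simp at h

/-- short words are given by leaves -/
theorem leaves_short (ω : ℕ → Bt) (γ : Bt) (l : List Bt) (hl : l.length ≤ 2) (R : Finset Om)
    (hR : R ⊆ orb ω γ l) : ∃ u : Lab, val ω (.leaf u) = (ev ω γ l, R) := by
  refine ⟨((γ, ⟨l.length, by omega⟩, l.getD 0 .e, l.getD 1 .e),
    (Finset.univ : Finset (Fin 3)).filter fun i => (sites ω γ l).getD i x0 ∈ R), ?_⟩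
  have h1 : labw ((γ, (⟨l.length, by omega⟩ : Fin 3), l.getD 0 .e, l.getD 1 .e),
    (Finset.univ : Finset (Fin 3)).filter fun i => (sites ω γ l).getD i x0 ∈ R) = (γ, l) := by
    show (γ, [l.getD 0 .e, l.getD 1 .e].take l.length) = (γ, l)
    rw [leaves_take l hl]
  simp only [val]
  rw [h1]
  refine Prod.ext rfl ?_
  show labR ω _ = R
  unfold labR
  rw [h1]
  ext x
  simp only [Finset.mem_image, Finset.mem_filter, Finset.mem_univ, true_and]
  constructor
  · rintro ⟨i, hi, rfl⟩
    exact hi
  · intro hx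
    have h2 := (leaves_mem_sites ω γ l x).2 (hR hx)
    obtain ⟨i, hi, h3⟩ := List.getElem_of_mem h2
    have h4 := leaves_sites_length ω γ l
    refine ⟨⟨i, by omega⟩, ?_, ?_⟩
    · show (sites ω γ l).getD i x0 ∈ R
      rw [List.getD_eq_getElem _ _ hi, h3]
      exact hx
    · show (sites ω γ l).getD i x0 = x
      rw [List.getD_eq_getElem _ _ hi, h3]

/-- the sites with the first letter `j` -/
noncomputable def leavesPart (R : Finset Om) (j : Bool) : Finset Om := (R.filter fun x => x 0 = j).image tl

theorem leaves_mem_part (R : Finset Om) (j : Bool) (y : Om) : y ∈ leavesPart R j ↔ cons j y ∈ R := by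
  unfold leavesPart
  simp only [Finset.mem_image, Finset.mem_filter]
  constructor
  · rintro ⟨x, ⟨hx, hj⟩, rfl⟩
    rw [← hj, cons_tl]
    exact hx
  · intro h
    exact ⟨cons j y, ⟨h, rfl⟩, tl_cons j y⟩

theorem leaves_union (R : Finset Om) :
    (leavesPart R false).image (cons false) ∪ (leavesPart R true).image (cons true) = R := by
  ext x
  simp only [Finset.mem_union, Finset.mem_image, leaves_mem_part]
  constructor
  · rintro (⟨y, hy, rfl⟩ | ⟨y, hy, rfl⟩)
    · exact hy
    · exact hy
  · intro hx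
    cases h : x 0
    · left
      have h1 : cons false (tl x) = x := by rw [← h]; exact cons_tl x
      exact ⟨tl x, by rw [h1]; exact hx, h1⟩
    · right
      have h1 : cons true (tl x) = x := by rw [← h]; exact cons_tl x
      exact ⟨tl x, by rw [h1]; exact hx, h1⟩

/-- Every pair `(g, R)` comes from a tree.

Proof. Strong induction on `l.length`, for all `ω`, `γ`, `R`. If `l.length ≤ 2` take a leaf: the label with word
`(γ, l)` and the set of `i : Fin 3` with `(sites ω γ l)[i] ∈ R`. If `3 ≤ l.length` put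
`R_j = {y | cons j y ∈ R}`; then `R_j ⊆ orbP (sh ω) (sec (ω 0) j γ l)` by `orb_sec`,
the sections are shorter (`sec_length_lt`), and by induction they have trees `t_j`. Take
`node (par l) t_false t_true`. Its value is `(ev ω γ l, R)` by `ev_sec` and `cons_tl`, and the number of leaves is at
most `(inn ω γ l).card` by `card_inn_sec`. -/
theorem exists_tree (n : ℕ) : ∀ (ω : ℕ → Bt), Ok ω → ∀ (γ : Bt) (l : List Bt), l.length ≤ n →
    ∀ R : Finset Om, R ⊆ orb ω γ l →
      ∃ t : Tr Lab, t.leaves ≤ max 1 (inn ω γ l).card ∧ val ω t = (ev ω γ l, R) := by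
  induction n with
  | zero =>
    intro ω _ γ l hl R hR
    obtain ⟨u, hu⟩ := leaves_short ω γ l (by omega) R hR
    exact ⟨.leaf u, le_max_left _ _, hu⟩
  | succ n ih =>
    intro ω hω γ l hl R hR
    by_cases h3 : 3 ≤ l.length
    · have hsub : ∀ j, leavesPart R j ⊆ orbP (sh ω) (sec (ω 0) j γ l) := by
        intro j y hy
        rw [leaves_mem_part] at hy
        have h1 := orb_sec hω γ l (hR hy)
        rw [tl_cons, cons_zero] at h1
        exact h1
      have hlen : ∀ j, (sec (ω 0) j γ l).2.length ≤ n := by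
        intro j
        have := sec_length_lt (ω 0) γ l h3 j
        omega
      obtain ⟨s, hs1, hs2⟩ := ih (sh ω) (ok_sh hω) _ _ (hlen false) _ (hsub false)
      obtain ⟨t, ht1, ht2⟩ := ih (sh ω) (ok_sh hω) _ _ (hlen true) _ (hsub true)
      refine ⟨.node (par l) s t, ?_, ?_⟩
      · have h4 := card_inn_sec hω γ l h3
        show s.leaves + t.leaves ≤ _
        refine le_trans ?_ (le_max_right _ _)
        refine le_trans (add_le_add hs1 ht1) h4
      · simp only [val]
        rw [hs2, ht2]
        refine Prod.ext ?_ ?_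
        · funext x
          show cons (xor (x 0) (par l)) ((if xor (x 0) (par l) = true then
            ev (sh ω) (sec (ω 0) true γ l).1 (sec (ω 0) true γ l).2 else
            ev (sh ω) (sec (ω 0) false γ l).1 (sec (ω 0) false γ l).2) (tl x)) = ev ω γ l x
          conv_rhs => rw [← cons_tl x]
          rw [ev_sec hω]
          cases h : xor (x 0) (par l)
          · rfl
          · rfl
        · exact leaves_union R
    · obtain ⟨u, hu⟩ := leaves_short ω γ l (by omega) R hR
      exact ⟨.leaf u, le_max_left _ _, hu⟩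

/-- The number of pairs `(g, R)`.

Proof. By `exists_tree`, `inn_subset_orb` and `one_le_dl` the set `Prs ω n` is contained in the image under
`val ω` of the set of trees with at most `Dl ω n` leaves. Use `tr_count` and
`K = (Fintype.card Lab + 3) ^ 2`. -/
theorem prs_count : ∃ K : ℕ, 1 ≤ K ∧ ∀ ω : ℕ → Bt, Ok ω → ∀ n : ℕ,
    (Prs ω n).Finite ∧ (Prs ω n).ncard ≤ K ^ Dl ω n := by
  refine ⟨(Fintype.card Lab + 3) ^ 2, Nat.one_le_pow _ _ (by omega), ?_⟩
  intro ω hω n
  obtain ⟨hfin, hcard⟩ := tr_count (L := Lab) (Dl ω n)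
  have hsub : Prs ω n ⊆ val ω '' {t : Tr Lab | t.leaves ≤ Dl ω n} := by
    rintro ⟨g, R⟩ ⟨γ, l, hl, hg, hR⟩
    obtain ⟨t, ht, hv⟩ := exists_tree n ω hω γ l hl R hR
    refine ⟨t, ?_, ?_⟩
    · show t.leaves ≤ Dl ω n
      refine ht.trans (max_le (one_le_dl ω n) ?_)
      exact (Finset.card_le_card (inn_subset_orb ω γ l)).trans (card_orb_le_dl hl)
    · rw [hv]
      exact Prod.ext hg rfl
  constructor
  · exact (hfin.image _).subset hsub
  · calc (Prs ω n).ncard ≤ (val ω '' {t : Tr Lab | t.leaves ≤ Dl ω n}).ncard :=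
          Set.ncard_le_ncard hsub (hfin.image _)
      _ ≤ {t : Tr Lab | t.leaves ≤ Dl ω n}.ncard := Set.ncard_image_le hfin
      _ ≤ (Fintype.card Lab + 3) ^ (2 * Dl ω n) := hcard
      _ = ((Fintype.card Lab + 3) ^ 2) ^ Dl ω n := pow_mul _ _ _

end Gri98
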