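import Pool.Agent.W_afafb9_h98.SubA

/-!
# The number of sites is sublinear, second part

(`SubA` is a stub being proved by others; use its statements.)
-/

set_option autoImplicit false

namespace Gri98

open scoped Classical

theorem subB_lev_mono {F G : Bt × List Bt → ℕ} (h : ∀ u, F u ≤ G u) (n : ℕ) :
    ∀ (ω : ℕ → Bt) (t : Bt × List Bt), lev F n ω t ≤ lev G n ω t := by
  induction n with
  | zero => intro ω t; exact h t
  | succ n ih => intro ω t; exact Nat.add_le_add (ih _ _) (ih _ _)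

theorem subB_lev_add_const (F : Bt × List Bt → ℕ) (c n : ℕ) :
    ∀ (ω : ℕ → Bt) (t : Bt × List Bt), lev (fun u => F u + c) n ω t = lev F n ω t + c * 2 ^ n := by
  induction n with
  | zero => intro ω t; simp [lev]
  | succ n ih =>
    intro ω t
    show lev (fun u => F u + c) n (sh ω) _ + lev (fun u => F u + c) n (sh ω) _ = _
    rw [ih, ih]
    show _ = lev F n (sh ω) _ + lev F n (sh ω) _ + c * 2 ^ (n + 1)
    rw [pow_succ]
    ring

theorem subB_lev_mul_const (F : Bt × List Bt → ℕ) (c n : ℕ) :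
    ∀ (ω : ℕ → Bt) (t : Bt × List Bt), lev (fun u => c * F u) n ω t = c * lev F n ω t := by
  induction n with
  | zero => intro ω t; rfl
  | succ n ih =>
    intro ω t
    show lev (fun u => c * F u) n (sh ω) _ + lev (fun u => c * F u) n (sh ω) _ = _
    rw [ih, ih]
    show _ = c * (lev F n (sh ω) _ + lev F n (sh ω) _)
    ring

theorem subB_lev_comp (F : Bt × List Bt → ℕ) (m n : ℕ) :
    ∀ (ω : ℕ → Bt) (t : Bt × List Bt),
      lev F (m + n) ω t = lev (fun u => lev F n (fun k => ω (k + m)) u) m ω t := by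
  induction m with
  | zero => intro ω t; rw [Nat.zero_add]; rfl
  | succ m ih =>
    intro ω t
    have h : m + 1 + n = (m + n) + 1 := by omega
    rw [h]
    show lev F (m + n) (sh ω) _ + lev F (m + n) (sh ω) _ = _
    rw [ih, ih]
    rfl

theorem subB_weights (n : ℕ) : ∀ {ω : ℕ → Bt}, Ok ω → ∀ w : Bt → ℕ, w .e = 0 →
    (∀ δ, δ ≠ .e → w δ = 1 ∨ w δ = 2) →
    ∃ w' : Bt → ℕ, w' .e = 0 ∧ (∀ δ, δ ≠ .e → w' δ = 1 ∨ w' δ = 2) ∧ (∀ i < n, w' (ω i) = 2) ∧
      (∀ δ, w δ ≤ w' δ) ∧ ∀ t, lev (Ph w') n ω t + 1 ≤ Ph w t + 2 ^ n := by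
  induction n with
  | zero =>
    intro ω hω w h0 h1
    refine ⟨w, h0, h1, fun i hi => absurd hi (Nat.not_lt_zero i), fun δ => le_refl _, fun t => ?_⟩
    show Ph w t + 1 ≤ Ph w t + 2 ^ 0
    rw [pow_zero]
  | succ n ih =>
    intro ω hω w h0 h1
    have h0' : Function.update w (ω 0) 2 .e = 0 := by
      rw [Function.update_of_ne (fun h => hω 0 h.symm)]
      exact h0
    have h1' : ∀ δ, δ ≠ .e → Function.update w (ω 0) 2 δ = 1 ∨ Function.update w (ω 0) 2 δ = 2 := by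
      intro δ hδ
      by_cases h : δ = ω 0
      · right
        rw [h, Function.update_self]
      · rw [Function.update_of_ne h]
        exact h1 δ hδ
    obtain ⟨w', a0, a1, a2, a3, a4⟩ := ih (ok_sh hω) (Function.update w (ω 0) 2) h0' h1'
    have hle2 : ∀ δ, w' δ ≤ 2 := by
      intro δ
      by_cases h : δ = .e
      · rw [h, a0]; omega
      · rcases a1 δ h with h | h <;> omega
    refine ⟨w', a0, a1, ?_, ?_, ?_⟩
    · intro i hi
      rcases i with _ | i
      · have h := a3 (ω 0)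
        rw [Function.update_self] at h
        exact le_antisymm (hle2 _) h
      · exact a2 i (by omega)
    · intro δ
      refine le_trans ?_ (a3 δ)
      by_cases h : δ = ω 0
      · rw [h, Function.update_self]
        rcases h1 (ω 0) (hω 0) with h | h <;> omega
      · rw [Function.update_of_ne h]
    · intro t
      have e1 := a4 (sec (ω 0) false t.1 t.2)
      have e2 := a4 (sec (ω 0) true t.1 t.2)
      have e3 : Ph (Function.update w (ω 0) 2) (sec (ω 0) false t.1 t.2) +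
          Ph (Function.update w (ω 0) 2) (sec (ω 0) true t.1 t.2) ≤ Ph w t + 1 :=
        ph_sec h0 h1 (hω 0) t.1 t.2
      show lev (Ph w') n (sh ω) _ + lev (Ph w') n (sh ω) _ + 1 ≤ _
      rw [pow_succ]
      omega

/-- Contraction over a block of levels.

Proof. Let `ω` be as in the hypothesis and choose `K` such that each of `b, c, d` is among
`ω 0, …, ω (K-1)`. Let `w_0 = (if · = e then 0 else 1)` and `w_(i+1) = Function.update w_i (ω i) 2`, so that
`w_K = (if · = e then 0 else 2)`. By `ph_sec` and induction on `n` `lev (Ph w_n) n ω t ≤ Ph w_0 t + (2 ^ n - 1)`: more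
precisely prove for all `n`, all `w` with `h0`, `h1` that there is `w'` (the iterated update, with `w' δ = 2` for
`δ ∈ {ω 0, …, ω (n-1)}` and `w δ ≤ w' δ`) with `lev (Ph w') n ω t + 1 ≤ Ph w t + 2 ^ n`, by
induction on `n` for all `ω`, `w`, `t` (`lev` recurses on the first level). Then by `ph_contract`
`3 * lev (Ph w_0) (K+1) ω t ≤ 2 * lev (Ph w_K) K ω t + 2 * 2 ^ K` (`lev F (K+1) ω t = lev (fun u => F (sec (ω K) false u.1 u.2) +
F (sec (ω K) true u.1 u.2)) K ω t`, and `lev` is monotone in `F` and `lev (F + c) K = lev F K + c * 2 ^ K`). -/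
theorem block {ω : ℕ → Bt} (hω : Ok ω) (hi : ∀ s : Bt, s ≠ .e → ∀ n, ∃ m ≥ n, ω m = s) :
    ∃ K C : ℕ, ∀ t : Bt × List Bt,
      3 * lev (Ph fun δ => if δ = .e then 0 else 1) K ω t ≤ 2 * Ph (fun δ => if δ = .e then 0 else 1) t + C := by
  obtain ⟨mb, -, hb⟩ := hi .b (by decide) 0
  obtain ⟨mc, -, hc⟩ := hi .c (by decide) 0
  obtain ⟨md, -, hd⟩ := hi .d (by decide) 0
  have h0 : (fun δ : Bt => if δ = .e then 0 else 1) .e = 0 := by simp
  have h1 : ∀ δ : Bt, δ ≠ .e → (fun δ : Bt => if δ = .e then 0 else 1) δ = 1 ∨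
      (fun δ : Bt => if δ = .e then 0 else 1) δ = 2 := by
    intro δ hδ
    left
    simp [hδ]
  obtain ⟨w', a0, a1, a2, a3, a4⟩ := subB_weights (mb + mc + md + 1) hω
    (fun δ : Bt => if δ = .e then 0 else 1) h0 h1
  have hw : w' = fun δ : Bt => if δ = .e then 0 else 2 := by
    funext δ
    cases δ
    · rw [a0]; rfl
    · rw [← hb, a2 mb (by omega), hb]; rfl
    · rw [← hc, a2 mc (by omega), hc]; rfl
    · rw [← hd, a2 md (by omega), hd]; rfl
  refine ⟨mb + mc + md + 1 + 1, 4 * 2 ^ (mb + mc + md + 1), fun t => ?_⟩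
  rw [subB_lev_comp, ← subB_lev_mul_const]
  have e1 : ∀ u : Bt × List Bt, 3 * lev (Ph fun δ => if δ = .e then 0 else 1) 1
      (fun k => ω (k + (mb + mc + md + 1))) u ≤ 2 * Ph w' u + 2 := by
    intro u
    rw [hw]
    exact ph_contract (ω (0 + (mb + mc + md + 1))) u.1 u.2
  refine le_trans (subB_lev_mono e1 _ _ _) ?_
  rw [subB_lev_add_const (fun u => 2 * Ph w' u), subB_lev_mul_const]
  have e2 := a4 t
  omega

/-- Iterated contraction: for all `j` there are a level `K` and a constant `C` with `3^j * lev K ≤ 2^j * Ph + C`.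

Proof. Induction on `j` for all `ω`, with `block` and `lev F (K + K') ω t = lev (lev F K' (sh^K ω)) K ω t`;
the hypotheses pass to shifted sequences. -/
theorem block_iter (j : ℕ) : ∀ {ω : ℕ → Bt}, Ok ω → (∀ s : Bt, s ≠ .e → ∀ n, ∃ m ≥ n, ω m = s) →
    ∃ K C : ℕ, ∀ t : Bt × List Bt,
      3 ^ j * lev (Ph fun δ => if δ = .e then 0 else 1) K ω t ≤
        2 ^ j * Ph (fun δ => if δ = .e then 0 else 1) t + C := by
  induction j with
  | zero =>
    intro ω hω hi
    refine ⟨0, 0, fun t => ?_⟩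
    simp [lev]
  | succ j ih =>
    intro ω hω hi
    obtain ⟨K1, C1, h1⟩ := block hω hi
    have hω' : Ok (fun k => ω (k + K1)) := fun n => hω (n + K1)
    have hi' : ∀ s : Bt, s ≠ .e → ∀ n, ∃ m ≥ n, (fun k => ω (k + K1)) m = s := by
      intro s hs n
      obtain ⟨m, hm, h⟩ := hi s hs (n + K1)
      refine ⟨m - K1, by omega, ?_⟩
      show ω (m - K1 + K1) = s
      rw [Nat.sub_add_cancel (by omega)]
      exact h
    obtain ⟨K2, C2, h2⟩ := ih hω' hi'
    refine ⟨K1 + K2, 2 ^ j * C1 + 3 * (C2 * 2 ^ K1), fun t => ?_⟩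
    rw [subB_lev_comp]
    have e0 : lev (fun u => 3 ^ j * lev (Ph fun δ => if δ = .e then 0 else 1) K2
        (fun k => ω (k + K1)) u) K1 ω t ≤ lev (fun u => 2 ^ j * Ph (fun δ => if δ = .e then 0 else 1) u + C2)
        K1 ω t := subB_lev_mono h2 _ _ _
    rw [subB_lev_mul_const, subB_lev_add_const (fun u => 2 ^ j * Ph (fun δ => if δ = .e then 0 else 1) u),
      subB_lev_mul_const] at e0
    have e1 := h1 t
    have e2 : 2 ^ j * (3 * lev (Ph fun δ => if δ = .e then 0 else 1) K1 ω t) ≤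
        2 ^ j * (2 * Ph (fun δ => if δ = .e then 0 else 1) t + C1) := Nat.mul_le_mul_left _ e1
    calc 3 ^ (j + 1) * lev (fun u => lev (Ph fun δ => if δ = .e then 0 else 1) K2
          (fun k => ω (k + K1)) u) K1 ω t
        = 3 * (3 ^ j * lev (fun u => lev (Ph fun δ => if δ = .e then 0 else 1) K2
          (fun k => ω (k + K1)) u) K1 ω t) := by ring
      _ ≤ 3 * (2 ^ j * lev (Ph fun δ => if δ = .e then 0 else 1) K1 ω t + C2 * 2 ^ K1) :=
          Nat.mul_le_mul_left _ e0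
      _ = 2 ^ j * (3 * lev (Ph fun δ => if δ = .e then 0 else 1) K1 ω t) + 3 * (C2 * 2 ^ K1) := by ring
      _ ≤ 2 ^ j * (2 * Ph (fun δ => if δ = .e then 0 else 1) t + C1) + 3 * (C2 * 2 ^ K1) :=
          Nat.add_le_add_right e2 _
      _ = 2 ^ (j + 1) * Ph (fun δ => if δ = .e then 0 else 1) t + (2 ^ j * C1 + 3 * (C2 * 2 ^ K1)) := by
          ring

/-- The number of sites is sublinear.

Proof. `Ph w_0 (γ, l) ≤ 2 * l.length + 1`, `u.2.length ≤ Ph w_0 u`, so by `card_orb_le_lev`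
`(orb ω γ l).card ≤ lev (Ph w_0) K ω (γ, l) + 2 ^ K`. Choose `j` with `2 * q * 2 ^ j ≤ 3 ^ j`, and `block_iter`. -/
theorem orb_sublinear {ω : ℕ → Bt} (hω : Ok ω) (hi : ∀ s : Bt, s ≠ .e → ∀ n, ∃ m ≥ n, ω m = s) (q : ℕ) :
    ∃ C : ℕ, ∀ (γ : Bt) (l : List Bt), q * (orb ω γ l).card ≤ l.length + C := by
  have hj : ∀ j : ℕ, (j + 2) * 2 ^ j ≤ 2 * 3 ^ j := by
    intro j
    induction j with
    | zero => simp
    | succ j ih =>
      have e1 : (j + 1 + 2) * 2 ^ (j + 1) = (2 * j + 6) * 2 ^ j := by ring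
      have e2 : 2 * 3 ^ (j + 1) = 3 * (2 * 3 ^ j) := by ring
      rw [e1, e2]
      calc (2 * j + 6) * 2 ^ j ≤ (3 * (j + 2)) * 2 ^ j := Nat.mul_le_mul_right _ (by omega)
        _ = 3 * ((j + 2) * 2 ^ j) := by ring
        _ ≤ 3 * (2 * 3 ^ j) := Nat.mul_le_mul_left _ ih
  have hq : 2 * q * 2 ^ (4 * q) ≤ 3 ^ (4 * q) := by
    have h := hj (4 * q)
    have e1 : (4 * q + 2) * 2 ^ (4 * q) = 2 * (2 * q * 2 ^ (4 * q)) + 2 * 2 ^ (4 * q) := by ring
    rw [e1] at h
    omega
  obtain ⟨K, C, h⟩ := block_iter (4 * q) hω hi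
  have hlen : ∀ (L : List Bt), L.length ≤ (L.map fun δ => 1 + (if δ = .e then 0 else 1)).sum ∧
      (L.map fun δ => 1 + (if δ = .e then 0 else 1)).sum ≤ 2 * L.length := by
    intro L
    induction L with
    | nil => simp
    | cons δ L ih =>
      simp only [List.map_cons, List.sum_cons, List.length_cons]
      split_ifs <;> omega
  refine ⟨q * 2 ^ (4 * q) + q * C + q * (3 ^ (4 * q) * 2 ^ K), fun γ l => ?_⟩
  have h1 : (orb ω γ l).card ≤ lev (Ph fun δ => if δ = .e then 0 else 1) K ω (γ, l) + 1 * 2 ^ K := by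
    refine le_trans (card_orb_le_lev hω K (γ, l)) ?_
    rw [← subB_lev_add_const]
    refine subB_lev_mono (fun u => ?_) _ _ _
    have := (hlen u.2).1
    show u.2.length + 1 ≤ ((if u.1 = .e then 0 else 1) +
      (u.2.map fun δ => 1 + (if δ = .e then 0 else 1)).sum) + 1
    omega
  have h2 : Ph (fun δ => if δ = .e then 0 else 1) (γ, l) ≤ 1 + 2 * l.length := by
    have := (hlen l).2
    show (if γ = .e then 0 else 1) + (l.map fun δ => 1 + (if δ = .e then 0 else 1)).sum ≤ _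
    split_ifs <;> omega
  have h3 := h (γ, l)
  have hpos : 0 < 3 ^ (4 * q) := pow_pos (by norm_num) _
  refine Nat.le_of_mul_le_mul_left ?_ hpos
  calc 3 ^ (4 * q) * (q * (orb ω γ l).card)
      ≤ 3 ^ (4 * q) * (q * (lev (Ph fun δ => if δ = .e then 0 else 1) K ω (γ, l) + 1 * 2 ^ K)) :=
        Nat.mul_le_mul_left _ (Nat.mul_le_mul_left _ h1)
    _ = q * (3 ^ (4 * q) * lev (Ph fun δ => if δ = .e then 0 else 1) K ω (γ, l)) +
          q * (3 ^ (4 * q) * 2 ^ K) := by ring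
    _ ≤ q * (2 ^ (4 * q) * Ph (fun δ => if δ = .e then 0 else 1) (γ, l) + C) +
          q * (3 ^ (4 * q) * 2 ^ K) := Nat.add_le_add_right (Nat.mul_le_mul_left _ h3) _
    _ ≤ q * (2 ^ (4 * q) * (1 + 2 * l.length) + C) + q * (3 ^ (4 * q) * 2 ^ K) :=
        Nat.add_le_add_right (Nat.mul_le_mul_left _ (Nat.add_le_add_right (Nat.mul_le_mul_left _ h2) _)) _
    _ = (2 * q * 2 ^ (4 * q)) * l.length + (q * 2 ^ (4 * q) + q * C + q * (3 ^ (4 * q) * 2 ^ K)) := by ring
    _ ≤ 3 ^ (4 * q) * l.length + (q * 2 ^ (4 * q) + q * C + q * (3 ^ (4 * q) * 2 ^ K)) :=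
        Nat.add_le_add_right (Nat.mul_le_mul_right _ hq) _
    _ ≤ 3 ^ (4 * q) * l.length + 3 ^ (4 * q) * (q * 2 ^ (4 * q) + q * C + q * (3 ^ (4 * q) * 2 ^ K)) :=
        Nat.add_le_add_left (Nat.le_mul_of_pos_left _ hpos) _
    _ = 3 ^ (4 * q) * (l.length + (q * 2 ^ (4 * q) + q * C + q * (3 ^ (4 * q) * 2 ^ K))) := by ring

end Gri98
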