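import Pool.Agent.W_afafb9_h98.Base

/-!
# The number of sites is unbounded and subadditive
-/

set_option autoImplicit false

namespace Gri98

open scoped Classical

/-- the word `[γ, x, δ₁, x, δ₂, …, x, δ_k]` -/
def dbl (x : Bt) : Bt → List Bt → List Bt
  | γ, [] => [γ]
  | γ, δ :: l => γ :: x :: dbl x δ l

/-- the tail of `dbl` -/
def unbTail (x : Bt) : List Bt → List Bt
  | [] => []
  | δ :: l => x :: δ :: unbTail x l

theorem dbl_eq (x γ : Bt) (l : List Bt) : dbl x γ l = γ :: unbTail x l := by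
  induction l generalizing γ with
  | nil => rfl
  | cons δ l ih =>
    show γ :: x :: dbl x δ l = γ :: x :: δ :: unbTail x l
    rw [ih]

theorem unb_mem {ω : ℕ → Bt} {x : Bt} (hx : ns (ω 0) x) (γ : Bt) (l : List Bt) :
    ∀ u ∈ orb (sh ω) γ l, cons true u ∈ orb ω γ (unbTail x l) := by
  induction l generalizing γ with
  | nil =>
    intro u hu
    rw [show u = x0 by simpa [orb] using hu, cons_true_x0]
    exact x0_mem_orb _ _ _
  | cons δ l ih =>
    intro u hu
    rw [mem_orb_cons] at hu
    rcases hu with rfl | ⟨z, hz, rfl⟩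
    · rw [cons_true_x0]
      exact x0_mem_orb _ _ _
    · show cons true (bF (sh ω) γ (aF z)) ∈ orb ω γ (x :: δ :: unbTail x l)
      rw [mem_orb_cons]
      refine Or.inr ⟨cons false (aF z), ?_, ?_⟩
      · rw [mem_orb_cons]
        refine Or.inr ⟨cons true z, ih δ z hz, ?_⟩
        rw [aF_cons]
        show bF ω x (cons false z) = _
        rw [bF_false, if_pos hx]
      · rw [aF_cons]
        show bF ω γ (cons true (aF z)) = _
        rw [bF_true]

/-- The sites of the word `γ (a x a) δ₁ (a x a) δ₂ …`.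

Proof. Let `x` be a letter with `ns (ω 0) x` and `v = (γ, l)` a word for `sh ω`. For the word `γ' = γ` with list
`x :: (dbl x δ l')`-like tail (i.e. `dbl x γ l = γ :: m` and the word `(γ, m)`), the sites of `(γ, m)` contain
`cons true u` for all sites `u ∈ orb (sh ω) γ l`: by induction on `l`; `cons true x0 = x0`, and for
`l = δ :: l'` `m = x :: dbl x δ l' = x :: δ :: m'`, a site `u' = bF (sh ω) γ (aF u)` with `u ∈ orb (sh ω) δ l'` has
`cons true u ∈ orb ω δ m'`, and `bF ω γ (aF (bF ω x (aF (cons true u)))) = bF ω γ (aF (bF ω x (cons false u))) =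
bF ω γ (aF (cons false (aF u))) = bF ω γ (cons true (aF u)) = cons true (bF (sh ω) γ (aF u))` is in
`orb ω γ (x :: δ :: m')`. Finally the word `(e, dbl x γ l) = a γ (a x a) …` has the site `x0` and the sites
`bF ω e (aF (cons true u)) = cons false u`, `u ∈ orb (sh ω) γ l`. They are different from `x0`, so
`(orb (sh ω) γ l).card + 1 ≤ (orb ω .e (dbl x γ l)).card`. -/
theorem card_orb_dbl {ω : ℕ → Bt} {x : Bt} (hx : ns (ω 0) x) (γ : Bt) (l : List Bt) :
    (orb (sh ω) γ l).card + 1 ≤ (orb ω .e (dbl x γ l)).card := by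
  rw [dbl_eq]
  have hsub : insert x0 ((orb (sh ω) γ l).image fun u => cons false u) ⊆
      orb ω .e (γ :: unbTail x l) := by
    intro y hy
    rw [Finset.mem_insert, Finset.mem_image] at hy
    rw [mem_orb_cons]
    rcases hy with h | ⟨u, hu, rfl⟩
    · exact Or.inl h
    · refine Or.inr ⟨cons true u, unb_mem hx γ l u hu, ?_⟩
      rw [bF_e, aF_cons]
      rfl
  have hinj : Function.Injective (fun u : Om => cons false u) := fun u v h => (cons_inj h).2
  have hnot : x0 ∉ (orb (sh ω) γ l).image fun u => cons false u := by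
    rw [Finset.mem_image]
    rintro ⟨u, -, hu⟩
    have := congrFun hu 0
    exact Bool.noConfusion this
  calc (orb (sh ω) γ l).card + 1 = ((orb (sh ω) γ l).image fun u => cons false u).card + 1 := by
        rw [Finset.card_image_of_injective _ hinj]
    _ = (insert x0 ((orb (sh ω) γ l).image fun u => cons false u)).card := by
        rw [Finset.card_insert_of_notMem hnot]
    _ ≤ _ := Finset.card_le_card hsub

/-- Proof. Induction on `M` for all `ω`, `card_orb_dbl` and a letter `x ≠ e, ω 0`. -/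
theorem orb_unb (M : ℕ) : ∀ ω : ℕ → Bt, ∃ (γ : Bt) (l : List Bt), M ≤ (orb ω γ l).card := by
  induction M with
  | zero => exact fun ω => ⟨.e, [], Nat.zero_le _⟩
  | succ M ih =>
    intro ω
    obtain ⟨γ, l, h⟩ := ih (sh ω)
    obtain ⟨x, hx⟩ : ∃ x, ns (ω 0) x := by
      cases ω 0
      · exact ⟨.b, by decide⟩
      · exact ⟨.c, by decide⟩
      · exact ⟨.b, by decide⟩
      · exact ⟨.b, by decide⟩
    exact ⟨.e, dbl x γ l, (Nat.succ_le_succ h).trans (card_orb_dbl hx γ l)⟩

/-- The sites of a product.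

Proof. Induction on `l₁`. -/
theorem orb_append (ω : ℕ → Bt) (γ δ : Bt) (l₁ l₂ : List Bt) :
    orb ω γ (l₁ ++ δ :: l₂) ⊆ orb ω γ l₁ ∪ (orb ω δ l₂).image fun x => ev ω γ l₁ (aF x) := by
  induction l₁ generalizing γ with
  | nil =>
    intro y hy
    rw [List.nil_append, mem_orb_cons] at hy
    rw [Finset.mem_union]
    rcases hy with rfl | ⟨z, hz, rfl⟩
    · exact Or.inl (x0_mem_orb _ _ _)
    · exact Or.inr (Finset.mem_image.2 ⟨z, hz, rfl⟩)
  | cons α l ih =>
    intro y hy
    rw [List.cons_append, mem_orb_cons] at hy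
    rw [Finset.mem_union]
    rcases hy with rfl | ⟨z, hz, rfl⟩
    · exact Or.inl (x0_mem_orb _ _ _)
    · have hz' := ih α hz
      rw [Finset.mem_union] at hz'
      rcases hz' with h | h
      · exact Or.inl (mem_orb_cons.2 (Or.inr ⟨z, h, rfl⟩))
      · obtain ⟨w, hw, rfl⟩ := Finset.mem_image.1 h
        exact Or.inr (Finset.mem_image.2 ⟨w, hw, rfl⟩)

/-- Proof. Let `l.length ≤ m + n`. If `l.length ≤ m` use `dl_mono`-like facts (`card_orb_le_dl`). Otherwise
`l = l₁ ++ δ :: l₂` with `l₁.length = m`, `l₂.length ≤ n` (`List.take`, `List.drop`), and use `orb_append`,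
`Finset.card_union_le`, `Finset.card_image_le`. -/
theorem dl_add (ω : ℕ → Bt) (m n : ℕ) : Dl ω (m + n) ≤ Dl ω m + Dl ω n := by
  apply dl_le
  intro γ l hl
  rcases Nat.lt_or_ge m l.length with h | h
  · have e : l = l.take m ++ l.drop m := (List.take_append_drop m l).symm
    obtain ⟨δ, l₂, hd⟩ : ∃ δ l₂, l.drop m = δ :: l₂ := by
      cases hh : l.drop m with
      | nil =>
        rw [List.drop_eq_nil_iff] at hh
        omega
      | cons δ l₂ => exact ⟨δ, l₂, rfl⟩
    have hlen : l₂.length ≤ n := by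
      have h1 : (l.drop m).length = l.length - m := List.length_drop
      rw [hd, List.length_cons] at h1
      omega
    have h1 : (l.take m).length ≤ m := by
      rw [List.length_take]
      exact min_le_left _ _
    rw [e, hd]
    calc (orb ω γ (l.take m ++ δ :: l₂)).card ≤
          (orb ω γ (l.take m) ∪ (orb ω δ l₂).image fun x => ev ω γ (l.take m) (aF x)).card :=
          Finset.card_le_card (orb_append ω γ δ _ _)
      _ ≤ (orb ω γ (l.take m)).card + ((orb ω δ l₂).image fun x => ev ω γ (l.take m) (aF x)).card :=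
          Finset.card_union_le _ _
      _ ≤ Dl ω m + Dl ω n :=
          Nat.add_le_add (card_orb_le_dl h1) (Finset.card_image_le.trans (card_orb_le_dl hlen))
  · exact (card_orb_le_dl h).trans (Nat.le_add_right _ _)

/-- Proof. Induction on `k ≥ 1`. -/
theorem dl_mul (ω : ℕ → Bt) (k n : ℕ) (hk : 1 ≤ k) : Dl ω (k * n) ≤ k * Dl ω n := by
  induction k, hk using Nat.le_induction with
  | base => rw [one_mul, one_mul]
  | succ k hk ih =>
    rw [Nat.succ_mul, Nat.succ_mul]
    exact (dl_add ω _ _).trans (Nat.add_le_add_right ih _)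

/-- Proof. `orb_unb` and `card_orb_le_dl`. -/
theorem dl_unb (ω : ℕ → Bt) (M : ℕ) : ∃ n, M ≤ Dl ω n := by
  obtain ⟨γ, l, h⟩ := orb_unb M ω
  exact ⟨l.length, h.trans (card_orb_le_dl le_rfl)⟩

end Gri98
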