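import Pool.Agent.W_afafb9_h98.WordsA

/-!
# The group `Γ_ω` and its generating sets, second part
-/

set_option autoImplicit false

namespace Gri98

open scoped Classical

theorem wordsb_mem_orbL {X : Type*} (o : X) (w : List (Equiv.Perm X)) : o ∈ orbL o w := by
  cases w with
  | nil => exact Finset.mem_singleton_self o
  | cons s w => exact Finset.mem_insert_self _ _

theorem wordsb_mem_append {X : Type*} (o : X) (u v : List (Equiv.Perm X)) (x : X) :
    x ∈ orbL o (u ++ v) ↔ x ∈ orbL o u ∨ ∃ z ∈ orbL o v, u.prod z = x := by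
  induction u generalizing x with
  | nil =>
    simp only [List.nil_append, List.prod_nil, Equiv.Perm.coe_one, id_eq, exists_eq_right]
    refine ⟨Or.inr, ?_⟩
    rintro (h | h)
    · have h1 : x = o := Finset.mem_singleton.1 h
      rw [h1]
      exact wordsb_mem_orbL o v
    · exact h
  | cons s u ih =>
    simp only [List.cons_append, orbL, Finset.mem_insert, Finset.mem_image, List.prod_cons, Equiv.Perm.coe_mul,
      Function.comp_apply]
    constructor
    · rintro (h | ⟨y, hy, h⟩)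
      · exact Or.inl (Or.inl h)
      · rcases (ih y).1 hy with hy | ⟨z, hz, hy⟩
        · exact Or.inl (Or.inr ⟨y, hy, h⟩)
        · exact Or.inr ⟨z, hz, by rw [hy]; exact h⟩
    · rintro ((h | ⟨y, hy, h⟩) | ⟨z, hz, h⟩)
      · exact Or.inl h
      · exact Or.inr ⟨y, (ih y).2 (Or.inl hy), h⟩
      · exact Or.inr ⟨u.prod z, (ih _).2 (Or.inr ⟨z, hz, rfl⟩), h⟩

/-- Change of generators. -/
theorem conv3 {X : Type*} (o : X) {A B : Set (Equiv.Perm X)} (hB : B.Finite)
    (h : Subgroup.closure B ≤ Subgroup.closure A) :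
    ∃ C : ℕ, 1 ≤ C ∧ ∀ w : List (Equiv.Perm X), (∀ s ∈ w, s ∈ B ∨ s⁻¹ ∈ B) →
      ∃ w' : List (Equiv.Perm X), (∀ s ∈ w', s ∈ A ∨ s⁻¹ ∈ A) ∧ w'.length ≤ C * w.length ∧ w'.prod = w.prod ∧
        orbL o w ⊆ orbL o w' := by
  have h1 : ∀ s : Equiv.Perm X, ∃ u : List (Equiv.Perm X), (s ∈ B ∨ s⁻¹ ∈ B) →
      (∀ y ∈ u, y ∈ A ∨ y⁻¹ ∈ A) ∧ u.prod = s := by
    intro s
    by_cases hs : s ∈ B ∨ s⁻¹ ∈ B
    · have h2 : s ∈ Subgroup.closure B := by
        rcases hs with hs | hs
        · exact Subgroup.subset_closure hs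
        · have h3 := Subgroup.inv_mem _ (Subgroup.subset_closure hs)
          rwa [inv_inv] at h3
      have h4 : s ∈ Submonoid.closure (A ∪ A⁻¹) := by
        rw [← Subgroup.closure_toSubmonoid, Subgroup.mem_toSubmonoid]
        exact h h2
      obtain ⟨u, hu, hp⟩ := Submonoid.exists_list_of_mem_closure h4
      exact ⟨u, fun _ => ⟨fun y hy => hu y hy, hp⟩⟩
    · exact ⟨[], fun h => absurd h hs⟩
  choose u hu using h1
  have hfin : (B ∪ B⁻¹).Finite := hB.union hB.inv
  refine ⟨1 + ∑ s ∈ hfin.toFinset, (u s).length, Nat.le_add_right _ _, ?_⟩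
  intro w
  induction w with
  | nil =>
    intro _
    exact ⟨[], by simp, by simp, rfl, fun x hx => hx⟩
  | cons s w ih =>
    intro hw
    obtain ⟨w', hA, hlen, hprod, horb⟩ := ih fun t ht => hw t (List.mem_cons_of_mem _ ht)
    have hs := hw s List.mem_cons_self
    obtain ⟨hu1, hu2⟩ := hu s hs
    refine ⟨u s ++ w', ?_, ?_, ?_, ?_⟩
    · intro t ht
      rcases List.mem_append.1 ht with ht | ht
      · exact hu1 t ht
      · exact hA t ht
    · have h2 : s ∈ hfin.toFinset := by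
        rw [Set.Finite.mem_toFinset]
        rcases hs with hs | hs
        · exact Or.inl hs
        · exact Or.inr hs
      have h3 : (u s).length ≤ ∑ s ∈ hfin.toFinset, (u s).length :=
        Finset.single_le_sum (f := fun s => (u s).length) (fun _ _ => Nat.zero_le _) h2
      rw [List.length_append, List.length_cons, Nat.mul_add, Nat.mul_one]
      omega
    · rw [List.prod_append, List.prod_cons, hu2, hprod]
    · intro x hx
      simp only [orbL, Finset.mem_insert, Finset.mem_image] at hx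
      rw [wordsb_mem_append]
      rcases hx with hx | ⟨z, hz, hx⟩
      · left
        rw [hx]
        exact wordsb_mem_orbL o _
      · right
        exact ⟨z, horb hz, by rw [hu2]; exact hx⟩

theorem wordsb_std_finite {ω : ℕ → Bt} (hω : Ok ω) : (stdS ω hω).Finite := by
  unfold stdS
  exact Set.toFinite _

/-- Proof. `conv3` (from `A` to `stdS`) and `conv1`. -/
theorem cls_prs {ω : ℕ → Bt} (hω : Ok ω) {A : Set (Equiv.Perm Om)} (hA : A.Finite)
    (h : Subgroup.closure A = Gam ω hω) :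
    ∃ C : ℕ, 1 ≤ C ∧ ∀ (m : ℕ) (σ : Equiv.Perm Om) (R : Finset Om), Rp x0 A m σ R →
      ((⇑σ : Om → Om), R) ∈ Prs ω (C * m) := by
  obtain ⟨C, hC, hw⟩ := conv3 x0 (A := stdS ω hω) hA (le_of_eq h)
  refine ⟨C, hC, ?_⟩
  rintro m σ R ⟨w, hlen, hm, hprod, hR⟩
  obtain ⟨w', hA', hlen', hprod', horb⟩ := hw w hm
  obtain ⟨γ, l, hl, hev, ho⟩ := conv1 hω w' hA'
  have h1 : C * w.length ≤ C * m := Nat.mul_le_mul_left C hlen
  refine ⟨γ, l, by omega, ?_, ?_⟩
  · show _ = _
    rw [hev, hprod', hprod]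
  · exact fun x hx => ho (horb (hR hx))

/-- Proof. `dl_exists`, `conv2` and `conv3` (from `stdS` to `A`), `R = orb ω γ l`. -/
theorem prs_cls {ω : ℕ → Bt} (hω : Ok ω) {A : Set (Equiv.Perm Om)} (h : Subgroup.closure A = Gam ω hω) :
    ∃ C : ℕ, 1 ≤ C ∧ ∀ m : ℕ, ∃ (σ : Equiv.Perm Om) (R : Finset Om),
      Rp x0 A (C * (m + 1)) σ R ∧ R.card = Dl ω m := by
  obtain ⟨C, hC, hw⟩ := conv3 x0 (A := A) (wordsb_std_finite hω) (le_of_eq h.symm)
  refine ⟨2 * C, by omega, ?_⟩
  intro m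
  obtain ⟨γ, l, hl, hcard⟩ := dl_exists ω m
  obtain ⟨w, hlen, hm, hprod, ho⟩ := conv2 hω γ l
  obtain ⟨w', hA', hlen', hprod', horb⟩ := hw w fun s hs => Or.inl (hm s hs)
  refine ⟨w'.prod, orb ω γ l, ⟨w', ?_, hA', rfl, fun x hx => horb (ho hx)⟩, hcard⟩
  have h1 : C * w.length ≤ C * (2 * (m + 1)) := Nat.mul_le_mul_left C (by omega)
  calc w'.length ≤ C * w.length := hlen'
    _ ≤ C * (2 * (m + 1)) := h1
    _ = 2 * C * (m + 1) := by ring

end Gri98
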