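import Pool.Agent.W_afafb9_h98.Crit
import Pool.Agent.W_afafb9_h98.Descr
import Pool.Agent.W_afafb9_h98.Leaves
import Pool.Agent.W_afafb9_h98.SubB
import Pool.Agent.W_afafb9_h98.Unb
import Pool.Agent.W_afafb9_h98.WordsB

/-!
# Wreath products over the Grigorchuk groups
-/

set_option autoImplicit false

namespace Gri98

open Filter Topology
open scoped Classical

theorem fin_main {ω : ℕ → Bt} (hω : Ok ω) (hi : ∀ s : Bt, s ≠ .e → ∀ n, ∃ m ≥ n, ω m = s)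
    {A : Set (Equiv.Perm Om)} (hA : A.Finite) (hg : Subgroup.closure A = Gam ω hω) :
    Tendsto (fun n : ℕ => (gr (SW x0 A) (n + 1) : ℝ) / (gr (SW x0 A) n : ℝ)) atTop (𝓝 1) ∧
    Tendsto (fun n : ℕ => (gr (SW x0 A) n : ℝ) ^ ((1 : ℝ) / (n : ℝ))) atTop (𝓝 1) ∧
    ∀ d : ℕ, Tendsto (fun n : ℕ => (gr (SW x0 A) n : ℝ) / (n : ℝ) ^ d) atTop atTop := by
  obtain ⟨C₁, hC₁, h1⟩ := cls_prs hω hA hg
  obtain ⟨C₂, hC₂, h2⟩ := prs_cls hω hg
  obtain ⟨K, hK, h3⟩ := prs_count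
  have ha : ∀ m, dA x0 A m ≤ Dl ω (C₁ * m) := by
    intro m
    obtain ⟨σ, R, hR, hc⟩ := dA_exists x0 A m
    obtain ⟨γ, l, hl, -, hs⟩ := h1 m σ R hR
    rw [← hc]
    exact (Finset.card_le_card hs).trans (card_orb_le_dl hl)
  have hb : ∀ m, Dl ω m ≤ dA x0 A (C₂ * (m + 1)) := by
    intro m
    obtain ⟨σ, R, hR, hc⟩ := h2 m
    rw [← hc]
    exact card_le_dA hR
  have hc : ∀ m, Dl ω (C₁ * m) ≤ (3 * C₁ * C₂ + 1) * dA x0 A m := by
    intro m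
    have hd1 := one_le_dA x0 A m
    rcases lt_or_ge m (2 * C₂) with hm | hm
    · have e1 := dl_le_succ ω (C₁ * m)
      have e2 : C₁ * m ≤ C₁ * (2 * C₂) := Nat.mul_le_mul_left _ hm.le
      calc Dl ω (C₁ * m) ≤ C₁ * m + 1 := e1
        _ ≤ C₁ * (2 * C₂) + 1 := by omega
        _ ≤ 3 * C₁ * C₂ + 1 := by nlinarith
        _ ≤ (3 * C₁ * C₂ + 1) * dA x0 A m := Nat.le_mul_of_pos_right _ hd1
    · obtain ⟨j, hj⟩ : ∃ j, m / C₂ = j + 1 := by
        have : 2 ≤ m / C₂ := (Nat.le_div_iff_mul_le hC₂).2 hm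
        exact ⟨m / C₂ - 1, by omega⟩
      have hj1 : 1 ≤ j := by
        have : 2 ≤ m / C₂ := (Nat.le_div_iff_mul_le hC₂).2 hm
        omega
      have e1 : C₂ * (j + 1) ≤ m := by
        rw [← hj]
        exact Nat.mul_div_le m C₂
      have e2 : m < C₂ * (j + 1 + 1) := by
        rw [← hj]
        exact Nat.lt_mul_div_succ m hC₂
      have e3 : C₁ * m ≤ 3 * C₁ * C₂ * j := by
        have e4 : m ≤ C₂ * (3 * j) := e2.le.trans (Nat.mul_le_mul_left _ (by omega))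
        calc C₁ * m ≤ C₁ * (C₂ * (3 * j)) := Nat.mul_le_mul_left _ e4
          _ = 3 * C₁ * C₂ * j := by ring
      calc Dl ω (C₁ * m) ≤ Dl ω (3 * C₁ * C₂ * j) := dl_mono ω e3
        _ ≤ 3 * C₁ * C₂ * Dl ω j := dl_mul ω _ _ (by
            have : 0 < 3 * C₁ * C₂ := by positivity
            omega)
        _ ≤ 3 * C₁ * C₂ * dA x0 A (C₂ * (j + 1)) := Nat.mul_le_mul_left _ (hb j)
        _ ≤ 3 * C₁ * C₂ * dA x0 A m := Nat.mul_le_mul_left _ (dA_mono x0 A e1)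
        _ ≤ (3 * C₁ * C₂ + 1) * dA x0 A m := Nat.mul_le_mul_right _ (Nat.le_succ _)
  refine crit x0 hA (K₀ := K ^ (3 * C₁ * C₂ + 1)) ?_ ?_ ?_
  · intro q
    obtain ⟨C, hC⟩ := orb_sublinear hω hi (q * C₁)
    refine ⟨C, fun n => ?_⟩
    obtain ⟨γ, l, hl, hD⟩ := dl_exists ω (C₁ * n)
    have e1 := hC γ l
    rw [hD] at e1
    have e2 : C₁ * (q * Dl ω (C₁ * n)) ≤ C₁ * (n + C) := by
      calc C₁ * (q * Dl ω (C₁ * n)) = q * C₁ * Dl ω (C₁ * n) := by ring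
        _ ≤ l.length + C := e1
        _ ≤ C₁ * n + C := by omega
        _ ≤ C₁ * n + C₁ * C := by
            have : C ≤ C₁ * C := Nat.le_mul_of_pos_left _ hC₁
            omega
        _ = C₁ * (n + C) := by ring
    have e3 := Nat.le_of_mul_le_mul_left e2 hC₁
    exact (Nat.mul_le_mul_left _ (ha n)).trans e3
  · intro M
    obtain ⟨n, hn⟩ := dl_unb ω M
    exact ⟨_, hn.trans (hb n)⟩
  · intro m
    obtain ⟨hf, hn⟩ := h3 ω hω (C₁ * m)
    have e1 : (Cls x0 A m).ncard ≤ (Prs ω (C₁ * m)).ncard := by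
      refine Set.ncard_le_ncard_of_injOn (fun p => ((⇑p.1 : Om → Om), p.2)) ?_ ?_ hf
      · intro p hp
        exact h1 m p.1 p.2 hp
      · intro p _ q _ hpq
        have hpq' : ((⇑p.1 : Om → Om), p.2) = ((⇑q.1 : Om → Om), q.2) := hpq
        have a1 : (⇑p.1 : Om → Om) = ⇑q.1 := (Prod.mk.inj hpq').1
        have a2 : p.2 = q.2 := (Prod.mk.inj hpq').2
        exact Prod.ext (DFunLike.coe_injective a1) a2
    calc (Cls x0 A m).ncard ≤ (Prs ω (C₁ * m)).ncard := e1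
      _ ≤ K ^ Dl ω (C₁ * m) := hn
      _ ≤ K ^ ((3 * C₁ * C₂ + 1) * dA x0 A m) := Nat.pow_le_pow_right hK (hc m)
      _ = (K ^ (3 * C₁ * C₂ + 1)) ^ dA x0 A m := pow_mul _ _ _

end Gri98
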