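import Pool.Agent.W_afafb9_h98.LDef

/-!
# Direct products
-/

set_option autoImplicit false

namespace Gri98

open scoped Classical

variable {G H : Type*} [Group G] [Group H]

/-- the generating set `T × 1 ∪ 1 × S` of the direct product -/
def PS (T : Set G) (S : Set H) : Set (G × H) := {p | (p.1 ∈ T ∧ p.2 = 1) ∨ (p.1 = 1 ∧ p.2 ∈ S)}

theorem ProdA_prod_left (l : List G) : (l.map (fun g => (g, (1 : H)))).prod = (l.prod, 1) := by
  induction l with
  | nil => rfl
  | cons a l ih => rw [List.map_cons, List.prod_cons, ih, List.prod_cons]; simp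

theorem ProdA_prod_right (l : List H) : (l.map (fun h => ((1 : G), h))).prod = (1, l.prod) := by
  induction l with
  | nil => rfl
  | cons a l ih => rw [List.map_cons, List.prod_cons, ih, List.prod_cons]; simp

theorem ProdA_wd_one {K : Type*} [Group K] (T : Set K) (n : ℕ) : Wd T n 1 :=
  ⟨[], by simp, by simp, rfl⟩

theorem ProdA_wd_mono {K : Type*} [Group K] {T : Set K} {m n : ℕ} (hmn : m ≤ n) {g : K}
    (h : Wd T m g) : Wd T n g := by
  obtain ⟨l, hl, h1, h2⟩ := h
  exact ⟨l, le_trans hl hmn, h1, h2⟩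

theorem ProdA_wd_cons {K : Type*} [Group K] {T : Set K} {n : ℕ} {x g : K}
    (hx : x ∈ T ∨ x⁻¹ ∈ T) (h : Wd T n g) : Wd T (n + 1) (x * g) := by
  obtain ⟨l, hl, h1, h2⟩ := h
  refine ⟨x :: l, by simp only [List.length_cons]; omega, ?_, by rw [List.prod_cons, h2]⟩
  intro y hy
  rcases List.mem_cons.1 hy with h | h
  · rw [h]; exact hx
  · exact h1 y h

theorem ProdA_split (T : Set G) (S : Set H) (l : List (G × H))
    (hmem : ∀ x ∈ l, x ∈ PS T S ∨ x⁻¹ ∈ PS T S) :
    ∃ k m, k + m ≤ l.length ∧ Wd T k l.prod.1 ∧ Wd S m l.prod.2 := by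
  induction l with
  | nil => exact ⟨0, 0, by simp, ProdA_wd_one T 0, ProdA_wd_one S 0⟩
  | cons a l ih =>
    obtain ⟨k, m, hkm, h1, h2⟩ := ih (fun x hx => hmem x (List.mem_cons_of_mem _ hx))
    have ha := hmem a (List.mem_cons_self ..)
    rw [List.prod_cons, Prod.fst_mul, Prod.snd_mul]
    rcases ha with (⟨ha, hb⟩ | ⟨ha, hb⟩) | (⟨ha, hb⟩ | ⟨ha, hb⟩)
    · refine ⟨k + 1, m, by simp only [List.length_cons]; omega, ProdA_wd_cons (Or.inl ha) h1, ?_⟩
      rw [hb, one_mul]; exact h2
    · refine ⟨k, m + 1, by simp only [List.length_cons]; omega, ?_, ProdA_wd_cons (Or.inl hb) h2⟩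
      rw [ha, one_mul]; exact h1
    · refine ⟨k + 1, m, by simp only [List.length_cons]; omega,
        ProdA_wd_cons (Or.inr (by simpa using ha)) h1, ?_⟩
      have : a.2 = 1 := by simpa using hb
      rw [this, one_mul]; exact h2
    · refine ⟨k, m + 1, by simp only [List.length_cons]; omega, ?_,
        ProdA_wd_cons (Or.inr (by simpa using hb)) h2⟩
      have : a.1 = 1 := by simpa using ha
      rw [this, one_mul]; exact h1

/-- Balls of the direct product.

Proof. (→) Induction on the word. (←) Concatenate the word `g` mapped by `(·, 1)` and the word of `h` mapped by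
`(1, ·)`. -/
theorem wd_prod (T : Set G) (S : Set H) (n : ℕ) (p : G × H) :
    Wd (PS T S) n p ↔ ∃ k m, k + m ≤ n ∧ Wd T k p.1 ∧ Wd S m p.2 := by
  constructor
  · rintro ⟨l, hl, hmem, hprod⟩
    obtain ⟨k, m, hkm, h1, h2⟩ := ProdA_split T S l hmem
    refine ⟨k, m, le_trans hkm hl, ?_, ?_⟩
    · rw [← hprod]; exact h1
    · rw [← hprod]; exact h2
  · rintro ⟨k, m, hkm, ⟨l1, hl1, hm1, hp1⟩, ⟨l2, hl2, hm2, hp2⟩⟩
    refine ⟨l1.map (fun g => (g, (1 : H))) ++ l2.map (fun h => ((1 : G), h)), ?_, ?_, ?_⟩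
    · simp only [List.length_append, List.length_map]; omega
    · intro x hx
      rcases List.mem_append.1 hx with hx | hx
      · obtain ⟨g, hg, rfl⟩ := List.mem_map.1 hx
        rcases hm1 g hg with h | h
        · left; left; exact ⟨h, rfl⟩
        · right; left; exact ⟨by simpa using h, by simp⟩
      · obtain ⟨g, hg, rfl⟩ := List.mem_map.1 hx
        rcases hm2 g hg with h | h
        · left; right; exact ⟨rfl, h⟩
        · right; right; exact ⟨by simp, by simpa using h⟩
    · rw [List.prod_append, ProdA_prod_left, ProdA_prod_right, hp1, hp2]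
      simp

/-- Proof. The words of length at most `n` over the finite set `T ∪ T⁻¹` form a finite set; or induction on `n`:
`{g | Wd T (n+1) g} ⊆ {g | Wd T n g} ∪ (T ∪ T⁻¹) * {g | Wd T n g}`. -/
theorem wd_finite {T : Set G} (hT : T.Finite) (n : ℕ) : {g : G | Wd T n g}.Finite := by
  induction n with
  | zero =>
    refine (Set.finite_singleton (1 : G)).subset ?_
    rintro g ⟨l, hl, -, hg⟩
    have : l = [] := List.length_eq_zero_iff.1 (Nat.le_zero.1 hl)
    rw [this] at hg
    exact hg.symm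
  | succ n ih =>
    have hI : (T ∪ T⁻¹).Finite := hT.union hT.inv
    refine (ih.union (hI.image2 (fun x g => x * g) ih)).subset ?_
    rintro g ⟨l, hl, hm, hg⟩
    cases l with
    | nil => left; exact ⟨[], by simp, by simp, hg⟩
    | cons a l =>
      right
      refine ⟨a, ?_, l.prod, ⟨l, ?_, fun x hx => hm x (List.mem_cons_of_mem _ hx), rfl⟩, ?_⟩
      · rcases hm a (List.mem_cons_self ..) with h | h
        · left; exact h
        · right; exact Set.mem_inv.2 h
      · simp only [List.length_cons] at hl; omega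
      · rw [List.prod_cons] at hg; exact hg

/-- the ball as a finite set -/
noncomputable def ProdA_ball {T : Set G} (hT : T.Finite) (n : ℕ) : Finset G := (wd_finite hT n).toFinset

theorem ProdA_mem_ball {T : Set G} (hT : T.Finite) (n : ℕ) (g : G) :
    g ∈ ProdA_ball hT n ↔ Wd T n g := by
  unfold ProdA_ball
  rw [Set.Finite.mem_toFinset]; rfl

theorem ProdA_gr_eq {T : Set G} (hT : T.Finite) (n : ℕ) : gr T n = (ProdA_ball hT n).card := by
  unfold gr ProdA_ball
  have h := Set.ncard_eq_toFinset_card {g : G | Wd T n g} (wd_finite hT n)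
  rw [← h]
  rfl

/-- Proof. Monotone finite sets (`wd_finite`) which contain `1`. -/
theorem gr_mono' {T : Set G} (hT : T.Finite) : Monotone (gr T) ∧ ∀ n, 1 ≤ gr T n := by
  constructor
  · intro m n hmn
    rw [ProdA_gr_eq hT m, ProdA_gr_eq hT n]
    refine Finset.card_le_card ?_
    intro g hg
    rw [ProdA_mem_ball] at hg ⊢
    exact ProdA_wd_mono hmn hg
  · intro n
    rw [ProdA_gr_eq hT n]
    refine Finset.card_pos.2 ⟨1, ?_⟩
    rw [ProdA_mem_ball]
    exact ProdA_wd_one T n

theorem ProdA_PS_finite {T : Set G} {S : Set H} (hT : T.Finite) (hS : S.Finite) :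
    (PS T S).Finite := by
  have h1 : (T ×ˢ ({1} : Set H)).Finite := hT.prod (Set.finite_singleton _)
  have h2 : ((({1} : Set G)) ×ˢ S).Finite := (Set.finite_singleton _).prod hS
  refine (h1.union h2).subset ?_
  rintro ⟨a, b⟩ (⟨ha, hb⟩ | ⟨ha, hb⟩)
  · left; exact ⟨ha, hb⟩
  · right; exact ⟨ha, hb⟩

/-- The growth function of the direct product is at most the product.

Proof. The ball of radius `n` is contained in the product of the balls of radius `n` (`wd_prod`). -/
theorem gr_prod_le {T : Set G} {S : Set H} (hT : T.Finite) (hS : S.Finite) (n : ℕ) :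
    gr (PS T S) n ≤ gr T n * gr S n := by
  rw [ProdA_gr_eq (ProdA_PS_finite hT hS) n, ProdA_gr_eq hT n, ProdA_gr_eq hS n,
    ← Finset.card_product]
  refine Finset.card_le_card ?_
  intro p hp
  rw [ProdA_mem_ball, wd_prod] at hp
  obtain ⟨k, m, hkm, h1, h2⟩ := hp
  rw [Finset.mem_product, ProdA_mem_ball, ProdA_mem_ball]
  exact ⟨ProdA_wd_mono (by omega) h1, ProdA_wd_mono (by omega) h2⟩

/-- Proof. The elements `(1, h)`. -/
theorem gr_le_gr_prod {T : Set G} {S : Set H} (hT : T.Finite) (hS : S.Finite) (n : ℕ) :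
    gr S n ≤ gr (PS T S) n := by
  rw [ProdA_gr_eq (ProdA_PS_finite hT hS) n, ProdA_gr_eq hS n]
  refine Finset.card_le_card_of_injOn (fun h => ((1 : G), h)) ?_ ?_
  · intro h hh
    have hh' := (ProdA_mem_ball hS n h).1 hh
    refine (ProdA_mem_ball _ n _).2 ((wd_prod T S n _).2 ⟨0, n, by omega, ProdA_wd_one T 0, hh'⟩)
  · intro a _ b _ hab
    exact (Prod.ext_iff.1 hab).2

/-- the length of an element -/
noncomputable def ProdA_len (T : Set G) (g : G) : ℕ := sInf {k | Wd T k g}

theorem ProdA_len_le {T : Set G} {g : G} {k : ℕ} (h : Wd T k g) : ProdA_len T g ≤ k :=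
  Nat.sInf_le h

theorem ProdA_wd_len {T : Set G} {g : G} {k : ℕ} (h : Wd T k g) : Wd T (ProdA_len T g) g :=
  Nat.sInf_mem (s := {k | Wd T k g}) ⟨k, h⟩

theorem ProdA_gr_sum {T : Set G} {S : Set H} (hT : T.Finite) (hS : S.Finite) (n : ℕ) :
    gr (PS T S) n = ∑ g ∈ ProdA_ball hT n, gr S (n - ProdA_len T g) := by
  rw [ProdA_gr_eq (ProdA_PS_finite hT hS) n]
  have h1 : ∀ g ∈ ProdA_ball hT n,
      gr S (n - ProdA_len T g) = (ProdA_ball hS (n - ProdA_len T g)).card := by
    intro g _
    exact ProdA_gr_eq hS _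
  rw [Finset.sum_congr rfl h1, ← Finset.card_sigma]
  refine Finset.card_bij (fun p _ => ⟨p.1, p.2⟩) ?_ ?_ ?_
  · intro p hp
    rw [ProdA_mem_ball, wd_prod] at hp
    obtain ⟨k, m, hkm, h1, h2⟩ := hp
    rw [Finset.mem_sigma, ProdA_mem_ball, ProdA_mem_ball]
    have h3 := ProdA_len_le h1
    exact ⟨ProdA_wd_mono (by omega) h1, ProdA_wd_mono (by simp only; omega) h2⟩
  · intro p _ q _ hpq
    have h := Sigma.mk.inj_iff.1 hpq
    exact Prod.ext h.1 (eq_of_heq h.2)
  · rintro ⟨a, b⟩ hab
    rw [Finset.mem_sigma, ProdA_mem_ball, ProdA_mem_ball] at hab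
    obtain ⟨h1, h2⟩ := hab
    simp only at h1 h2
    refine ⟨(a, b), ?_, rfl⟩
    rw [ProdA_mem_ball, wd_prod]
    have h3 := ProdA_len_le h1
    exact ⟨ProdA_len T a, n - ProdA_len T a, by omega, ProdA_wd_len h1, h2⟩

/-- One step in the direct product.

Proof. For `g : G` with `Wd T (n+1) g` let `|g| ≤ n + 1` be the least `k` with `Wd T k g`. By `wd_prod` the ball of radius `k` of
the product is the disjoint union over `g`, `|g| ≤ k`, of `{g} × {h | Wd S (k - |g|) h}`, so
`gr (PS T S) k = ∑ g, |g| ≤ k, gr S (k - |g|)`. The terms of `gr (PS T S) (n+1)` with `|g| ≤ n - M` (i.e.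
`|g| + M ≤ n`) are at most `(1 + 1/K)` times those of `gr (PS T S) n` by `hM`, and the others (`n < |g| + M`,
`n + 1 - |g| ≤ M`) are at most `gr S M`, and there are at most `gr T (n+1)` of them. -/
theorem gr_prod_step {T : Set G} {S : Set H} (hT : T.Finite) (hS : S.Finite) (K M n : ℕ)
    (hM : ∀ m, M ≤ m → K * gr S (m + 1) ≤ (K + 1) * gr S m) :
    K * gr (PS T S) (n + 1) ≤ (K + 1) * gr (PS T S) n + K * (gr T (n + 1) * gr S M) := by
  rw [ProdA_gr_sum hT hS (n + 1), ProdA_gr_sum hT hS n, Finset.mul_sum]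
  have hmono := (gr_mono' hS).1
  have hterm : ∀ g ∈ ProdA_ball hT (n + 1), K * gr S (n + 1 - ProdA_len T g) ≤
      (if ProdA_len T g + M ≤ n then (K + 1) * gr S (n - ProdA_len T g) else 0) + K * gr S M := by
    intro g _
    split_ifs with h
    · have h1 := hM (n - ProdA_len T g) (by omega)
      have h2 : n + 1 - ProdA_len T g = n - ProdA_len T g + 1 := by omega
      rw [h2]
      omega
    · have h1 : gr S (n + 1 - ProdA_len T g) ≤ gr S M := hmono (by omega)
      have h2 := Nat.mul_le_mul_left K h1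
      omega
  refine le_trans (Finset.sum_le_sum hterm) ?_
  rw [Finset.sum_add_distrib, Finset.sum_const, smul_eq_mul, ← Finset.sum_filter, Finset.mul_sum,
    ProdA_gr_eq hT (n + 1)]
  have hsub : (ProdA_ball hT (n + 1)).filter (fun g => ProdA_len T g + M ≤ n) ⊆ ProdA_ball hT n := by
    intro g hg
    rw [Finset.mem_filter, ProdA_mem_ball] at hg
    rw [ProdA_mem_ball]
    exact ProdA_wd_mono (by omega) (ProdA_wd_len hg.1)
  have h3 := Finset.sum_le_sum_of_subset (f := fun g => (K + 1) * gr S (n - ProdA_len T g)) hsub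
  have h4 : (ProdA_ball hT (n + 1)).card * (K * gr S M) =
      K * ((ProdA_ball hT (n + 1)).card * gr S M) := by ring
  rw [h4]
  exact Nat.add_le_add_right h3 _

end Gri98
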