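import Pool.Agent.W_afafb9_h98.Rho
import Pool.Agent.W_afafb9_h98.WordsB

/-!
# Words in generating sets of `G × Γ_ω`

(`Rho`, `WordsB` are stubs being proved by others; use their statements.)
-/

set_option autoImplicit false

namespace Gri98

open scoped Classical

variable {G : Type*} [Group G]

/-- the standard generating set of `G × Γ_ω`, as permutations of `Om ⊕ G` -/
def rB (ω : ℕ → Bt) (hω : Ok ω) (T : Set G) : Set (Equiv.Perm (Om ⊕ G)) :=
  (fun t : G => rho (t, (1 : Equiv.Perm Om))) '' T ∪ (fun s : Equiv.Perm Om => rho ((1 : G), s)) '' stdS ω hω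

theorem rCls_rho_inl (g : G) (σ : Equiv.Perm Om) (x : Om) : rho (g, σ) (Sum.inl x) = Sum.inl (σ x) := rfl

theorem rCls_x0_mem (v : List (Equiv.Perm Om)) : x0 ∈ orbL x0 v := by
  cases v with
  | nil => exact Finset.mem_singleton_self _
  | cons s v => exact Finset.mem_insert_self _ _

theorem rCls_step (g : G) (σ : Equiv.Perm Om) (w : List (Equiv.Perm (Om ⊕ G))) (v : List (Equiv.Perm Om))
    (h : orbL (Sum.inl x0 : Om ⊕ G) w = (orbL x0 v).image Sum.inl) :
    orbL (Sum.inl x0 : Om ⊕ G) (rho (g, σ) :: w) = (orbL x0 (σ :: v)).image Sum.inl := by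
  ext y
  simp only [orbL, Finset.mem_insert, Finset.mem_image, h]
  constructor
  · rintro (rfl | ⟨z, ⟨x, hx, rfl⟩, rfl⟩)
    · exact ⟨x0, Or.inl rfl, rfl⟩
    · exact ⟨σ x, Or.inr ⟨x, hx, rfl⟩, rfl⟩
  · rintro ⟨z, rfl | ⟨x, hx, rfl⟩, rfl⟩
    · exact Or.inl rfl
    · exact Or.inr ⟨Sum.inl x, ⟨x, hx, rfl⟩, rfl⟩

theorem rCls_step_one (g : G) (w : List (Equiv.Perm (Om ⊕ G))) (v : List (Equiv.Perm Om))
    (h : orbL (Sum.inl x0 : Om ⊕ G) w = (orbL x0 v).image Sum.inl) :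
    orbL (Sum.inl x0 : Om ⊕ G) (rho (g, (1 : Equiv.Perm Om)) :: w) = (orbL x0 v).image Sum.inl := by
  rw [rCls_step g 1 w v h]
  congr 1
  ext y
  simp only [orbL, Finset.mem_insert, Finset.mem_image]
  constructor
  · rintro (rfl | ⟨x, hx, rfl⟩)
    · exact rCls_x0_mem v
    · exact hx
  · intro hy
    exact Or.inr ⟨y, hy, rfl⟩

theorem rCls_wd_cons {T : Set G} {n : ℕ} {g t : G} (h : Wd T n g) (ht : t ∈ T ∨ t⁻¹ ∈ T) : Wd T (n + 1) (t * g) := by
  obtain ⟨l, hl, hm, hp⟩ := h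
  refine ⟨t :: l, ?_, ?_, ?_⟩
  · simp only [List.length_cons]
    omega
  · intro x hx
    rcases List.mem_cons.1 hx with rfl | hx
    · exact ht
    · exact hm x hx
  · rw [List.prod_cons, hp]

theorem rCls_wd_mono {T : Set G} {n m : ℕ} {g : G} (h : Wd T n g) (hnm : n ≤ m) : Wd T m g := by
  obtain ⟨l, hl, hm, hp⟩ := h
  exact ⟨l, hl.trans hnm, hm, hp⟩

theorem rCls_cases {ω : ℕ → Bt} (hω : Ok ω) {T : Set G} {s : Equiv.Perm (Om ⊕ G)}
    (h : s ∈ rB ω hω T ∨ s⁻¹ ∈ rB ω hω T) :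
    (∃ t : G, (t ∈ T ∨ t⁻¹ ∈ T) ∧ s = rho (t, (1 : Equiv.Perm Om))) ∨
      ∃ σ : Equiv.Perm Om, (σ ∈ stdS ω hω ∨ σ⁻¹ ∈ stdS ω hω) ∧ s = rho ((1 : G), σ) := by
  rcases h with (⟨t, ht, rfl⟩ | ⟨σ, hσ, rfl⟩) | (⟨t, ht, h⟩ | ⟨σ, hσ, h⟩)
  · exact Or.inl ⟨t, Or.inl ht, rfl⟩
  · exact Or.inr ⟨σ, Or.inl hσ, rfl⟩
  · refine Or.inl ⟨t⁻¹, Or.inr (by rwa [inv_inv]), ?_⟩
    have h' : s = (rho (t, (1 : Equiv.Perm Om)))⁻¹ := by
      rw [← inv_inv s]
      exact congrArg _ h.symm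
    rw [h', ← map_inv, Prod.inv_mk, inv_one]
  · refine Or.inr ⟨σ⁻¹, Or.inr (by rwa [inv_inv]), ?_⟩
    have h' : s = (rho ((1 : G), σ))⁻¹ := by
      rw [← inv_inv s]
      exact congrArg _ h.symm
    rw [h', ← map_inv, Prod.inv_mk, inv_one]

/-- Words in the standard generating set.

Proof. Induction on `w`. A letter is `rho (t, 1)` or `rho (t⁻¹, 1)` with `t ∈ T`, or `rho (1, s)`, `rho (1, s⁻¹)` with
`s ∈ stdS ω hω` (`rho` is a homomorphism). In the first case add the letter to the word of `g` and keep the word `v` of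
`τ`; `rho (t, 1)` fixes the points `inl x`, and `inl x0` is a site anyway, so the sites do not change
(`x0 ∈ orbL x0 v`). In the second case `v` becomes `s :: v` and `orbL (inl x0) (rho (1, s) :: w) = insert (inl x0) (image (rho (1,s)) …)`
is the image of `orbL x0 (s :: v)` under `inl`. -/
theorem rcls_std {ω : ℕ → Bt} (hω : Ok ω) (T : Set G) (w : List (Equiv.Perm (Om ⊕ G)))
    (hw : ∀ s ∈ w, s ∈ rB ω hω T ∨ s⁻¹ ∈ rB ω hω T) :
    ∃ (g : G) (v : List (Equiv.Perm Om)), v.length ≤ w.length ∧ (∀ s ∈ v, s ∈ stdS ω hω ∨ s⁻¹ ∈ stdS ω hω) ∧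
      Wd T w.length g ∧ w.prod = rho (g, v.prod) ∧
      orbL (Sum.inl x0 : Om ⊕ G) w = (orbL x0 v).image Sum.inl := by
  induction w with
  | nil =>
    refine ⟨1, [], le_refl _, ?_, ⟨[], le_refl _, ?_, rfl⟩, ?_, ?_⟩
    · intro s hs
      simp at hs
    · intro s hs
      simp at hs
    · simp only [List.prod_nil]
      exact (map_one rho).symm
    · ext y
      simp only [orbL, Finset.mem_singleton, Finset.mem_image]
      constructor
      · rintro rfl
        exact ⟨x0, rfl, rfl⟩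
      · rintro ⟨x, rfl, rfl⟩
        rfl
  | cons s w ih =>
    obtain ⟨g, v, hlen, hv, hwd, hprod, horb⟩ := ih fun t ht => hw t (List.mem_cons_of_mem _ ht)
    rcases rCls_cases hω (hw s List.mem_cons_self) with ⟨t, ht, rfl⟩ | ⟨σ, hσ, rfl⟩
    · refine ⟨t * g, v, ?_, hv, ?_, ?_, ?_⟩
      · simp only [List.length_cons]
        omega
      · exact rCls_wd_cons hwd ht
      · rw [List.prod_cons, hprod, ← map_mul, Prod.mk_mul_mk, one_mul]
      · exact rCls_step_one t w v horb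
    · refine ⟨g, σ :: v, ?_, ?_, ?_, ?_, ?_⟩
      · simp only [List.length_cons]
        omega
      · intro x hx
        rcases List.mem_cons.1 hx with rfl | hx
        · exact hσ
        · exact hv x hx
      · exact rCls_wd_mono hwd (Nat.le_succ _)
      · rw [List.prod_cons, hprod, ← map_mul, Prod.mk_mul_mk, one_mul, List.prod_cons]
      · exact rCls_step 1 σ w v horb

theorem rCls_stdS_finite (ω : ℕ → Bt) (hω : Ok ω) : (stdS ω hω).Finite := by
  unfold stdS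
  exact Set.toFinite _

theorem rCls_rho_mem {ω : ℕ → Bt} (hω : Ok ω) {T : Set G} (hT : Subgroup.closure T = ⊤) (g : G) :
    rho (g, (1 : Equiv.Perm Om)) ∈ Subgroup.closure (rB ω hω T) := by
  have hg : g ∈ Subgroup.closure T := by
    rw [hT]
    exact Subgroup.mem_top g
  induction hg using Subgroup.closure_induction with
  | mem x hx => exact Subgroup.subset_closure (Or.inl ⟨x, hx, rfl⟩)
  | one =>
    have h : ((1 : G), (1 : Equiv.Perm Om)) = 1 := rfl
    rw [h, map_one]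
    exact Subgroup.one_mem _
  | mul x y _ _ hx hy =>
    have h : rho (x * y, (1 : Equiv.Perm Om)) = rho (x, (1 : Equiv.Perm Om)) * rho (y, (1 : Equiv.Perm Om)) := by
      rw [← map_mul, Prod.mk_mul_mk, one_mul]
    rw [h]
    exact Subgroup.mul_mem _ hx hy
  | inv x _ hx =>
    have h : rho (x⁻¹, (1 : Equiv.Perm Om)) = (rho (x, (1 : Equiv.Perm Om)))⁻¹ := by
      rw [← map_inv, Prod.inv_mk, inv_one]
    rw [h]
    exact Subgroup.inv_mem _ hx

theorem rCls_rho_mem_right {ω : ℕ → Bt} (hω : Ok ω) (D : Subgroup (Equiv.Perm (Om ⊕ G)))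
    (hD : ∀ s ∈ stdS ω hω, rho ((1 : G), s) ∈ D) {σ : Equiv.Perm Om} (hσ : σ ∈ Gam ω hω) :
    rho ((1 : G), σ) ∈ D := by
  unfold Gam at hσ
  induction hσ using Subgroup.closure_induction with
  | mem x hx => exact hD x hx
  | one =>
    have h : ((1 : G), (1 : Equiv.Perm Om)) = 1 := rfl
    rw [h, map_one]
    exact Subgroup.one_mem _
  | mul x y _ _ hx hy =>
    have h : rho ((1 : G), x * y) = rho ((1 : G), x) * rho ((1 : G), y) := by
      rw [← map_mul, Prod.mk_mul_mk, one_mul]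
    rw [h]
    exact Subgroup.mul_mem _ hx hy
  | inv x _ hx =>
    have h : rho ((1 : G), x⁻¹) = (rho ((1 : G), x))⁻¹ := by
      rw [← map_inv, Prod.inv_mk, inv_one]
    rw [h]
    exact Subgroup.inv_mem _ hx

theorem rCls_closure_up {ω : ℕ → Bt} (hω : Ok ω) {T : Set G} (hT : Subgroup.closure T = ⊤)
    {A : Set (G × Equiv.Perm Om)}
    (hAc : Subgroup.closure A = (⊤ : Subgroup G).prod (Gam ω hω)) :
    Subgroup.closure (rho '' A) ≤ Subgroup.closure (rB ω hω T) := by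
  rw [Subgroup.closure_le]
  rintro _ ⟨⟨g, σ⟩, hp, rfl⟩
  have h1 : (g, σ) ∈ (⊤ : Subgroup G).prod (Gam ω hω) := hAc ▸ Subgroup.subset_closure hp
  have h2 : σ ∈ Gam ω hω := (Subgroup.mem_prod.1 h1).2
  have h3 : rho (g, σ) = rho (g, (1 : Equiv.Perm Om)) * rho ((1 : G), σ) := by
    rw [← map_mul, Prod.mk_mul_mk, one_mul, mul_one]
  rw [h3]
  exact Subgroup.mul_mem _ (rCls_rho_mem hω hT g)
    (rCls_rho_mem_right hω _ (fun s hs => Subgroup.subset_closure (Or.inr ⟨s, hs, rfl⟩)) h2)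

/-- Upper bound for the pairs `(σ, R)`.

Proof. `Subgroup.closure (rho '' A) = (Subgroup.closure A).map rho` is contained in `Subgroup.closure (rB ω hω T)`: an element
`(g, τ)`, `τ ∈ Gam ω hω` is `(g, 1) * (1, τ)`, `rho (g, 1)` is in the closure because `g ∈ Subgroup.closure T = ⊤`, and
`rho (1, τ)` because `τ ∈ Subgroup.closure (stdS ω hω)`. By `conv3` (`B := rho '' A`, `A := rB ω hω T`) there is `C`, and a word
`w` in `rho '' A` of length at most `m` with `w.prod = σ`, `R ⊆ orbL (inl x0) w` becomes a word `w'` in `rB`, `w'.length ≤ C * m`,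
with the same product and more sites. By `rcls_std` `σ = rho (g, v.prod)`, `R ⊆ (orbL x0 v).image inl`, so `R = R'.image inl` with
`R' = (orbL x0 v).filter (inl · ∈ R) ⊆ orbL x0 v`, and by `conv1` there is `(γ, l)`, `l.length ≤ v.length`, `ev ω γ l = ⇑v.prod`,
`R' ⊆ orb ω γ l`. `Wd T n g` is monotone in `n`. -/
theorem rcls_up {ω : ℕ → Bt} (hω : Ok ω) {T : Set G} (hT : Subgroup.closure T = ⊤)
    {A : Set (G × Equiv.Perm Om)} (hA : A.Finite)
    (hAc : Subgroup.closure A = (⊤ : Subgroup G).prod (Gam ω hω)) :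
    ∃ C : ℕ, 1 ≤ C ∧ ∀ (m : ℕ) (σ : Equiv.Perm (Om ⊕ G)) (R : Finset (Om ⊕ G)),
      Rp (Sum.inl x0) (rho '' A) m σ R →
      ∃ (g : G) (τ : Equiv.Perm Om) (R' : Finset Om), σ = rho (g, τ) ∧ R = R'.image Sum.inl ∧
        Wd T (C * m) g ∧ ((⇑τ : Om → Om), R') ∈ Prs ω (C * m) := by
  obtain ⟨C, hC1, hC⟩ := conv3 (Sum.inl x0 : Om ⊕ G) (A := rB ω hω T) (B := rho '' A) (hA.image _)
    (rCls_closure_up hω hT hAc)
  refine ⟨C, hC1, ?_⟩
  rintro m σ R ⟨w, hwl, hwm, hwp, hwR⟩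
  obtain ⟨w', hw'm, hw'l, hw'p, hw'o⟩ := hC w hwm
  obtain ⟨g, v, hvl, hvm, hwd, hprod, horb⟩ := rcls_std hω T w' hw'm
  obtain ⟨γ, l, hl, hev, hor⟩ := conv1 hω v hvm
  have hle : w'.length ≤ C * m := hw'l.trans (Nat.mul_le_mul_left C hwl)
  have hR : R ⊆ (orbL x0 v).image Sum.inl := by
    rw [← horb]
    exact hwR.trans hw'o
  refine ⟨g, v.prod, (orbL x0 v).filter (fun x => (Sum.inl x : Om ⊕ G) ∈ R), ?_, ?_, ?_, ?_⟩
  · rw [← hwp, ← hw'p, hprod]
  · ext y
    simp only [Finset.mem_image, Finset.mem_filter]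
    constructor
    · intro hy
      obtain ⟨x, hx, rfl⟩ := Finset.mem_image.1 (hR hy)
      exact ⟨x, ⟨hx, hy⟩, rfl⟩
    · rintro ⟨x, ⟨_, hx⟩, rfl⟩
      exact hx
  · exact rCls_wd_mono hwd hle
  · refine ⟨γ, l, hl.trans (hvl.trans hle), hev, ?_⟩
    intro x hx
    exact hor (Finset.mem_filter.1 hx).1

theorem rCls_map_orb (v : List (Equiv.Perm Om)) :
    orbL (Sum.inl x0 : Om ⊕ G) (v.map fun s => rho ((1 : G), s)) = (orbL x0 v).image Sum.inl := by
  induction v with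
  | nil =>
    ext y
    simp only [List.map_nil, orbL, Finset.mem_singleton, Finset.mem_image]
    constructor
    · rintro rfl
      exact ⟨x0, rfl, rfl⟩
    · rintro ⟨x, rfl, rfl⟩
      rfl
  | cons s v ih =>
    rw [List.map_cons]
    exact rCls_step 1 s _ v ih

/-- Lower bound for the number of sites.

Proof. Let `B = (fun s => rho (1, s)) '' stdS ω hω`, which is finite with `Subgroup.closure B ≤ Subgroup.closure (rho '' A)` (`(1, s)` lies
in `(⊤).prod (Gam ω hω) = Subgroup.closure A`); let `C₀` be the constant of `conv3`. For `m` take `(γ, l)` with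
`l.length ≤ m` and `(orb ω γ l).card = Dl ω m` (`dl_exists`), the standard word `w` of `conv2`, of length at most
`2 * m + 1`, with `orb ω γ l ⊆ orbL x0 w`, and `w.map (fun s => rho (1, s))`, whose sites are the images under `inl` of the sites of
`w` (induction). `conv3` gives a word `w'` in `rho '' A` of length at most `C₀ * (2 * m + 1) ≤ 2 * C₀ * (m + 1)`. Take
`R = (orb ω γ l).image inl`. -/
theorem rcls_low {ω : ℕ → Bt} (hω : Ok ω) {A : Set (G × Equiv.Perm Om)}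
    (hAc : Subgroup.closure A = (⊤ : Subgroup G).prod (Gam ω hω)) :
    ∃ C : ℕ, 1 ≤ C ∧ ∀ m : ℕ, ∃ (σ : Equiv.Perm (Om ⊕ G)) (R : Finset (Om ⊕ G)),
      Rp (Sum.inl x0) (rho '' A) (C * (m + 1)) σ R ∧ R.card = Dl ω m := by
  have hfin : ((fun s : Equiv.Perm Om => rho ((1 : G), s)) '' stdS ω hω).Finite := (rCls_stdS_finite ω hω).image _
  have hcl : Subgroup.closure ((fun s : Equiv.Perm Om => rho ((1 : G), s)) '' stdS ω hω) ≤
      Subgroup.closure (rho '' A) := by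
    rw [Subgroup.closure_le]
    rintro _ ⟨s, hs, rfl⟩
    have h1 : ((1 : G), s) ∈ Subgroup.closure A := by
      rw [hAc]
      exact Subgroup.mem_prod.2 ⟨Subgroup.mem_top _, Subgroup.subset_closure hs⟩
    have h2 : rho ((1 : G), s) ∈ (Subgroup.closure A).map rho := ⟨_, h1, rfl⟩
    rw [MonoidHom.map_closure] at h2
    exact h2
  obtain ⟨C, hC1, hC⟩ := conv3 (Sum.inl x0 : Om ⊕ G) (A := rho '' A)
    (B := (fun s : Equiv.Perm Om => rho ((1 : G), s)) '' stdS ω hω) hfin hcl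
  refine ⟨2 * C, by omega, ?_⟩
  intro m
  obtain ⟨γ, l, hl, hcard⟩ := dl_exists ω m
  obtain ⟨w, hwl, hwm, hwp, hwo⟩ := conv2 hω γ l
  obtain ⟨w', hw'm, hw'l, hw'p, hw'o⟩ := hC (w.map fun s => rho ((1 : G), s)) (by
    intro s hs
    obtain ⟨x, hx, rfl⟩ := List.mem_map.1 hs
    exact Or.inl ⟨x, hwm x hx, rfl⟩)
  refine ⟨w'.prod, (orb ω γ l).image Sum.inl, ⟨w', ?_, hw'm, rfl, ?_⟩, ?_⟩
  · refine hw'l.trans ?_
    rw [List.length_map]
    have h1 : w.length ≤ 2 * (m + 1) := by omega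
    calc C * w.length ≤ C * (2 * (m + 1)) := Nat.mul_le_mul_left C h1
      _ = 2 * C * (m + 1) := by ring
  · refine subset_trans ?_ hw'o
    rw [rCls_map_orb]
    exact Finset.image_subset_image hwo
  · rw [Finset.card_image_of_injective _ Sum.inl_injective, hcard]

end Gri98
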