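import Pool.Agent.W_afafb9_h98.Slow

/-!
# The choice of `ω` for a given subexponential function
-/

set_option autoImplicit false

namespace Gri98

open Filter Topology
open scoped Classical

theorem sel_ev {g : ℕ → ℕ} (hg : Tendsto (fun n : ℕ => (g n : ℝ) ^ ((1 : ℝ) / (n : ℝ))) atTop (𝓝 1)) (A : ℕ) :
    ∀ᶠ n in atTop, A * Nat.clog 2 (g n + 1) ≤ n := by
  rcases Nat.eq_zero_or_pos A with rfl | hA
  · filter_upwards with n
    simp
  · have hA' : (0 : ℝ) < 2 * (A : ℝ) := by positivity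
    have hc : (1 : ℝ) < (2 : ℝ) ^ ((1 : ℝ) / (2 * (A : ℝ))) :=
      Real.one_lt_rpow (by norm_num) (by positivity)
    have h1 := hg.eventually (gt_mem_nhds hc)
    filter_upwards [h1, eventually_ge_atTop (max A 1)] with n hn hn2
    have hnA : A ≤ n := le_trans (le_max_left _ _) hn2
    have hn1 : 1 ≤ n := le_trans (le_max_right _ _) hn2
    have hn0 : (0 : ℝ) < (n : ℝ) := by exact_mod_cast hn1
    have hlt : (g n : ℝ) < (2 : ℝ) ^ ((n : ℝ) / (2 * (A : ℝ))) := by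
      have h2 : ((g n : ℝ) ^ ((1 : ℝ) / (n : ℝ))) ^ (n : ℝ) < ((2 : ℝ) ^ ((1 : ℝ) / (2 * (A : ℝ)))) ^ (n : ℝ) :=
        Real.rpow_lt_rpow (by positivity) hn hn0
      rw [← Real.rpow_mul (by positivity), ← Real.rpow_mul (by positivity), one_div_mul_cancel hn0.ne',
        Real.rpow_one] at h2
      have h3 : (1 : ℝ) / (2 * (A : ℝ)) * (n : ℝ) = (n : ℝ) / (2 * (A : ℝ)) := by ring
      rwa [h3] at h2
    have hq1 : 1 ≤ n / A := (Nat.one_le_div_iff hA).2 hnA
    have hq2 : n < (n / A + 1) * A := by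
      have := Nat.lt_succ_self (n / A)
      exact (Nat.div_lt_iff_lt_mul hA).1 this
    have hq3 : (n : ℝ) / (2 * (A : ℝ)) ≤ ((n / A : ℕ) : ℝ) := by
      rw [div_le_iff₀ hA']
      have h4 : n ≤ (n / A) * (2 * A) := by
        have h5 : (n / A + 1) * A ≤ (n / A + n / A) * A := Nat.mul_le_mul_right A (by omega)
        have h6 : (n / A + n / A) * A = (n / A) * (2 * A) := by ring
        omega
      exact_mod_cast h4
    have h7 : (g n : ℝ) < (2 : ℝ) ^ (n / A : ℕ) := by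
      refine lt_of_lt_of_le hlt ?_
      rw [← Real.rpow_natCast]
      exact Real.rpow_le_rpow_of_exponent_le (by norm_num) hq3
    have h8 : g n + 1 ≤ 2 ^ (n / A) := by
      have h9 : g n < 2 ^ (n / A) := by exact_mod_cast h7
      omega
    have h10 : Nat.clog 2 (g n + 1) ≤ n / A := Nat.clog_le_of_le_pow h8
    calc A * Nat.clog 2 (g n + 1) ≤ A * (n / A) := Nat.mul_le_mul_left A h10
      _ ≤ n := Nat.mul_div_le n A

/-- For every subexponential function `g` there is `ω` with `g n ≤ 2 ^ Dl ω n` for large `n`.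

Proof. For every `A : ℕ` the inequality `A * Nat.clog 2 (g n + 1) ≤ n` holds for all large `n` (`g n ^ (1/n) → 1` gives
`g n ≤ 2 ^ (n / (2 A + 2))`-like bounds; real logarithms are convenient: `log (g n) / n → 0`). Let `φ k` be the largest `A ≤ k`
such that it holds for all `n ≥ k` (`Nat.findGreatest`; `A = 0` is always possible); then `φ → ∞`. Take `ω` by `slow`. For large
`n` `φ n ≥ 1`, `φ n * Nat.clog 2 (g n + 1) ≤ n ≤ Dl ω n * φ n`, so `Nat.clog 2 (g n + 1) ≤ Dl ω n` and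
`g n ≤ 2 ^ Nat.clog 2 (g n + 1) ≤ 2 ^ Dl ω n`. -/
theorem sel {g : ℕ → ℕ} (hg : Tendsto (fun n : ℕ => (g n : ℝ) ^ ((1 : ℝ) / (n : ℝ))) atTop (𝓝 1)) :
    ∃ ω : ℕ → Bt, Ok ω ∧ (∀ s : Bt, s ≠ .e → ∀ n, ∃ m ≥ n, ω m = s) ∧
      ∀ᶠ n in atTop, g n ≤ 2 ^ Dl ω n := by
  obtain ⟨φ, hφd⟩ : ∃ φ : ℕ → ℕ, ∀ k, φ k =
      Nat.findGreatest (fun A => ∀ n ≥ k, A * Nat.clog 2 (g n + 1) ≤ n) k := ⟨_, fun _ => rfl⟩
  have hφ : Tendsto φ atTop atTop := by
    rw [tendsto_atTop]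
    intro A
    obtain ⟨N, hN⟩ := eventually_atTop.1 (sel_ev hg A)
    filter_upwards [eventually_ge_atTop (max N A)] with k hk
    rw [hφd]
    refine Nat.le_findGreatest (le_trans (le_max_right _ _) hk) ?_
    intro n hn
    exact hN n (le_trans (le_trans (le_max_left _ _) hk) hn)
  have hφs : ∀ n, φ n * Nat.clog 2 (g n + 1) ≤ n := by
    intro n
    have h := Nat.findGreatest_spec (P := fun A => ∀ m ≥ n, A * Nat.clog 2 (g m + 1) ≤ m)
      (Nat.zero_le n) (by intro m _; simp)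
    rw [← hφd] at h
    exact h n le_rfl
  obtain ⟨ω, h1, h2, h3⟩ := slow hφ
  refine ⟨ω, h1, h2, ?_⟩
  filter_upwards [h3, hφ.eventually_ge_atTop 1] with n hn hn1
  have h4 : φ n * Nat.clog 2 (g n + 1) ≤ φ n * Dl ω n := by
    rw [Nat.mul_comm (φ n) (Dl ω n)]
    exact (hφs n).trans hn
  have h5 : Nat.clog 2 (g n + 1) ≤ Dl ω n := Nat.le_of_mul_le_mul_left h4 (by omega)
  calc g n ≤ g n + 1 := Nat.le_succ _
    _ ≤ 2 ^ Nat.clog 2 (g n + 1) := Nat.le_pow_clog (by norm_num) _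
    _ ≤ 2 ^ Dl ω n := Nat.pow_le_pow_right (by norm_num) h5

end Gri98
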