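import Pool.Agent.W_afafb9_h98.Fin
import Pool.Agent.W_afafb9_h98.ProdA
import Pool.Agent.W_afafb9_h98.RCls
import Pool.Agent.W_afafb9_h98.Sel

/-!
# Wreath products over `G × Γ_ω`
-/

set_option autoImplicit false

namespace Gri98

open Filter Topology
open scoped Classical

variable {G : Type*} [Group G]

theorem gfin_base {T : Set G} (hT : T.Finite) {ω : ℕ → Bt}
    (hs : ∀ᶠ n in atTop, gr T n ≤ 2 ^ Dl ω n) : ∃ K : ℕ, 1 ≤ K ∧ ∀ n, gr T n ≤ K ^ Dl ω n := by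
  obtain ⟨n₀, h0⟩ := eventually_atTop.1 hs
  refine ⟨gr T n₀ + 2, by omega, fun n => ?_⟩
  rcases le_total n₀ n with h | h
  · exact (h0 n h).trans (Nat.pow_le_pow_left (by omega) _)
  · calc gr T n ≤ gr T n₀ := (gr_mono' hT).1 h
      _ ≤ (gr T n₀ + 2) ^ 1 := by rw [pow_one]; omega
      _ ≤ (gr T n₀ + 2) ^ Dl ω n := Nat.pow_le_pow_right (by omega) (one_le_dl ω n)

theorem gfin_main {T : Set G} (hT : T.Finite) (hTc : Subgroup.closure T = ⊤) {ω : ℕ → Bt} (hω : Ok ω)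
    (hi : ∀ s : Bt, s ≠ .e → ∀ n, ∃ m ≥ n, ω m = s) (hsel : ∀ᶠ n in atTop, gr T n ≤ 2 ^ Dl ω n)
    {A : Set (G × Equiv.Perm Om)} (hA : A.Finite)
    (hAc : Subgroup.closure A = (⊤ : Subgroup G).prod (Gam ω hω)) :
    Tendsto (fun n : ℕ => (gr (PW x0 A) (n + 1) : ℝ) / (gr (PW x0 A) n : ℝ)) atTop (𝓝 1) ∧
    Tendsto (fun n : ℕ => (gr (PW x0 A) n : ℝ) ^ ((1 : ℝ) / (n : ℝ))) atTop (𝓝 1) ∧
    ∀ d : ℕ, Tendsto (fun n : ℕ => (gr (PW x0 A) n : ℝ) / (n : ℝ) ^ d) atTop atTop := by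
  obtain ⟨C₁, hC₁, h1⟩ := rcls_up hω hTc hA hAc
  obtain ⟨C₂, hC₂, h2⟩ := rcls_low hω hAc
  obtain ⟨K, hK, h3⟩ := prs_count
  obtain ⟨K₁, hK₁, h4⟩ := gfin_base hT hsel
  obtain ⟨o, ho⟩ : ∃ o : Om ⊕ G, o = Sum.inl x0 := ⟨_, rfl⟩
  obtain ⟨B, hB⟩ : ∃ B : Set (Equiv.Perm (Om ⊕ G)), B = rho '' A := ⟨_, rfl⟩
  rw [← ho, ← hB] at h1 h2
  have hBf : B.Finite := by rw [hB]; exact hA.image _
  have hgr : ∀ n, gr (PW x0 A) n = gr (SW o B) n := fun n => by rw [ho, hB]; exact gr_PW x0 A n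
  have ha : ∀ m, dA o B m ≤ Dl ω (C₁ * m) := by
    intro m
    obtain ⟨σ, R, hR, hc⟩ := dA_exists o B m
    obtain ⟨g, τ, R', -, h6, -, ⟨γ, l, hl, -, hs⟩⟩ := h1 m σ R hR
    rw [← hc, h6, Finset.card_image_of_injective _ Sum.inl_injective]
    exact (Finset.card_le_card hs).trans (card_orb_le_dl hl)
  have hb : ∀ m, Dl ω m ≤ dA o B (C₂ * (m + 1)) := by
    intro m
    obtain ⟨σ, R, hR, hc⟩ := h2 m
    rw [← hc]
    exact card_le_dA hR
  have hc : ∀ m, Dl ω (C₁ * m) ≤ (3 * C₁ * C₂ + 1) * dA o B m := by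
    intro m
    have hd1 := one_le_dA o B m
    rcases lt_or_ge m (2 * C₂) with hm | hm
    · have e1 := dl_le_succ ω (C₁ * m)
      have e2 : C₁ * m ≤ C₁ * (2 * C₂) := Nat.mul_le_mul_left _ hm.le
      calc Dl ω (C₁ * m) ≤ C₁ * m + 1 := e1
        _ ≤ C₁ * (2 * C₂) + 1 := by omega
        _ ≤ 3 * C₁ * C₂ + 1 := by nlinarith
        _ ≤ (3 * C₁ * C₂ + 1) * dA o B m := Nat.le_mul_of_pos_right _ hd1
    · obtain ⟨j, hj⟩ : ∃ j, m / C₂ = j + 1 := by
        have : 2 ≤ m / C₂ := (Nat.le_div_iff_mul_le hC₂).2 hm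
        exact ⟨m / C₂ - 1, by omega⟩
      have hj1 : 1 ≤ j := by
        have : 2 ≤ m / C₂ := (Nat.le_div_iff_mul_le hC₂).2 hm
        omega
      have e1 : C₂ * (j + 1) ≤ m := by
        rw [← hj]
        exact Nat.mul_div_le m C₂
      have e2 : m < C₂ * (j + 1 + 1) := by
        rw [← hj]
        exact Nat.lt_mul_div_succ m hC₂
      have e3 : C₁ * m ≤ 3 * C₁ * C₂ * j := by
        have e4 : m ≤ C₂ * (3 * j) := e2.le.trans (Nat.mul_le_mul_left _ (by omega))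
        calc C₁ * m ≤ C₁ * (C₂ * (3 * j)) := Nat.mul_le_mul_left _ e4
          _ = 3 * C₁ * C₂ * j := by ring
      calc Dl ω (C₁ * m) ≤ Dl ω (3 * C₁ * C₂ * j) := dl_mono ω e3
        _ ≤ 3 * C₁ * C₂ * Dl ω j := dl_mul ω _ _ (by
            have : 0 < 3 * C₁ * C₂ := by positivity
            omega)
        _ ≤ 3 * C₁ * C₂ * dA o B (C₂ * (j + 1)) := Nat.mul_le_mul_left _ (hb j)
        _ ≤ 3 * C₁ * C₂ * dA o B m := Nat.mul_le_mul_left _ (dA_mono o B e1)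
        _ ≤ (3 * C₁ * C₂ + 1) * dA o B m := Nat.mul_le_mul_right _ (Nat.le_succ _)
  have key := crit o hBf (K₀ := (K₁ * K) ^ (3 * C₁ * C₂ + 1)) ?_ ?_ ?_
  · simpa only [hgr] using key
  · intro q
    obtain ⟨C, hC⟩ := orb_sublinear hω hi (q * C₁)
    refine ⟨C, fun n => ?_⟩
    obtain ⟨γ, l, hl, hD⟩ := dl_exists ω (C₁ * n)
    have e1 := hC γ l
    rw [hD] at e1
    have e2 : C₁ * (q * Dl ω (C₁ * n)) ≤ C₁ * (n + C) := by
      calc C₁ * (q * Dl ω (C₁ * n)) = q * C₁ * Dl ω (C₁ * n) := by ring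
        _ ≤ l.length + C := e1
        _ ≤ C₁ * n + C := by omega
        _ ≤ C₁ * n + C₁ * C := by
            have : C ≤ C₁ * C := Nat.le_mul_of_pos_left _ hC₁
            omega
        _ = C₁ * (n + C) := by ring
    have e3 := Nat.le_of_mul_le_mul_left e2 hC₁
    exact (Nat.mul_le_mul_left _ (ha n)).trans e3
  · intro M
    obtain ⟨n, hn⟩ := dl_unb ω M
    exact ⟨_, hn.trans (hb n)⟩
  · intro m
    obtain ⟨hf, hn⟩ := h3 ω hω (C₁ * m)
    have hw := wd_finite hT (C₁ * m)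
    have e1 : (Cls o B m).ncard ≤ gr T (C₁ * m) * (Prs ω (C₁ * m)).ncard := by
      choose g τ R' e1 e2 e3 e4 using fun p : Cls o B m => h1 m p.1.1 p.1.2 p.2
      have : Finite {g : G // Wd T (C₁ * m) g} := hw
      have : Finite (Prs ω (C₁ * m)) := hf
      have e5 : Nat.card (Cls o B m) ≤ Nat.card ({g : G // Wd T (C₁ * m) g} × Prs ω (C₁ * m)) := by
        refine Nat.card_le_card_of_injective
          (fun p => (⟨g p, e3 p⟩, ⟨((⇑(τ p) : Om → Om), R' p), e4 p⟩)) ?_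
        intro p q hpq
        have a1 : g p = g q := congrArg (fun u => (u.1 : G)) hpq
        have a2 : ((⇑(τ p) : Om → Om), R' p) = (⇑(τ q), R' q) :=
          congrArg (fun u => (u.2 : (Om → Om) × Finset Om)) hpq
        have a3 : τ p = τ q := DFunLike.coe_injective (Prod.mk.inj a2).1
        have a4 : R' p = R' q := (Prod.mk.inj a2).2
        apply Subtype.ext
        apply Prod.ext
        · rw [e1 p, e1 q, a1, a3]
        · rw [e2 p, e2 q, a4]
      rw [Nat.card_prod] at e5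
      exact e5
    calc (Cls o B m).ncard ≤ gr T (C₁ * m) * (Prs ω (C₁ * m)).ncard := e1
      _ ≤ K₁ ^ Dl ω (C₁ * m) * K ^ Dl ω (C₁ * m) := Nat.mul_le_mul (h4 _) hn
      _ = (K₁ * K) ^ Dl ω (C₁ * m) := (mul_pow _ _ _).symm
      _ ≤ (K₁ * K) ^ ((3 * C₁ * C₂ + 1) * dA o B m) :=
          Nat.pow_le_pow_right (Nat.mul_pos hK₁ hK) (hc m)
      _ = ((K₁ * K) ^ (3 * C₁ * C₂ + 1)) ^ dA o B m := pow_mul _ _ _

/-- the inclusion of `G × W` into `G × Sym (Om × ℤ)` -/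
def gfinI (G : Type*) [Group G] {H : Type*} [Group H] (W : Subgroup H) : G × W →* G × H :=
  (MonoidHom.id G).prodMap W.subtype

theorem gfinI_apply {H : Type*} [Group H] (W : Subgroup H) (p : G × W) :
    gfinI G W p = (p.1, (p.2 : H)) := rfl

theorem gfinI_inj {H : Type*} [Group H] (W : Subgroup H) : Function.Injective (gfinI G W) := by
  rintro ⟨g, h⟩ ⟨g', h'⟩ e
  rw [gfinI_apply, gfinI_apply] at e
  have e1 := (Prod.mk.inj e).1
  have e2 := (Prod.mk.inj e).2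
  simp only at e1 e2
  rw [e1, Subtype.ext e2]

theorem gfinI_range {H : Type*} [Group H] (W : Subgroup H) :
    (gfinI G W).range = (⊤ : Subgroup G).prod W := by
  ext ⟨g, h⟩
  rw [MonoidHom.mem_range, Subgroup.mem_prod]
  constructor
  · rintro ⟨p, hp⟩
    rw [gfinI_apply] at hp
    refine ⟨trivial, ?_⟩
    rw [← (Prod.mk.inj hp).2]
    exact p.2.2
  · rintro ⟨-, hh⟩
    exact ⟨(g, ⟨h, hh⟩), rfl⟩

/-- finite subsets of `G × W` which generate, and their images in `G × H` -/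
theorem gfinI_closure {H : Type*} [Group H] (W : Subgroup H) (S : Set (G × W)) :
    Subgroup.closure S = ⊤ ↔ Subgroup.closure (gfinI G W '' S) = (⊤ : Subgroup G).prod W := by
  rw [← MonoidHom.map_closure, ← gfinI_range]
  constructor
  · intro h
    rw [h, ← MonoidHom.range_eq_map]
  · intro h
    rw [MonoidHom.range_eq_map] at h
    exact Subgroup.map_injective (gfinI_inj W) h

/-- the result for `G × Γ_ω` in terms of finite sets -/
theorem gfin_final {T : Set G} (hT : T.Finite) (hTc : Subgroup.closure T = ⊤) {ω : ℕ → Bt} (hω : Ok ω)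
    (hi : ∀ s : Bt, s ≠ .e → ∀ n, ∃ m ≥ n, ω m = s) (hsel : ∀ᶠ n in atTop, gr T n ≤ 2 ^ Dl ω n)
    (A : Finset (G × Gam ω hω)) (hA : Subgroup.closure (A : Set (G × Gam ω hω)) = ⊤) :
    ∃ P : Finset (G × Subgroup.closure (SW x0 (stdS ω hω))),
      (∀ p : G × Subgroup.closure (SW x0 (stdS ω hω)), p ∈ P ↔
        (∃ a ∈ A, p.1 = a.1 ∧ (p.2 : Equiv.Perm (Om × ℤ)) = El (a.2 : Equiv.Perm Om) 0) ∨
          (p.1 = 1 ∧ (p.2 : Equiv.Perm (Om × ℤ)) = zz x0)) ∧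
      Subgroup.closure (P : Set (G × Subgroup.closure (SW x0 (stdS ω hω)))) = ⊤ ∧
      Tendsto (fun n : ℕ => (gr (P : Set (G × Subgroup.closure (SW x0 (stdS ω hω)))) n : ℝ) ^
        ((1 : ℝ) / (n : ℝ))) atTop (𝓝 1) ∧
      Tendsto (fun n : ℕ => (gr (P : Set (G × Subgroup.closure (SW x0 (stdS ω hω)))) (n + 1) : ℝ) /
        (gr (P : Set (G × Subgroup.closure (SW x0 (stdS ω hω)))) n : ℝ)) atTop (𝓝 1) := by
  obtain ⟨A', hA'⟩ : ∃ A' : Set (G × Equiv.Perm Om), A' = gfinI G (Gam ω hω) '' (A : Set (G × Gam ω hω)) :=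
    ⟨_, rfl⟩
  have hAf : A'.Finite := by rw [hA']; exact (Finset.finite_toSet A).image _
  have hAc : Subgroup.closure A' = (⊤ : Subgroup G).prod (Gam ω hω) := by
    rw [hA']
    exact (gfinI_closure (Gam ω hω) _).1 hA
  obtain ⟨W, hW⟩ : ∃ W : Subgroup (Equiv.Perm (Om × ℤ)), W = Subgroup.closure (SW x0 (stdS ω hω)) := ⟨_, rfl⟩
  have hPc : Subgroup.closure (PW x0 A') = (⊤ : Subgroup G).prod W := by
    rw [hW]
    exact closure_PW x0 A' (stdS ω hω) hAc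
  rw [← hW]
  have hPf : (PW x0 A').Finite := (hAf.image _).union (Set.finite_singleton _)
  have hpre : ((gfinI G W) ⁻¹' (PW x0 A')).Finite := hPf.preimage (gfinI_inj W).injOn
  obtain ⟨P, hP⟩ : ∃ P : Finset (G × W), (P : Set (G × W)) = (gfinI G W) ⁻¹' (PW x0 A') :=
    ⟨hpre.toFinset, Set.Finite.coe_toFinset _⟩
  have him : gfinI G W '' (P : Set (G × W)) = PW x0 A' := by
    rw [hP, Set.image_preimage_eq_iff]
    intro q hq
    have : q ∈ (gfinI G W).range := by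
      rw [gfinI_range, ← hPc]
      exact Subgroup.subset_closure hq
    exact this
  have hgr : ∀ n, gr (P : Set (G × W)) n = gr (PW x0 A') n := by
    intro n
    rw [← him]
    exact (gr_image (gfinI G W) (gfinI_inj W) _ n).symm
  obtain ⟨e1, e2, -⟩ := gfin_main hT hTc hω hi hsel hAf hAc
  refine ⟨P, fun p => ?_, ?_, ?_, ?_⟩
  · rw [← Finset.mem_coe, hP]
    constructor
    · rintro (⟨q, hq, hqp⟩ | hq)
      · rw [hA'] at hq
        obtain ⟨a, ha, rfl⟩ := hq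
        left
        refine ⟨a, ha, ?_, ?_⟩
        · exact (Prod.mk.inj hqp).1.symm
        · exact (Prod.mk.inj hqp).2.symm
      · right
        have hq' : (p.1, (p.2 : Equiv.Perm (Om × ℤ))) = (1, zz x0) := hq
        exact ⟨(Prod.mk.inj hq').1, (Prod.mk.inj hq').2⟩
    · rintro (⟨a, ha, h1, h2⟩ | ⟨h1, h2⟩)
      · left
        refine ⟨(a.1, (a.2 : Equiv.Perm Om)), ?_, ?_⟩
        · rw [hA']
          exact ⟨a, ha, rfl⟩
        · rw [gfinI_apply, h1, h2]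
      · right
        show gfinI G W p = _
        rw [gfinI_apply, h1, h2]
  · rw [gfinI_closure, him]
    exact hPc
  · simpa only [hgr] using e2
  · simpa only [hgr] using e1

end Gri98
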