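import Pool.Agent.W_afafb9_h98.LDef

/-!
# Generating sets as finite sets
-/

set_option autoImplicit false

namespace Gri98

open scoped Classical

/-- the finite set `T` as a generating set of the group it generates -/
theorem finset_gen {H : Type*} [Group H] (T : Set H) (hT : T.Finite) :
    ∃ S : Finset (Subgroup.closure T), (∀ g : Subgroup.closure T, g ∈ S ↔ (g : H) ∈ T) ∧
      Subgroup.closure (S : Set (Subgroup.closure T)) = ⊤ := by
  have hf : ((Subtype.val : Subgroup.closure T → H) ⁻¹' T).Finite :=
    hT.preimage Subtype.val_injective.injOn
  refine ⟨hf.toFinset, fun g => by simp, ?_⟩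
  rw [Set.Finite.coe_toFinset]
  exact Subgroup.closure_closure_coe_preimage

theorem SW_finite {X : Type*} (o : X) {A : Set (Equiv.Perm X)} (hA : A.Finite) : (SW o A).Finite :=
  (hA.image _).union (Set.finite_singleton _)

end Gri98
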