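import Pool.Agent.W_afafb9_h98.LDef

/-!
# Counting the lamp configurations with a given support
-/

set_option autoImplicit false

namespace Gri98

open scoped Classical

theorem LampCount_sum (m r : ℕ) : ∑ i ∈ Finset.range m, (m - 1 - i).choose r = m.choose (r + 1) := by
  rw [Finset.sum_range_reflect (fun i => i.choose r) m]
  induction m with
  | zero => simp
  | succ n ih => rw [Finset.sum_range_succ, ih, Nat.choose_succ_succ, add_comm]

theorem LampCount_nm {X : Type*} (a : X) (k : ℤ) (U : X →₀ ℤ) (h : U a = 0) :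
    nm (U + Finsupp.single a k) = nm U + k.natAbs := by
  unfold nm
  have h1 : (U + Finsupp.single a k).sum (fun _ k => k.natAbs) =
      U.sum (fun _ k => k.natAbs) + (Finsupp.single a k).sum (fun _ k => k.natAbs) := by
    apply Finsupp.sum_add_index_of_disjoint
    by_cases hk : k = 0
    · simp [hk]
    · rw [Finsupp.support_single_ne_zero a hk]
      simp [h]
  rw [h1, Finsupp.sum_single_index (by simp)]

/-- the signed value -/
def LampCount_v (b : Bool) (i : ℕ) : ℤ := if b then (i : ℤ) + 1 else -((i : ℤ) + 1)

theorem LampCount_v_ne (b : Bool) (i : ℕ) : LampCount_v b i ≠ 0 := by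
  unfold LampCount_v
  split_ifs <;> omega

theorem LampCount_v_abs (b : Bool) (i : ℕ) : (LampCount_v b i).natAbs = i + 1 := by
  unfold LampCount_v
  split_ifs <;> omega

theorem LampCount_v_inj (b c : Bool) (i j : ℕ) (h : LampCount_v b i = LampCount_v c j) :
    b = c ∧ i = j := by
  unfold LampCount_v at h
  cases b <;> cases c <;> simp at h ⊢ <;> omega

theorem LampCount_v_surj (k : ℤ) (h : k ≠ 0) : ∃ b : Bool, ∃ i : ℕ, LampCount_v b i = k := by
  rcases lt_or_gt_of_ne h with h1 | h1
  · refine ⟨false, k.natAbs - 1, ?_⟩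
    unfold LampCount_v
    simp
    omega
  · refine ⟨true, k.natAbs - 1, ?_⟩
    unfold LampCount_v
    simp
    omega

/-- The number of `U : X →₀ ℤ` with support `R` and `ℓ¹`-norm at most `m` is `2^|R| * C(m, |R|)`.

Proof. Induction on `R` (`Finset.induction_on`), for all `m`. `R = ∅`: only `U = 0`, `nm 0 = 0`, and
`2^0 * m.choose 0 = 1`. `R = insert a R'` with `a ∉ R'`, `r = R'.card`: `U ↦ (U a, U.erase a)` is a bijection onto
the pairs `(k, U')` with `k ≠ 0`, `k.natAbs ≤ m`, `U'.support = R'`, `nm U' ≤ m - k.natAbs` (for such `U`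
`nm U = (U a).natAbs + nm (U.erase a)`, e.g. `Finsupp.sum` over `insert a R'`; the inverse is
`U' + Finsupp.single a k`). So the set is the disjoint union over `j ∈ {1, …, m}` and the two signs of copies of the
set for `(R', m - j)`, and the number is
`∑ j ∈ Finset.Icc 1 m, 2 * (2^r * (m - j).choose r) = 2^(r+1) * ∑ i ∈ Finset.range m, i.choose r`, and
`∑ i ∈ Finset.range m, i.choose r = m.choose (r+1)` (`Nat.sum_range_choose_...`/induction on `m` with
Pascal's rule `Nat.choose_succ_succ`).

(One may prefer induction on `m` in the recursive step: `V(R', m+1) = V(R', m) + …`; any proof is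
fine.) -/
theorem lamp_count {X : Type*} (R : Finset X) (m : ℕ) :
    {U : X →₀ ℤ | U.support = R ∧ nm U ≤ m}.Finite ∧
    {U : X →₀ ℤ | U.support = R ∧ nm U ≤ m}.ncard = 2 ^ R.card * m.choose R.card := by
  induction R using Finset.induction_on generalizing m with
  | empty =>
    have h : {U : X →₀ ℤ | U.support = ∅ ∧ nm U ≤ m} = {0} := by
      ext U
      simp only [Set.mem_setOf_eq, Finsupp.support_eq_empty, Set.mem_singleton_iff]
      constructor
      · exact fun h => h.1
      · rintro rfl
        exact ⟨rfl, by simp [nm]⟩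
    rw [h]
    simp
  | insert a R ha ih =>
    have fin : ∀ n, {U : X →₀ ℤ | U.support = R ∧ nm U ≤ n}.Finite := fun n => (ih n).1
    let S : Finset (Σ _ : Bool × ℕ, (X →₀ ℤ)) :=
      ((Finset.univ : Finset Bool) ×ˢ Finset.range m).sigma
        (fun p => (fin (m - 1 - p.2)).toFinset)
    let g : (Σ _ : Bool × ℕ, (X →₀ ℤ)) → (X →₀ ℤ) := fun q =>
      q.2 + Finsupp.single a (LampCount_v q.1.1 q.1.2)
    have hza : ∀ U : X →₀ ℤ, U.support = R → U a = 0 := by
      intro U hU
      by_contra h
      exact ha (hU ▸ Finsupp.mem_support_iff.2 h)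
    have hS : ∀ q ∈ S, q.1.2 < m ∧ q.2.support = R ∧ nm q.2 ≤ m - 1 - q.1.2 := by
      intro q hq
      have h1 := Finset.mem_sigma.1 hq
      have h2 := (Finset.mem_product.1 h1.1).2
      have h3 := ((fin (m - 1 - q.1.2)).mem_toFinset).1 h1.2
      exact ⟨Finset.mem_range.1 h2, h3.1, h3.2⟩
    have hset : {U : X →₀ ℤ | U.support = insert a R ∧ nm U ≤ m} = ((S.image g : Finset (X →₀ ℤ)) : Set (X →₀ ℤ)) := by
      ext U
      simp only [Set.mem_setOf_eq, Finset.coe_image, Set.mem_image, Finset.mem_coe]
      constructor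
      · rintro ⟨hU, hn⟩
        have hUa : U a ≠ 0 := by
          rw [← Finsupp.mem_support_iff, hU]
          exact Finset.mem_insert_self a R
        obtain ⟨b, i, hbi⟩ := LampCount_v_surj (U a) hUa
        have hs : (U.erase a).support = R := by
          rw [Finsupp.support_erase, hU, Finset.erase_insert ha]
        have he : U.erase a + Finsupp.single a (LampCount_v b i) = U := by
          rw [hbi]
          exact Finsupp.erase_add_single a U
        have hnm := LampCount_nm a (LampCount_v b i) (U.erase a) (hza _ hs)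
        rw [he, LampCount_v_abs] at hnm
        refine ⟨⟨(b, i), U.erase a⟩, ?_, he⟩
        apply Finset.mem_sigma.2
        refine ⟨Finset.mem_product.2 ⟨Finset.mem_univ _, Finset.mem_range.2 ?_⟩, ?_⟩
        · show i < m
          omega
        · refine ((fin (m - 1 - i)).mem_toFinset).2 ⟨hs, ?_⟩
          show nm (U.erase a) ≤ m - 1 - i
          omega
      · rintro ⟨q, hq, rfl⟩
        obtain ⟨h1, h2, h3⟩ := hS q hq
        have hnm := LampCount_nm a (LampCount_v q.1.1 q.1.2) q.2 (hza _ h2)
        rw [LampCount_v_abs] at hnm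
        constructor
        · show (q.2 + Finsupp.single a (LampCount_v q.1.1 q.1.2)).support = insert a R
          rw [Finsupp.support_add_eq, h2, Finsupp.support_single_ne_zero a (LampCount_v_ne _ _)]
          · rw [Finset.union_comm]
            rfl
          · rw [h2, Finsupp.support_single_ne_zero a (LampCount_v_ne _ _)]
            simpa using ha
        · show nm (q.2 + Finsupp.single a (LampCount_v q.1.1 q.1.2)) ≤ m
          omega
    have hinj : Set.InjOn g (S : Set (Σ _ : Bool × ℕ, (X →₀ ℤ))) := by
      intro q hq q' hq' hgg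
      obtain ⟨-, h2, -⟩ := hS q hq
      obtain ⟨-, h2', -⟩ := hS q' hq'
      have e1 : LampCount_v q.1.1 q.1.2 = LampCount_v q'.1.1 q'.1.2 := by
        have := DFunLike.congr_fun hgg a
        simpa [g, hza _ h2, hza _ h2'] using this
      obtain ⟨e2, e3⟩ := LampCount_v_inj _ _ _ _ e1
      have e4 : q.2 = q'.2 := by
        have : q.2 + Finsupp.single a (LampCount_v q.1.1 q.1.2) =
          q'.2 + Finsupp.single a (LampCount_v q'.1.1 q'.1.2) := hgg
        rw [e1] at this
        exact add_right_cancel this
      obtain ⟨⟨b, i⟩, U⟩ := q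
      obtain ⟨⟨b', i'⟩, U'⟩ := q'
      simp only at e2 e3 e4
      subst e2 e3 e4
      rfl
    refine ⟨by rw [hset]; exact Finset.finite_toSet _, ?_⟩
    rw [hset, Set.ncard_coe_finset, Finset.card_image_of_injOn hinj]
    have hc : S.card = ∑ p ∈ (Finset.univ : Finset Bool) ×ˢ Finset.range m,
        2 ^ R.card * (m - 1 - p.2).choose R.card := by
      rw [Finset.card_sigma]
      apply Finset.sum_congr rfl
      intro p _
      rw [← (ih (m - 1 - p.2)).2, Set.ncard_eq_toFinset_card _ (fin (m - 1 - p.2))]
    rw [hc, Finset.sum_product, Finset.card_insert_of_notMem ha]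
    simp only [Finset.sum_const, Finset.card_univ, Fintype.card_bool, smul_eq_mul]
    rw [← Finset.mul_sum, LampCount_sum]
    ring

end Gri98
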