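import Pool.Agent.W_afafb9_h98.ProdA

/-!
# Ratios for direct products

(`ProdA` is a stub being proved by others; use its statements.)
-/

set_option autoImplicit false

namespace Gri98

open Filter Topology
open scoped Classical

variable {G H : Type*} [Group G] [Group H]

theorem ProdB_squeeze {a b c : ℕ → ℕ} (h0 : ∀ n, 1 ≤ c n) (hc : ∀ n, c n ≤ a n * b n)
    (h1 : Tendsto (fun n : ℕ => (a n : ℝ) ^ ((1 : ℝ) / (n : ℝ))) atTop (𝓝 1))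
    (h2 : Tendsto (fun n : ℕ => (b n : ℝ) ^ ((1 : ℝ) / (n : ℝ))) atTop (𝓝 1)) :
    Tendsto (fun n : ℕ => (c n : ℝ) ^ ((1 : ℝ) / (n : ℝ))) atTop (𝓝 1) := by
  have h12 : Tendsto (fun n : ℕ => (a n : ℝ) ^ ((1 : ℝ) / (n : ℝ)) * (b n : ℝ) ^ ((1 : ℝ) / (n : ℝ)))
      atTop (𝓝 1) := by
    have := h1.mul h2
    rwa [one_mul] at this
  refine tendsto_of_tendsto_of_tendsto_of_le_of_le tendsto_const_nhds h12 ?_ ?_
  · intro n
    have h : (1 : ℝ) ≤ (c n : ℝ) := by exact_mod_cast h0 n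
    exact Real.one_le_rpow h (by positivity)
  · intro n
    have h : (c n : ℝ) ≤ (a n : ℝ) * (b n : ℝ) := by exact_mod_cast hc n
    show (c n : ℝ) ^ ((1 : ℝ) / (n : ℝ)) ≤ (a n : ℝ) ^ ((1 : ℝ) / (n : ℝ)) * (b n : ℝ) ^ ((1 : ℝ) / (n : ℝ))
    rw [← Real.mul_rpow (by positivity) (by positivity)]
    exact Real.rpow_le_rpow (by positivity) h (by positivity)

theorem ProdB_evK {s : ℕ → ℕ} (hs : ∀ n, 1 ≤ s n)
    (h3 : Tendsto (fun n : ℕ => (s (n + 1) : ℝ) / (s n : ℝ)) atTop (𝓝 1)) (K : ℕ) (hK : 1 ≤ K) :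
    ∃ M, ∀ m, M ≤ m → K * s (m + 1) ≤ (K + 1) * s m := by
  have hK' : (0 : ℝ) < (K : ℝ) := by exact_mod_cast hK
  have hlt : (1 : ℝ) < 1 + 1 / (K : ℝ) := by
    have : (0 : ℝ) < 1 / (K : ℝ) := by positivity
    linarith
  obtain ⟨M, hM⟩ := Filter.eventually_atTop.1 (h3.eventually (gt_mem_nhds hlt))
  refine ⟨M, fun m hm => ?_⟩
  have h := hM m hm
  have hsm : (0 : ℝ) < (s m : ℝ) := by exact_mod_cast hs m
  rw [div_lt_iff₀ hsm] at h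
  have h2 : (K : ℝ) * (s (m + 1) : ℝ) ≤ ((K : ℝ) + 1) * (s m : ℝ) := by
    have h3 : (K : ℝ) * (s (m + 1) : ℝ) ≤ (K : ℝ) * ((1 + 1 / (K : ℝ)) * (s m : ℝ)) :=
      mul_le_mul_of_nonneg_left h.le hK'.le
    have h4 : (K : ℝ) * ((1 + 1 / (K : ℝ)) * (s m : ℝ)) = ((K : ℝ) + 1) * (s m : ℝ) := by
      field_simp
    linarith
  exact_mod_cast h2

theorem ProdB_ratio {t s p : ℕ → ℕ} (hs : ∀ n, 1 ≤ s n) (hp : ∀ n, 1 ≤ p n) (hmono : Monotone p)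
    (hsp : ∀ n, s n ≤ p n)
    (h3 : Tendsto (fun n : ℕ => (s (n + 1) : ℝ) / (s n : ℝ)) atTop (𝓝 1))
    (h4 : ∀ᶠ n : ℕ in atTop, (n + 1) * t (n + 1) ≤ s n)
    (hstep : ∀ K M n : ℕ, (∀ m, M ≤ m → K * s (m + 1) ≤ (K + 1) * s m) →
      K * p (n + 1) ≤ (K + 1) * p n + K * (t (n + 1) * s M)) :
    Tendsto (fun n : ℕ => (p (n + 1) : ℝ) / (p n : ℝ)) atTop (𝓝 1) := by
  have hpos : ∀ n, (0 : ℝ) < (p n : ℝ) := fun n => by exact_mod_cast hp n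
  rw [Metric.tendsto_atTop]
  intro e he
  obtain ⟨K, hK⟩ := exists_nat_gt (2 / e)
  have hK0 : (0 : ℝ) < (K : ℝ) := lt_trans (by positivity) hK
  have hK1 : 1 ≤ K := by exact_mod_cast hK0
  have hKe : 1 / (K : ℝ) < e / 2 := by
    rw [div_lt_iff₀ hK0]
    rw [div_lt_iff₀ he] at hK
    linarith
  obtain ⟨M, hM⟩ := ProdB_evK hs h3 K hK1
  obtain ⟨N1, hN1⟩ := Filter.eventually_atTop.1 h4
  obtain ⟨N2, hN2⟩ := exists_nat_gt (2 * (s M : ℝ) / e)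
  refine ⟨max N1 N2, fun n hn => ?_⟩
  have hn1 : N1 ≤ n := le_trans (le_max_left _ _) hn
  have hn2 : N2 ≤ n := le_trans (le_max_right _ _) hn
  have hlow : (1 : ℝ) ≤ (p (n + 1) : ℝ) / (p n : ℝ) := by
    rw [le_div_iff₀ (hpos n), one_mul]
    exact_mod_cast hmono (Nat.le_succ n)
  have hst : (K : ℝ) * (p (n + 1) : ℝ) ≤ ((K : ℝ) + 1) * (p n : ℝ)
      + (K : ℝ) * ((t (n + 1) : ℝ) * (s M : ℝ)) := by exact_mod_cast hstep K M n hM
  have ht : ((n : ℝ) + 1) * (t (n + 1) : ℝ) ≤ (p n : ℝ) := by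
    exact_mod_cast le_trans (hN1 n hn1) (hsp n)
  have hnn : (0 : ℝ) < (n : ℝ) + 1 := by positivity
  have hbig : 2 * (s M : ℝ) / e < (n : ℝ) + 1 := by
    have : (N2 : ℝ) ≤ (n : ℝ) := by exact_mod_cast hn2
    linarith
  rw [div_lt_iff₀ he] at hbig
  have hup : (p (n + 1) : ℝ) / (p n : ℝ) < 1 + e := by
    rw [div_lt_iff₀ (hpos n)]
    have h5 : (t (n + 1) : ℝ) * (s M : ℝ) ≤ (e / 2) * (p n : ℝ) := by
      have h6 : (t (n + 1) : ℝ) * (s M : ℝ) ≤ (t (n + 1) : ℝ) * (((n : ℝ) + 1) * (e / 2)) :=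
        mul_le_mul_of_nonneg_left (by linarith) (by positivity)
      have h7 : (t (n + 1) : ℝ) * (((n : ℝ) + 1) * (e / 2))
          = (e / 2) * (((n : ℝ) + 1) * (t (n + 1) : ℝ)) := by ring
      have h8 : (e / 2) * (((n : ℝ) + 1) * (t (n + 1) : ℝ)) ≤ (e / 2) * (p n : ℝ) :=
        mul_le_mul_of_nonneg_left ht (by positivity)
      linarith
    have h9 : (p (n + 1) : ℝ) ≤ (1 + 1 / (K : ℝ)) * (p n : ℝ) + (t (n + 1) : ℝ) * (s M : ℝ) := by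
      have h10 : (K : ℝ) * ((1 + 1 / (K : ℝ)) * (p n : ℝ) + (t (n + 1) : ℝ) * (s M : ℝ))
          = ((K : ℝ) + 1) * (p n : ℝ) + (K : ℝ) * ((t (n + 1) : ℝ) * (s M : ℝ)) := by
        field_simp
      rw [← h10] at hst
      exact le_of_mul_le_mul_left hst hK0
    have h11 : (1 / (K : ℝ)) * (p n : ℝ) < (e / 2) * (p n : ℝ) :=
      mul_lt_mul_of_pos_right hKe (hpos n)
    have h12 : (1 + 1 / (K : ℝ)) * (p n : ℝ) = (p n : ℝ) + (1 / (K : ℝ)) * (p n : ℝ) := by ring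
    have h13 : (1 + e) * (p n : ℝ) = (p n : ℝ) + (e / 2) * (p n : ℝ) + (e / 2) * (p n : ℝ) := by ring
    linarith
  rw [Real.dist_eq, abs_lt]
  constructor <;> linarith

/-- The ratios of the direct product converge, if the second factor has convergent ratios and grows faster.

Proof. (1) `gr (PS T S) n ^ (1/n) → 1` by `1 ≤ gr (PS T S) n ≤ gr T n * gr S n` and `h1`, `h2`. (2) Fix `K ≥ 1`. By `h3` there is `M`
as in `gr_prod_step`. Divide by `K * gr (PS T S) n`: `gr (PS T S) (n+1) / gr (PS T S) n ≤ 1 + 1/K + gr T (n+1) * gr S M / gr S n` (use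
`gr_le_gr_prod`), and the last term is at most `gr S M / (n+1)` for large `n` by `h4`. So the limsup of the ratios
is at most `1 + 1/K`, for all `K`; the ratios are at least `1` (`gr_mono'`). -/
theorem ratio_prod {T : Set G} {S : Set H} (hT : T.Finite) (hS : S.Finite)
    (h1 : Tendsto (fun n : ℕ => (gr T n : ℝ) ^ ((1 : ℝ) / (n : ℝ))) atTop (𝓝 1))
    (h2 : Tendsto (fun n : ℕ => (gr S n : ℝ) ^ ((1 : ℝ) / (n : ℝ))) atTop (𝓝 1))
    (h3 : Tendsto (fun n : ℕ => (gr S (n + 1) : ℝ) / (gr S n : ℝ)) atTop (𝓝 1))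
    (h4 : ∀ᶠ n : ℕ in atTop, (n + 1) * gr T (n + 1) ≤ gr S n) :
    Tendsto (fun n : ℕ => (gr (PS T S) n : ℝ) ^ ((1 : ℝ) / (n : ℝ))) atTop (𝓝 1) ∧
    Tendsto (fun n : ℕ => (gr (PS T S) (n + 1) : ℝ) / (gr (PS T S) n : ℝ)) atTop (𝓝 1) := by
  refine ⟨ProdB_squeeze (gr_mono' (ProdA_PS_finite hT hS)).2 (gr_prod_le hT hS) h1 h2, ?_⟩
  exact ProdB_ratio (gr_mono' hS).2 (gr_mono' (ProdA_PS_finite hT hS)).2
    (gr_mono' (ProdA_PS_finite hT hS)).1 (gr_le_gr_prod hT hS) h3 h4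
    (fun K M n hM => gr_prod_step hT hS K M n hM)

end Gri98
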