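import Pool.Agent.W_afafb9_h98.Fin
import Pool.Agent.W_afafb9_h98.Gen
import Pool.Agent.W_afafb9_h98.ProdB
import Pool.Agent.W_afafb9_h98.Big

/-!
# Every group of subexponential growth is a direct factor of a group with convergent ratios
-/

set_option autoImplicit false

namespace Gri98

open Filter Topology
open scoped Classical

theorem pfin_gr_univ {G : Type*} [Group G] (T : Finset G) (n : ℕ) :
    Nat.card {g : G // ∃ l : List G, l.length ≤ n ∧ (∀ x ∈ l, x ∈ T ∨ x⁻¹ ∈ T) ∧ l.prod = g} =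
      gr (T : Set G) n := rfl

theorem pfin_ps_finite {G H : Type*} [Group G] [Group H] {T : Set G} {S : Set H} (hT : T.Finite)
    (hS : S.Finite) : (PS T S).Finite := by
  refine ((hT.prod (Set.finite_singleton (1 : H))).union ((Set.finite_singleton (1 : G)).prod hS)).subset ?_
  rintro ⟨g, h⟩ (⟨h1, h2⟩ | ⟨h1, h2⟩)
  · exact Or.inl ⟨h1, h2⟩
  · exact Or.inr ⟨h1, h2⟩

theorem pfin_ps_closure {G H : Type*} [Group G] [Group H] {T : Set G} {S : Set H}
    (hT : Subgroup.closure T = ⊤) (hS : Subgroup.closure S = ⊤) : Subgroup.closure (PS T S) = ⊤ := by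
  have h1 : ∀ g : G, ((g, 1) : G × H) ∈ Subgroup.closure (PS T S) := by
    intro g
    have hg : g ∈ Subgroup.closure T := by rw [hT]; trivial
    induction hg using Subgroup.closure_induction with
    | mem x hx => exact Subgroup.subset_closure (Or.inl ⟨hx, rfl⟩)
    | one => exact Subgroup.one_mem _
    | mul x y _ _ hx hy =>
      have := Subgroup.mul_mem _ hx hy
      simpa using this
    | inv x _ hx =>
      have := Subgroup.inv_mem _ hx
      simpa using this
  have h2 : ∀ h : H, ((1, h) : G × H) ∈ Subgroup.closure (PS T S) := by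
    intro h
    have hh : h ∈ Subgroup.closure S := by rw [hS]; trivial
    induction hh using Subgroup.closure_induction with
    | mem x hx => exact Subgroup.subset_closure (Or.inr ⟨rfl, hx⟩)
    | one => exact Subgroup.one_mem _
    | mul x y _ _ hx hy =>
      have := Subgroup.mul_mem _ hx hy
      simpa using this
    | inv x _ hx =>
      have := Subgroup.inv_mem _ hx
      simpa using this
  rw [eq_top_iff]
  rintro ⟨g, h⟩ -
  have := Subgroup.mul_mem _ (h1 g) (h2 h)
  simpa using this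

/-- the auxiliary function `g n = (n + 1) f (n + 1)` is subexponential -/
theorem pfin_sub {f : ℕ → ℕ} (hf1 : ∀ n, 1 ≤ f n)
    (hf : Tendsto (fun n : ℕ => (f n : ℝ) ^ ((1 : ℝ) / (n : ℝ))) atTop (𝓝 1)) :
    Tendsto (fun n : ℕ => ((((n + 1) * f (n + 1) : ℕ) : ℝ)) ^ ((1 : ℝ) / (n : ℝ))) atTop (𝓝 1) := by
  have hpos : ∀ n, (0 : ℝ) < f n := fun n => by exact_mod_cast hf1 n
  have h1 : Tendsto (fun n : ℕ => Real.log (f n) / (n : ℝ)) atTop (𝓝 0) := by
    have h := hf.log one_ne_zero
    rw [Real.log_one] at h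
    refine h.congr fun n => ?_
    rw [Real.log_rpow (hpos n)]
    ring
  have h2 : Tendsto (fun n : ℕ => Real.log ((n : ℝ) + 1) / (n : ℝ)) atTop (𝓝 0) := by
    have h := (Real.isLittleO_log_id_atTop.tendsto_div_nhds_zero).comp
      (tendsto_natCast_atTop_atTop (R := ℝ) |>.comp (tendsto_add_atTop_nat 1))
    have h3 : Tendsto (fun n : ℕ => ((n : ℝ) + 1) / (n : ℝ)) atTop (𝓝 1) := by
      have := tendsto_const_div_atTop_nhds_zero_nat (1 : ℝ)
      have h4 : Tendsto (fun n : ℕ => (1 : ℝ) + 1 / (n : ℝ)) atTop (𝓝 (1 + 0)) := this.const_add 1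
      rw [add_zero] at h4
      refine h4.congr' ?_
      filter_upwards [eventually_gt_atTop 0] with n hn
      have : (n : ℝ) ≠ 0 := by positivity
      field_simp
    have h5 := h.mul h3
    rw [zero_mul] at h5
    refine h5.congr' ?_
    filter_upwards [eventually_gt_atTop 0] with n hn
    have hn1 : (n : ℝ) ≠ 0 := by positivity
    have hn2 : (n : ℝ) + 1 ≠ 0 := by positivity
    simp only [Function.comp, id, Nat.cast_add, Nat.cast_one]
    field_simp
  have h3 : Tendsto (fun n : ℕ => Real.log (f (n + 1)) / (n : ℝ)) atTop (𝓝 0) := by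
    have h := h1.comp (tendsto_add_atTop_nat 1)
    have h3 : Tendsto (fun n : ℕ => ((n : ℝ) + 1) / (n : ℝ)) atTop (𝓝 1) := by
      have := tendsto_const_div_atTop_nhds_zero_nat (1 : ℝ)
      have h4 : Tendsto (fun n : ℕ => (1 : ℝ) + 1 / (n : ℝ)) atTop (𝓝 (1 + 0)) := this.const_add 1
      rw [add_zero] at h4
      refine h4.congr' ?_
      filter_upwards [eventually_gt_atTop 0] with n hn
      have : (n : ℝ) ≠ 0 := by positivity
      field_simp
    have h5 := h.mul h3
    rw [zero_mul] at h5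
    refine h5.congr' ?_
    filter_upwards [eventually_gt_atTop 0] with n hn
    have hn1 : (n : ℝ) ≠ 0 := by positivity
    have hn2 : (n : ℝ) + 1 ≠ 0 := by positivity
    simp only [Function.comp, Nat.cast_add, Nat.cast_one]
    field_simp
  have h4 := (h2.add h3).rexp
  rw [add_zero, Real.exp_zero] at h4
  refine h4.congr fun n => ?_
  have hp : (0 : ℝ) < (((n + 1) * f (n + 1) : ℕ) : ℝ) := by
    push_cast
    have := hpos (n + 1)
    positivity
  rw [Real.rpow_def_of_pos hp]
  congr 1
  push_cast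
  rw [Real.log_mul (by positivity) (hpos (n + 1)).ne']
  ring

theorem pfin_main {G : Type*} [Group G] (T : Finset G)
    (h1 : Tendsto (fun n : ℕ => (gr (T : Set G) n : ℝ) ^ ((1 : ℝ) / (n : ℝ))) atTop (𝓝 1)) :
    ∃ (H : Type) (_ : Group H) (S : Finset H), Subgroup.closure (S : Set H) = ⊤ ∧
      Tendsto (fun n : ℕ => (gr (PS (T : Set G) (S : Set H)) n : ℝ) ^ ((1 : ℝ) / (n : ℝ))) atTop (𝓝 1) ∧
      Tendsto (fun n : ℕ => (gr (PS (T : Set G) (S : Set H)) (n + 1) : ℝ) /
        (gr (PS (T : Set G) (S : Set H)) n : ℝ)) atTop (𝓝 1) := by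
  obtain ⟨ω, hω, hi, hb⟩ := big (g := fun n => (n + 1) * gr (T : Set G) (n + 1))
    (pfin_sub (gr_mono' (Finset.finite_toSet T)).2 h1)
  have hA : (stdS ω hω).Finite := by
    unfold stdS
    exact Set.toFinite _
  obtain ⟨S, hS, hc⟩ := finset_gen (SW x0 (stdS ω hω)) (SW_finite x0 hA)
  have hgr : ∀ n, gr (S : Set (Subgroup.closure (SW x0 (stdS ω hω)))) n = gr (SW x0 (stdS ω hω)) n := by
    intro n
    rw [← gr_subgroup (SW x0 (stdS ω hω)) S hS n]
    rfl
  obtain ⟨e1, e2, -⟩ := fin_main hω hi hA rfl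
  refine ⟨Subgroup.closure (SW x0 (stdS ω hω)), inferInstance, S, hc, ?_⟩
  refine ratio_prod (Finset.finite_toSet T) (Finset.finite_toSet S) h1 ?_ ?_ ?_
  · simpa only [hgr] using e2
  · simpa only [hgr] using e1
  · filter_upwards [hb] with n hn
    rw [hgr]
    exact hn

end Gri98
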