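import Pool.Agent.W_afafb9_h98.LDef

/-!
# The direct product `G × Γ` acting on `X ⊕ G`
-/

set_option autoImplicit false

namespace Gri98

open scoped Classical

variable {G X : Type*} [Group G]

/-- `(g, σ)` acts on `X ⊕ G`: by `σ` on `X` and by left multiplication with `g` on `G` -/
def rho : G × Equiv.Perm X →* Equiv.Perm (X ⊕ G) where
  toFun p := Equiv.sumCongr p.2 (Equiv.mulLeft p.1)
  map_one' := by
    ext x
    rcases x with x | x <;> simp
  map_mul' p q := by
    ext x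
    rcases x with x | x <;> simp [mul_assoc]

/-- `(g, h)`, `h` a permutation of `X × ℤ`, acts on `(X ⊕ G) × ℤ`: by `h` on `X × ℤ` and by left
multiplication with `g` on the first coordinate of `G × ℤ` -/
def psi : G × Equiv.Perm (X × ℤ) →* Equiv.Perm ((X ⊕ G) × ℤ) where
  toFun p := (Equiv.sumProdDistrib X G ℤ).trans
    ((Equiv.sumCongr p.2 ((Equiv.mulLeft p.1).prodCongr (Equiv.refl ℤ))).trans
      (Equiv.sumProdDistrib X G ℤ).symm)
  map_one' := by
    ext x
    all_goals rcases x with ⟨x | x, k⟩ <;> simp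
  map_mul' p q := by
    ext x
    all_goals rcases x with ⟨x | x, k⟩ <;> simp [mul_assoc]

/-- Proof. Evaluate at `inl x` and at `inr 1`. -/
theorem rho_injective : Function.Injective (rho : G × Equiv.Perm X →* Equiv.Perm (X ⊕ G)) := by
  rintro ⟨g, σ⟩ ⟨h, τ⟩ e
  have h1 := fun x => DFunLike.congr_fun e (Sum.inl x)
  have h2 := DFunLike.congr_fun e (Sum.inr 1)
  simp only [rho, MonoidHom.coe_mk, OneHom.coe_mk, Equiv.sumCongr_apply, Sum.map_inl, Sum.map_inr,
    Sum.inl.injEq, Sum.inr.injEq, Equiv.coe_mulLeft, mul_one] at h1 h2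
  rw [h2, Equiv.ext h1]

/-- Proof. Evaluate at `(inl x, k)` and at `(inr 1, 0)`. -/
theorem psi_injective : Function.Injective (psi : G × Equiv.Perm (X × ℤ) →* Equiv.Perm ((X ⊕ G) × ℤ)) := by
  rintro ⟨g, σ⟩ ⟨h, τ⟩ e
  have h1 := fun x k => DFunLike.congr_fun e (Sum.inl x, k)
  have h2 := DFunLike.congr_fun e (Sum.inr 1, 0)
  have h3 : σ = τ := by
    ext1 ⟨x, k⟩
    have h4 := h1 x k
    simp only [psi, MonoidHom.coe_mk, OneHom.coe_mk, Equiv.trans_apply, Equiv.sumProdDistrib_apply_left,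
      Equiv.sumCongr_apply, Sum.map_inl, Equiv.sumProdDistrib_symm_apply_left, Prod.mk.injEq,
      Sum.inl.injEq] at h4
    exact Prod.ext h4.1 h4.2
  have h5 : g = h := by
    simp only [psi, MonoidHom.coe_mk, OneHom.coe_mk, Equiv.trans_apply, Equiv.sumProdDistrib_apply_right,
      Equiv.sumCongr_apply, Sum.map_inr, Equiv.sumProdDistrib_symm_apply_right, Prod.mk.injEq,
      Sum.inr.injEq] at h2
    simpa using h2.1
  rw [h3, h5]

/-- Proof. Evaluate both sides at `(inl x, k)` and `(inr y, k)`. -/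
theorem psi_lift (g : G) (σ : Equiv.Perm X) : psi (g, El σ 0) = El (rho (g, σ)) 0 := by
  ext1 ⟨x | x, k⟩ <;> simp [psi, rho, El]

/-- Proof. Evaluate both sides at `(inl x, k)` and `(inr y, k)`; `zz o = El 1 (single o 1)`. -/
theorem psi_zz (o : X) : psi ((1 : G), zz o) = zz (Sum.inl o : X ⊕ G) := by
  ext1 ⟨x | x, k⟩
  · simp [psi, zz, El, Finsupp.single_apply]
  · simp [psi, zz, El, Finsupp.single_apply]

theorem Rho_lift {H K : Type*} [Group H] [Group K] (Ψ : H →* K) (T : Set H) (l : List K)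
    (h : ∀ x ∈ l, x ∈ Ψ '' T ∨ x⁻¹ ∈ Ψ '' T) :
    ∃ l' : List H, l'.length = l.length ∧ (∀ x ∈ l', x ∈ T ∨ x⁻¹ ∈ T) ∧ Ψ l'.prod = l.prod := by
  induction l with
  | nil => exact ⟨[], rfl, by simp, by simp⟩
  | cons a l ih =>
    obtain ⟨l', h1, h2, h3⟩ := ih fun x hx => h x (List.mem_cons_of_mem _ hx)
    have h4 : ∃ b : H, (b ∈ T ∨ b⁻¹ ∈ T) ∧ Ψ b = a := by
      rcases h a List.mem_cons_self with ⟨b, hb, hba⟩ | ⟨b, hb, hba⟩
      · exact ⟨b, Or.inl hb, hba⟩
      · exact ⟨b⁻¹, Or.inr (by simpa using hb), by rw [map_inv, hba, inv_inv]⟩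
    obtain ⟨b, hb, hba⟩ := h4
    refine ⟨b :: l', by simp [h1], ?_, by simp [h3, hba]⟩
    intro x hx
    rcases List.mem_cons.1 hx with rfl | hx
    · exact hb
    · exact h2 x hx

/-- The growth function does not change under injective homomorphisms.

Proof. `g ↦ Ψ g` is a bijection from `{g // Wd T n g}` onto `{h // Wd (Ψ '' T) n h}`: map the words by `Ψ`; a word
in `Ψ '' T` and inverses is the image of a word in `T` and inverses. -/
theorem gr_image {H K : Type*} [Group H] [Group K] (Ψ : H →* K) (hΨ : Function.Injective Ψ) (T : Set H) (n : ℕ) :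
    gr (Ψ '' T) n = gr T n := by
  have key : ∀ k : K, Wd (Ψ '' T) n k ↔ ∃ g, Wd T n g ∧ Ψ g = k := by
    intro k
    constructor
    · rintro ⟨l, hl, hT, hp⟩
      obtain ⟨l', hl', hT', hp'⟩ := Rho_lift Ψ T l hT
      exact ⟨l'.prod, ⟨l', by omega, hT', rfl⟩, hp'.trans hp⟩
    · rintro ⟨g, ⟨l, hl, hT, hp⟩, rfl⟩
      refine ⟨l.map Ψ, by simpa using hl, ?_, by rw [← hp, map_list_prod]⟩
      intro y hy
      obtain ⟨x, hx, rfl⟩ := List.mem_map.1 hy
      rcases hT x hx with h | h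
      · exact Or.inl ⟨x, h, rfl⟩
      · exact Or.inr ⟨x⁻¹, h, by simp⟩
  unfold gr
  symm
  refine Nat.card_congr (Equiv.ofBijective (fun g : {g : H // Wd T n g} =>
    (⟨Ψ g.1, (key _).2 ⟨g.1, g.2, rfl⟩⟩ : {k : K // Wd (Ψ '' T) n k})) ⟨?_, ?_⟩)
  · intro g h e
    exact Subtype.ext (hΨ (Subtype.ext_iff.1 e))
  · rintro ⟨k, hk⟩
    obtain ⟨g, hg, rfl⟩ := (key k).1 hk
    exact ⟨⟨g, hg⟩, rfl⟩

/-- the generating set `{(g, σ × id) : (g, σ) ∈ A} ∪ {(1, z)}` -/
def PW (o : X) (A : Set (G × Equiv.Perm X)) : Set (G × Equiv.Perm (X × ℤ)) :=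
  (fun p => (p.1, El p.2 0)) '' A ∪ {(1, zz o)}

/-- Proof. `psi '' PW o A = SW (inl o) (rho '' A)` by `psi_lift`, `psi_zz`; `gr_image`, `psi_injective`. -/
theorem gr_PW (o : X) (A : Set (G × Equiv.Perm X)) (n : ℕ) :
    gr (PW o A) n = gr (SW (Sum.inl o : X ⊕ G) (rho '' A)) n := by
  rw [← gr_image psi psi_injective (PW o A) n]
  congr 1
  unfold PW SW
  rw [Set.image_union, Set.image_singleton, psi_zz, Set.image_image, Set.image_image]
  congr 1
  apply Set.image_congr
  rintro ⟨g, σ⟩ -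
  exact psi_lift g σ

/-- `σ ↦ El σ 0` as a homomorphism -/
def Rho_E : Equiv.Perm X →* Equiv.Perm (X × ℤ) where
  toFun σ := El σ 0
  map_one' := by
    ext1 ⟨x, k⟩
    simp [El]
  map_mul' σ τ := by
    ext1 ⟨x, k⟩
    simp [El]

/-- Proof. The elements `(g, h)` with `h ∈ Subgroup.closure (SW o B)` form a subgroup (`Subgroup.prod ⊤ _`), which
contains the generators: `(g, σ) ∈ A` gives `σ ∈ Subgroup.closure B` by `hA`, and `El σ 0 ∈ Subgroup.closure (SW o B)` for
`σ ∈ Subgroup.closure B` (by induction, `El` is multiplicative in `σ` for `U = 0`). Conversely let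
`D = Subgroup.closure (PW o A)`. For `(g, σ) ∈ Subgroup.closure A` `(g, El σ 0) ∈ D` (induction). So `(g, 1) ∈ D` for all `g`
and `(1, El s 0) ∈ D` for `s ∈ B`, and `(1, zz o) ∈ D`; hence `(1, h) ∈ D` for `h ∈ Subgroup.closure (SW o B)`, and
`(g, h) = (g, 1) * (1, h)`. -/
theorem closure_PW (o : X) (A : Set (G × Equiv.Perm X)) (B : Set (Equiv.Perm X))
    (hA : Subgroup.closure A = (⊤ : Subgroup G).prod (Subgroup.closure B)) :
    Subgroup.closure (PW o A) = (⊤ : Subgroup G).prod (Subgroup.closure (SW o B)) := by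
  have hSW : ∀ σ ∈ Subgroup.closure B, El σ 0 ∈ Subgroup.closure (SW o B) := by
    intro σ hσ
    have h1 : (Subgroup.closure B).map Rho_E ≤ Subgroup.closure (SW o B) := by
      rw [MonoidHom.map_closure]
      apply Subgroup.closure_mono
      exact Set.subset_union_left
    exact h1 ⟨σ, hσ, rfl⟩
  have hD : ∀ p ∈ Subgroup.closure A, ((p.1, El p.2 0) : G × Equiv.Perm (X × ℤ)) ∈ Subgroup.closure (PW o A) := by
    intro p hp
    have h1 : (Subgroup.closure A).map ((MonoidHom.id G).prodMap Rho_E) ≤ Subgroup.closure (PW o A) := by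
      rw [MonoidHom.map_closure]
      apply Subgroup.closure_mono
      exact Set.subset_union_left
    exact h1 ⟨p, hp, rfl⟩
  apply le_antisymm
  · rw [Subgroup.closure_le]
    rintro x (⟨p, hp, rfl⟩ | hx)
    · have h1 : p ∈ (⊤ : Subgroup G).prod (Subgroup.closure B) := hA ▸ Subgroup.subset_closure hp
      exact ⟨Subgroup.mem_top _, hSW _ h1.2⟩
    · rw [Set.mem_singleton_iff] at hx
      subst hx
      exact ⟨Subgroup.mem_top _, Subgroup.subset_closure (Or.inr rfl)⟩
  · rintro ⟨g, h⟩ ⟨-, hh⟩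
    have h1 : ((g, (1 : Equiv.Perm (X × ℤ))) : G × Equiv.Perm (X × ℤ)) ∈ Subgroup.closure (PW o A) := by
      have h2 : ((g, (1 : Equiv.Perm X)) : G × Equiv.Perm X) ∈ Subgroup.closure A := by
        rw [hA]
        exact ⟨Subgroup.mem_top _, Subgroup.one_mem _⟩
      have h3 := hD _ h2
      have h4 : El (1 : Equiv.Perm X) 0 = 1 := map_one Rho_E
      rwa [h4] at h3
    have h5 : (Subgroup.closure (SW o B)).map (MonoidHom.inr G (Equiv.Perm (X × ℤ))) ≤
        Subgroup.closure (PW o A) := by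
      rw [MonoidHom.map_closure, Subgroup.closure_le]
      rintro _ ⟨x, hx | hx, rfl⟩
      · obtain ⟨s, hs, rfl⟩ := hx
        have h2 : (((1 : G), s) : G × Equiv.Perm X) ∈ Subgroup.closure A := by
          rw [hA]
          exact ⟨Subgroup.mem_top _, Subgroup.subset_closure hs⟩
        exact hD _ h2
      · rw [Set.mem_singleton_iff] at hx
        subst hx
        exact Subgroup.subset_closure (Or.inr rfl)
    have h6 := h5 ⟨h, hh, rfl⟩
    have h7 := Subgroup.mul_mem _ h1 h6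
    simpa using h7

end Gri98
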