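import Pool.Agent.W_afafb9_h98.Base

/-!
# Sections of words
-/

set_option autoImplicit false

namespace Gri98

open scoped Classical

/-- the letter `γ` in front of a word, by sections -/
theorem letter_ev {ω : ℕ → Bt} (hω : Ok ω) (j : Bool) (γ : Bt) (t : Bt × List Bt) (y : Om) :
    bF ω γ (cons j (evP (sh ω) t y)) = cons j (evP (sh ω) (letter (ω 0) j γ t) y) := by
  cases j
  · rw [bF_false]
    unfold letter
    by_cases h : ns (ω 0) γ
    · simp only [h, if_true, Bool.false_eq_true, if_false]
      show _ = cons false (bF (sh ω) .e (aF (ev (sh ω) t.1 t.2 y)))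
      rw [bF_e]
      rfl
    · simp only [h, if_false, Bool.false_eq_true]
  · rw [bF_true]
    unfold letter
    simp only [if_true]
    show _ = cons true (ev (sh ω) (γ * t.1) t.2 y)
    rw [ev_mul (ok_sh hω)]
    rfl

theorem ev_sec {ω : ℕ → Bt} (hω : Ok ω) (γ : Bt) (l : List Bt) (i : Bool) (y : Om) :
    ev ω γ l (cons i y) =
      cons (xor i (par l)) (evP (sh ω) (sec (ω 0) (xor i (par l)) γ l) y) := by
  induction l generalizing γ with
  | nil =>
    have h := letter_ev hω i γ (.e, []) y
    have h1 : evP (sh ω) (.e, []) y = y := bF_e _ _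
    rw [h1] at h
    simp only [par, Bool.xor_false]
    exact h
  | cons δ l ih =>
    rw [ev_cons, ih δ, aF_cons]
    have h2 : (!(xor i (par l))) = xor i (par (δ :: l)) := by
      simp only [par]
      cases i <;> cases par l <;> rfl
    have h3 : xor i (par l) = !(xor i (par (δ :: l))) := by rw [← h2, Bool.not_not]
    rw [h2, letter_ev hω]
    congr 2
    rw [h3]
    rfl

theorem ev_sec' {ω : ℕ → Bt} (hω : Ok ω) (γ : Bt) (l : List Bt) (j : Bool) (y : Om) :
    ev ω γ l (cons (xor j (par l)) y) = cons j (evP (sh ω) (sec (ω 0) j γ l) y) := by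
  rw [ev_sec hω]
  have : xor (xor j (par l)) (par l) = j := by cases j <;> cases par l <;> rfl
  rw [this]

theorem letter_orb {ω : ℕ → Bt} (hω : Ok ω) (j : Bool) (γ : Bt) (t : Bt × List Bt) {z : Om}
    (hz : z ∈ orbP (sh ω) t) :
    ∃ u ∈ orbP (sh ω) (letter (ω 0) j γ t), bF ω γ (cons j z) = cons j u := by
  cases j
  · rw [bF_false]
    unfold letter
    by_cases h : ns (ω 0) γ
    · simp only [h, if_true, Bool.false_eq_true, if_false]
      refine ⟨aF z, ?_, rfl⟩
      show aF z ∈ orb (sh ω) .e (t.1 :: t.2)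
      rw [mem_orb_cons]
      exact Or.inr ⟨z, hz, bF_e _ _⟩
    · simp only [h, if_false, Bool.false_eq_true]
      exact ⟨z, hz, rfl⟩
  · rw [bF_true]
    unfold letter
    simp only [if_true]
    refine ⟨bF (sh ω) γ z, ?_, rfl⟩
    show _ ∈ orb (sh ω) (γ * t.1) t.2
    rw [orb_mul (ok_sh hω)]
    exact ⟨z, hz, rfl⟩

theorem orb_sec {ω : ℕ → Bt} (hω : Ok ω) (γ : Bt) (l : List Bt) {x : Om} (hx : x ∈ orb ω γ l) :
    tl x ∈ orbP (sh ω) (sec (ω 0) (x 0) γ l) := by
  induction l generalizing γ x with
  | nil =>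
    have h : x = x0 := by simpa [orb] using hx
    subst h
    rw [tl_x0]
    exact x0_mem_orb _ _ _
  | cons δ l ih =>
    rw [mem_orb_cons] at hx
    rcases hx with rfl | ⟨z, hz, rfl⟩
    · rw [tl_x0]
      exact x0_mem_orb _ _ _
    · have h1 := ih δ hz
      obtain ⟨u, hu, h2⟩ := letter_orb hω (!z 0) γ _ h1
      have h3 : bF ω γ (aF z) = cons (!z 0) u := h2
      rw [h3, tl_cons, cons_zero]
      have h4 : sec (ω 0) (!z 0) γ (δ :: l) = letter (ω 0) (!z 0) γ (sec (ω 0) (z 0) δ l) := by
        show letter (ω 0) (!z 0) γ (sec (ω 0) (!(!z 0)) δ l) = _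
        rw [Bool.not_not]
      rw [h4]
      exact hu

theorem sec_cons (s : Bt) (y : Bool) (γ δ : Bt) (l : List Bt) :
    sec s y γ (δ :: l) = letter s y γ (sec s (!y) δ l) := rfl

/-- inner sites of the product of a letter with a word -/
theorem mem_inn_mul {ω : ℕ → Bt} (hω : Ok ω) (β γ : Bt) (l : List Bt) (x : Om) :
    x ∈ inn ω (β * γ) l ↔ ∃ z ∈ inn ω γ l, bF ω β z = x := by
  cases l with
  | nil => simp [inn]
  | cons δ l =>
    simp only [mem_inn_cons]
    constructor
    · rintro ⟨z, hz, rfl⟩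
      exact ⟨_, ⟨z, hz, rfl⟩, (bF_mul hω β γ _).symm⟩
    · rintro ⟨z, ⟨u, hu, rfl⟩, rfl⟩
      exact ⟨u, hu, bF_mul hω β γ _⟩

theorem mem_orbm_iff {ω : ℕ → Bt} (γ : Bt) (l : List Bt) (x : Om) :
    x ∈ orbm ω γ l ↔ l ≠ [] ∧ (x = x0 ∨ x ∈ inn ω γ l) := by
  cases l with
  | nil => simp [orbm]
  | cons δ l =>
    rw [mem_orbm_cons, mem_inn_cons]
    simp

/-- the sites of the sections are available -/
theorem avail {ω : ℕ → Bt} (hω : Ok ω) (γ : Bt) (l : List Bt) :
    (∀ x ∈ orbmP (sh ω) (sec (ω 0) true γ l), cons true x ∈ orbm ω γ l) ∧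
    (∀ j, ∀ x ∈ innP (sh ω) (sec (ω 0) j γ l), cons j x ∈ inn ω γ l) := by
  induction l generalizing γ with
  | nil =>
    constructor
    · intro x hx
      simp [sec, letter, orbmP, orbm] at hx
    · intro j x hx
      exfalso
      cases j
      · simp only [sec, letter, Bool.false_eq_true, if_false, innP] at hx
        split_ifs at hx <;> simp [inn, orbm] at hx
      · simp [sec, letter, innP, inn] at hx
  | cons δ l ih =>
    obtain ⟨ih1, ih2⟩ := ih δ
    have hY : ∀ j, ∀ x ∈ innP (sh ω) (sec (ω 0) j γ (δ :: l)), cons j x ∈ inn ω γ (δ :: l) := by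
      intro j x hx
      rw [mem_inn_cons]
      cases j
      · rw [sec_cons] at hx
        unfold letter at hx
        by_cases h : ns (ω 0) γ
        · simp only [h, if_true, Bool.false_eq_true, if_false, innP] at hx
          rw [mem_inn_cons] at hx
          obtain ⟨z, hz, rfl⟩ := hx
          refine ⟨cons true z, ih1 z hz, ?_⟩
          rw [aF_cons, Bool.not_true, bF_false, if_pos h, bF_e]
        · simp only [h, if_false, Bool.false_eq_true] at hx
          refine ⟨cons true x, inn_subset_orbm _ _ _ (ih2 true x hx), ?_⟩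
          rw [aF_cons, Bool.not_true, bF_false, if_neg h]
      · rw [sec_cons] at hx
        unfold letter at hx
        simp only [if_true, innP] at hx
        rw [mem_inn_mul (ok_sh hω)] at hx
        obtain ⟨z, hz, rfl⟩ := hx
        refine ⟨cons false z, inn_subset_orbm _ _ _ (ih2 false z hz), ?_⟩
        rw [aF_cons, Bool.not_false, bF_true]
    refine ⟨?_, hY⟩
    intro x hx
    unfold orbmP at hx
    rw [mem_orbm_iff] at hx
    rw [mem_orbm_iff]
    refine ⟨by simp, ?_⟩
    rcases hx.2 with rfl | h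
    · exact Or.inl cons_true_x0
    · exact Or.inr (hY true x h)

theorem inn_sec {ω : ℕ → Bt} (hω : Ok ω) (γ : Bt) (l : List Bt) (j : Bool) {x : Om}
    (hx : x ∈ innP (sh ω) (sec (ω 0) j γ l)) : cons j x ∈ inn ω γ l := (avail hω γ l).2 j x hx

theorem letter_length (s : Bt) (y : Bool) (γ : Bt) (t : Bt × List Bt) :
    (letter s y γ t).2.length ≤ t.2.length + (if y then 0 else 1) := by
  unfold letter
  cases y
  · by_cases h : ns s γ <;> simp [h]
  · simp

theorem sec_length (s : Bt) (γ : Bt) (l : List Bt) :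
    (sec s false γ l).2.length ≤ l.length / 2 + 1 ∧ (sec s true γ l).2.length ≤ (l.length + 1) / 2 := by
  induction l generalizing γ with
  | nil =>
    have h1 := letter_length s false γ (.e, [])
    have h2 := letter_length s true γ (.e, [])
    simp only [Bool.false_eq_true, if_false, if_true, List.length_nil] at h1 h2
    constructor
    · simpa [sec] using h1
    · simpa [sec] using h2
  | cons δ l ih =>
    obtain ⟨ih1, ih2⟩ := ih δ
    have h1 := letter_length s false γ (sec s true δ l)
    have h2 := letter_length s true γ (sec s false δ l)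
    simp only [Bool.false_eq_true, if_false, if_true] at h1 h2
    simp only [sec_cons, Bool.not_true, Bool.not_false, List.length_cons]
    constructor <;> omega

theorem sec_length_lt (s : Bt) (γ : Bt) (l : List Bt) (hl : 3 ≤ l.length) (j : Bool) :
    (sec s j γ l).2.length < l.length := by
  have := sec_length s γ l
  cases j
  · omega
  · omega

/-- the first letter of a site is the parity of its beginning -/
theorem inn_both {ω : ℕ → Bt} (γ : Bt) (l : List Bt) (hl : 3 ≤ l.length) (j : Bool) :
    ∃ x ∈ inn ω γ l, x 0 = j := by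
  match l, hl with
  | δ₁ :: δ₂ :: δ₃ :: l, _ =>
    have hb : ∀ (β : Bt) (x : Om), bF ω β x 0 = x 0 := fun _ _ => rfl
    have ha : ∀ x : Om, aF x 0 = !x 0 := fun _ => rfl
    cases j
    · refine ⟨bF ω γ (aF x0), ?_, ?_⟩
      · rw [mem_inn_cons]
        exact ⟨x0, by rw [mem_orbm_cons]; exact Or.inl rfl, rfl⟩
      · rw [hb, ha]
        rfl
    · refine ⟨bF ω γ (aF (bF ω δ₁ (aF x0))), ?_, ?_⟩
      · rw [mem_inn_cons]
        refine ⟨bF ω δ₁ (aF x0), ?_, rfl⟩
        rw [mem_orbm_cons]
        exact Or.inr ⟨x0, by rw [mem_orbm_cons]; exact Or.inl rfl, rfl⟩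
      · rw [hb, ha, hb, ha]
        rfl

/-- the number of inner sites is superadditive -/
theorem card_inn_sec {ω : ℕ → Bt} (hω : Ok ω) (γ : Bt) (l : List Bt) (hl : 3 ≤ l.length) :
    max 1 (innP (sh ω) (sec (ω 0) false γ l)).card + max 1 (innP (sh ω) (sec (ω 0) true γ l)).card ≤
      (inn ω γ l).card := by
  have h1 : ∀ j, max 1 (innP (sh ω) (sec (ω 0) j γ l)).card ≤
      ((inn ω γ l).filter fun x => x 0 = j).card := by
    intro j
    apply max_le
    · obtain ⟨x, hx, hj⟩ := inn_both (ω := ω) γ l hl j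
      exact Finset.card_pos.2 ⟨x, Finset.mem_filter.2 ⟨hx, hj⟩⟩
    · apply Finset.card_le_card_of_injOn (fun x => cons j x)
      · intro x hx
        simp only [Finset.coe_filter, Set.mem_ofPred_eq]
        exact ⟨inn_sec hω γ l j hx, rfl⟩
      · intro x _ y _ h
        exact (cons_inj h).2
  have h2 : ((inn ω γ l).filter fun x => x 0 = false).card +
      ((inn ω γ l).filter fun x => x 0 = true).card = (inn ω γ l).card := by
    rw [← Finset.card_union_of_disjoint]
    · congr 1
      ext x
      simp only [Finset.mem_union, Finset.mem_filter]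
      cases x 0 <;> simp
    · rw [Finset.disjoint_left]
      intro x hx hy
      have a1 := (Finset.mem_filter.1 hx).2
      have a2 := (Finset.mem_filter.1 hy).2
      rw [a1] at a2
      exact Bool.noConfusion a2
  have h3 := h1 false
  have h4 := h1 true
  omega

end Gri98
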