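import Pool.Agent.W_afafb9_h98.Zeta

/-!
# Slowly changing sequences

(`Zeta` is a stub being proved by others; use its statements.)
-/

set_option autoImplicit false

namespace Gri98

open scoped Classical

/-- the number of changes -/
noncomputable def Slow_j (φ : ℕ → ℕ) : ℕ → ℕ
  | 0 => 0
  | L + 1 => if (∀ n, 2 ^ L ≤ n → 2 ^ (Slow_j φ L + 2) ≤ φ n) then Slow_j φ L + 1 else Slow_j φ L

/-- the letter -/
def Slow_let (k : ℕ) : Bt := if k % 3 = 0 then .b else if k % 3 = 1 then .c else .d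

theorem Slow_j_le (φ : ℕ → ℕ) (L : ℕ) : Slow_j φ L ≤ Slow_j φ (L + 1) := by
  rw [Slow_j]
  split_ifs <;> omega

theorem Slow_j_succ_le (φ : ℕ → ℕ) (L : ℕ) : Slow_j φ (L + 1) ≤ Slow_j φ L + 1 := by
  rw [Slow_j]
  split_ifs <;> omega

theorem Slow_j_mono (φ : ℕ → ℕ) : Monotone (Slow_j φ) := monotone_nat_of_le_succ (Slow_j_le φ)

theorem Slow_j_bound (φ : ℕ → ℕ) (L : ℕ) : 1 ≤ Slow_j φ (L + 1) →
    ∀ n, 2 ^ L ≤ n → 2 ^ (Slow_j φ (L + 1) + 1) ≤ φ n := by
  induction L with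
  | zero =>
    intro h n hn
    rw [Slow_j] at h ⊢
    split_ifs at h ⊢ with h1
    · exact h1 n hn
    · simp [Slow_j] at h
  | succ L ih =>
    intro h n hn
    rw [Slow_j] at h ⊢
    split_ifs at h ⊢ with h1
    · exact h1 n hn
    · exact ih h n (le_trans (Nat.pow_le_pow_right (by norm_num) (Nat.le_succ L)) hn)

theorem Slow_j_unb {φ : ℕ → ℕ} (hφ : Filter.Tendsto φ Filter.atTop Filter.atTop) (i : ℕ) :
    ∃ L, i ≤ Slow_j φ L := by
  induction i with
  | zero => exact ⟨0, Nat.zero_le _⟩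
  | succ i ih =>
    obtain ⟨L, hL⟩ := ih
    obtain ⟨N, hN⟩ := Filter.eventually_atTop.1 (Filter.tendsto_atTop.1 hφ (2 ^ (i + 2)))
    by_contra hcon
    push Not at hcon
    have h1 := hcon (max L N)
    have h2 := Slow_j_mono φ (le_max_left L N)
    have h3 : Slow_j φ (max L N) = i := by omega
    have h4 := hcon (max L N + 1)
    rw [Slow_j, if_pos, h3] at h4
    · omega
    · intro n hn
      rw [h3]
      apply hN
      exact le_trans (le_trans (le_max_right L N) (Nat.lt_two_pow_self).le) hn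

theorem Slow_j_surj {φ : ℕ → ℕ} (hφ : Filter.Tendsto φ Filter.atTop Filter.atTop) (i : ℕ) :
    ∃ L, Slow_j φ L = i := by
  have h := Slow_j_unb hφ i
  have h1 := Nat.find_spec h
  rcases hL : Nat.find h with _ | L
  · rw [hL] at h1
    refine ⟨0, ?_⟩
    rw [Slow_j] at h1 ⊢
    omega
  · rw [hL] at h1
    have h2 : ¬ i ≤ Slow_j φ L := Nat.find_min h (by omega)
    have h3 := Slow_j_succ_le φ L
    exact ⟨L + 1, by omega⟩

theorem Slow_chg (φ : ℕ → ℕ) (L : ℕ) : chg (fun L => Slow_let (Slow_j φ L)) L ≤ Slow_j φ L := by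
  induction L with
  | zero => simp [chg]
  | succ L ih =>
    unfold chg at ih ⊢
    rw [Finset.range_add_one, Finset.filter_insert]
    have h1 := Slow_j_le φ L
    split_ifs with h
    · have h2 : Slow_j φ L ≠ Slow_j φ (L + 1) := by
        intro h2
        exact h (by show Slow_let (Slow_j φ L) = Slow_let (Slow_j φ (L + 1)); rw [h2])
      refine le_trans (Finset.card_insert_le _ _) ?_
      omega
    · omega

theorem Slow_let_surj (s : Bt) (hs : s ≠ .e) (N : ℕ) : ∃ i, N ≤ i ∧ Slow_let i = s := by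
  cases s with
  | e => exact absurd rfl hs
  | b => exact ⟨3 * N, by omega, by
      unfold Slow_let
      rw [if_pos (by omega)]⟩
  | c => exact ⟨3 * N + 1, by omega, by
      unfold Slow_let
      rw [if_neg (by omega), if_pos (by omega)]⟩
  | d => exact ⟨3 * N + 2, by omega, by
      unfold Slow_let
      rw [if_neg (by omega), if_neg (by omega)]⟩

theorem Slow_let_ne (i : ℕ) : Slow_let i ≠ .e := by
  unfold Slow_let
  split_ifs <;> simp

/-- Sequences `ω` which change slowly: `Dl ω n` can be as close to `n` as one likes.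

Proof. First choose a monotone unbounded `j : ℕ → ℕ` with `j 0 = 0`, `j (L+1) ≤ j L + 1`, and `L₀` with
`2 ^ (j (L+1) + 1) ≤ φ n` for all `L ≥ L₀`, `n ≥ 2 ^ L`: since `φ → ∞` there are `N_1 < N_2 < …` with
`φ n ≥ 2 ^ (i + 2)` for all `n ≥ 2 ^ (N_i)`; e.g. define `j` by recursion: `j (L+1) = j L + 1` if `φ n ≥ 2 ^ (j L + 2)` for all
`n ≥ 2 ^ L`, and `j (L+1) = j L` otherwise; then `2 ^ (j (L+1) + 1) ≤ φ n` for `n ≥ 2 ^ L` as soon as `j (L+1) = j L + 1`, and it
stays true as long as `j` does not change; it is unbounded because `φ → ∞`. Put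
`ω L = b, c, d` for `j L % 3 = 0, 1, 2`. Every letter appears infinitely often (`j` takes all values), and
`chg ω L ≤ j L` (a change at `i` needs `j (i+1) = j i + 1`). For large `n` let `L` be the largest number with
`2 ^ (L + j L) ≤ n` (`Nat.findGreatest`); then `L ≥ L₀`, `n < 2 ^ (L + 1 + j (L+1))` and `n ≥ 2 ^ L`, so by `dl_lower` and `dl_mono`
`n ≤ 2 ^ L * 2 ^ (j (L+1) + 1) ≤ Dl ω n * φ n`. -/
theorem slow {φ : ℕ → ℕ} (hφ : Filter.Tendsto φ Filter.atTop Filter.atTop) :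
    ∃ ω : ℕ → Bt, Ok ω ∧ (∀ s : Bt, s ≠ .e → ∀ n, ∃ m ≥ n, ω m = s) ∧
      ∀ᶠ n in Filter.atTop, n ≤ Dl ω n * φ n := by
  have hok : Ok (fun L => Slow_let (Slow_j φ L)) := fun n => Slow_let_ne _
  refine ⟨fun L => Slow_let (Slow_j φ L), hok, ?_, ?_⟩
  · intro s hs n
    obtain ⟨i, hi, his⟩ := Slow_let_surj s hs (Slow_j φ n + 1)
    obtain ⟨m, hm⟩ := Slow_j_surj hφ i
    refine ⟨m, ?_, ?_⟩
    · by_contra h
      have := Slow_j_mono φ (show m ≤ n by omega)
      omega
    · show Slow_let (Slow_j φ m) = s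
      rw [hm, his]
  · obtain ⟨L1, hL1⟩ := Slow_j_unb hφ 1
    filter_upwards [Filter.eventually_ge_atTop (max L1 (2 ^ (L1 + Slow_j φ L1)))] with n hn
    have hn1 : L1 ≤ n := le_trans (le_max_left _ _) hn
    have hn2 : 2 ^ (L1 + Slow_j φ L1) ≤ n := le_trans (le_max_right _ _) hn
    have key : ∃ L, L1 ≤ L ∧ 2 ^ (L + Slow_j φ L) ≤ n ∧ n < 2 ^ (L + 1 + Slow_j φ (L + 1)) := by
      refine ⟨Nat.findGreatest (fun L => 2 ^ (L + Slow_j φ L) ≤ n) n, Nat.le_findGreatest hn1 hn2, ?_, ?_⟩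
      · exact Nat.findGreatest_spec (P := fun L => 2 ^ (L + Slow_j φ L) ≤ n) hn1 hn2
      · by_contra hcon
        push Not at hcon
        have h1 : Nat.findGreatest (fun L => 2 ^ (L + Slow_j φ L) ≤ n) n + 1 ≤ n := by
          refine le_trans (Nat.lt_two_pow_self).le (le_trans (Nat.pow_le_pow_right (by norm_num) ?_) hcon)
          omega
        have h2 := Nat.le_findGreatest (P := fun L => 2 ^ (L + Slow_j φ L) ≤ n) h1 hcon
        omega
    obtain ⟨L, hLL, h1, h2⟩ := key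
    have hj : 1 ≤ Slow_j φ (L + 1) := le_trans hL1 (Slow_j_mono φ (by omega))
    have h2L : 2 ^ L ≤ n := le_trans (Nat.pow_le_pow_right (by norm_num) (by omega)) h1
    have h3 := Slow_j_bound φ L hj n h2L
    have h4 := dl_lower hok L
    have h5 : Dl (fun L => Slow_let (Slow_j φ L)) (2 ^ (L + chg (fun L => Slow_let (Slow_j φ L)) L)) ≤
        Dl (fun L => Slow_let (Slow_j φ L)) n := by
      apply dl_mono
      refine le_trans (Nat.pow_le_pow_right (by norm_num) ?_) h1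
      have := Slow_chg φ L
      omega
    calc n ≤ 2 ^ (L + 1 + Slow_j φ (L + 1)) := h2.le
      _ = 2 ^ L * 2 ^ (Slow_j φ (L + 1) + 1) := by rw [← pow_add]; congr 1; omega
      _ ≤ Dl (fun L => Slow_let (Slow_j φ L)) n * φ n := Nat.mul_le_mul (by omega) h3

end Gri98
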