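import Pool.Agent.W_afafb9_h98.Sec

/-!
# The number of sites is sublinear
-/

set_option autoImplicit false

namespace Gri98

open scoped Classical

/-- the weighted length: letters `a` have weight `1`, the letter `δ` has weight `w δ` -/
def Ph (w : Bt → ℕ) (t : Bt × List Bt) : ℕ := w t.1 + (t.2.map fun δ => 1 + w δ).sum

/-- the sum of `F` over the sections of `t` at level `n` -/
def lev (F : Bt × List Bt → ℕ) : ℕ → (ℕ → Bt) → Bt × List Bt → ℕ
  | 0, _, t => F t
  | n + 1, ω, t => lev F n (sh ω) (sec (ω 0) false t.1 t.2) + lev F n (sh ω) (sec (ω 0) true t.1 t.2)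

theorem card_orb_le_lev {ω : ℕ → Bt} (hω : Ok ω) (n : ℕ) (t : Bt × List Bt) :
    (orbP ω t).card ≤ lev (fun u => u.2.length + 1) n ω t := by
  induction n generalizing ω t with
  | zero => exact card_orb_le ω t.1 t.2
  | succ n ih =>
    have h1 := ih (ok_sh hω) (sec (ω 0) false t.1 t.2)
    have h2 := ih (ok_sh hω) (sec (ω 0) true t.1 t.2)
    refine le_trans ?_ (add_le_add h1 h2)
    have h3 : orbP ω t ⊆ ((orbP (sh ω) (sec (ω 0) false t.1 t.2)).image (cons false)) ∪
        ((orbP (sh ω) (sec (ω 0) true t.1 t.2)).image (cons true)) := by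
      intro x hx
      have h4 := orb_sec hω t.1 t.2 hx
      rw [Finset.mem_union, Finset.mem_image, Finset.mem_image]
      cases h : x 0
      · left
        rw [h] at h4
        exact ⟨tl x, h4, by rw [← h]; exact cons_tl x⟩
      · right
        rw [h] at h4
        exact ⟨tl x, h4, by rw [← h]; exact cons_tl x⟩
    exact (Finset.card_le_card h3).trans ((Finset.card_union_le _ _).trans
      (add_le_add Finset.card_image_le Finset.card_image_le))

theorem suba_ph_cons (w : Bt → ℕ) (γ δ : Bt) (l : List Bt) : Ph w (γ, δ :: l) = w γ + 1 + Ph w (δ, l) := by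
  simp [Ph]; ring

theorem suba_ph_letter_false (w : Bt → ℕ) (h0 : w .e = 0) (s γ : Bt) (t : Bt × List Bt) :
    Ph w (letter s false γ t) = (if ns s γ then 1 else 0) + Ph w t := by
  unfold letter
  by_cases h : ns s γ
  · simp only [h, if_true, Bool.false_eq_true, if_false, Ph, h0, List.map_cons, List.sum_cons]
    ring
  · simp [h]

theorem suba_ph_letter_true {w : Bt → ℕ} (h : ∀ x y, w (x * y) ≤ w x + w y) (s γ : Bt) (t : Bt × List Bt) :
    Ph w (letter s true γ t) ≤ w γ + Ph w t := by
  unfold letter
  simp only [if_true, Ph]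
  have := h γ t.1
  omega

theorem suba_w_sub {w : Bt → ℕ} (h0 : w .e = 0) (h1 : ∀ δ, δ ≠ .e → w δ = 1 ∨ w δ = 2) (x y : Bt) :
    w (x * y) ≤ w x + w y := by
  have hb := h1 .b (by simp)
  have hc := h1 .c (by simp)
  have hd := h1 .d (by simp)
  cases x <;> cases y <;> simp only [HMul.hMul, Mul.mul, Bt.mul] <;> omega

theorem ph_sec {w : Bt → ℕ} (h0 : w .e = 0) (h1 : ∀ δ, δ ≠ .e → w δ = 1 ∨ w δ = 2) {s : Bt} (hs : s ≠ .e)
    (γ : Bt) (l : List Bt) :
    Ph (Function.update w s 2) (sec s false γ l) + Ph (Function.update w s 2) (sec s true γ l) ≤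
      Ph w (γ, l) + 1 := by
  have h0' : Function.update w s 2 .e = 0 := by rw [Function.update_of_ne (Ne.symm hs)]; exact h0
  have h1' : ∀ δ, δ ≠ .e → Function.update w s 2 δ = 1 ∨ Function.update w s 2 δ = 2 := by
    intro δ hδ
    by_cases h : δ = s
    · subst h; right; simp
    · rw [Function.update_of_ne h]; exact h1 δ hδ
  have hsub := suba_w_sub h0' h1'
  have key : ∀ γ : Bt, (if ns s γ then 1 else 0) + Function.update w s 2 γ ≤ w γ + 1 := by
    intro γ
    by_cases hγ : γ = .e
    · subst hγ
      simp [ns_e, h0']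
    · by_cases h : γ = s
      · subst h
        have : ¬ ns γ γ := fun h => h.2 rfl
        simp only [this, if_false, Function.update_self]
        rcases h1 γ hγ with h | h <;> omega
      · have : ns s γ := ⟨hγ, h⟩
        simp only [this, if_true, Function.update_of_ne h]
        omega
  induction l generalizing γ with
  | nil =>
    show Ph _ (letter s false γ (.e, [])) + Ph _ (letter s true γ (.e, [])) ≤ _
    rw [suba_ph_letter_false _ h0']
    have h2 := suba_ph_letter_true hsub s γ (.e, [])
    have h3 := key γ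
    have h4 : Ph (Function.update w s 2) (.e, []) = 0 := by simp [Ph, h0']
    have h5 : Ph w (γ, []) = w γ := by simp [Ph]
    omega
  | cons δ l ih =>
    show Ph _ (letter s false γ (sec s true δ l)) + Ph _ (letter s true γ (sec s false δ l)) ≤ _
    rw [suba_ph_letter_false _ h0', suba_ph_cons]
    have h2 := suba_ph_letter_true hsub s γ (sec s false δ l)
    have h3 := key γ
    have h4 := ih δ
    omega

/-- the number of letters different from `e` -/
def subaNl : Bt → List Bt → ℕ
  | γ, [] => if γ = .e then 0 else 1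
  | γ, δ :: l => (if γ = .e then 0 else 1) + subaNl δ l

theorem suba_nl_le (γ : Bt) (l : List Bt) : subaNl γ l ≤ l.length + 1 := by
  induction l generalizing γ with
  | nil => simp only [subaNl]; split_ifs <;> simp
  | cons δ l ih =>
    have := ih δ
    simp only [subaNl, List.length_cons]
    split_ifs <;> omega

theorem suba_ph_two (γ : Bt) (l : List Bt) : Ph (fun δ => if δ = .e then 0 else 2) (γ, l) = l.length + 2 * subaNl γ l := by
  induction l generalizing γ with
  | nil => simp only [Ph, subaNl, List.map_nil, List.sum_nil, List.length_nil]; split_ifs <;> rfl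
  | cons δ l ih =>
    rw [suba_ph_cons, ih δ]
    simp only [subaNl, List.length_cons]
    split_ifs <;> omega

theorem suba_ph_one (s γ : Bt) (l : List Bt) :
    Ph (fun δ => if δ = .e then 0 else 1) (sec s false γ l) +
      Ph (fun δ => if δ = .e then 0 else 1) (sec s true γ l) ≤ 2 * subaNl γ l := by
  have h0 : (fun δ : Bt => if δ = .e then 0 else 1) .e = 0 := by simp
  have h1 : ∀ δ : Bt, δ ≠ .e → (fun δ : Bt => if δ = .e then 0 else 1) δ = 1 ∨
      (fun δ : Bt => if δ = .e then 0 else 1) δ = 2 := by
    intro δ hδ; left; simp [hδ]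
  have hsub := suba_w_sub h0 h1
  have key : ∀ γ : Bt, (if ns s γ then 1 else 0) + (if γ = .e then 0 else 1) ≤ 2 * (if γ = .e then 0 else 1) := by
    intro γ
    by_cases hγ : γ = .e
    · subst hγ
      simp [ns_e]
    · simp only [hγ, if_false]
      split_ifs <;> simp
  induction l generalizing γ with
  | nil =>
    show Ph _ (letter s false γ (.e, [])) + Ph _ (letter s true γ (.e, [])) ≤ _
    rw [suba_ph_letter_false _ h0]
    have h2 := suba_ph_letter_true (w := fun δ => if δ = .e then 0 else 1) hsub s γ (.e, [])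
    have h3 := key γ
    have h4 : Ph (fun δ => if δ = .e then 0 else 1) (.e, []) = 0 := by simp [Ph]
    have h5 : subaNl γ [] = if γ = .e then 0 else 1 := rfl
    rw [h5]
    beta_reduce at h2
    omega
  | cons δ l ih =>
    show Ph _ (letter s false γ (sec s true δ l)) + Ph _ (letter s true γ (sec s false δ l)) ≤ _
    rw [suba_ph_letter_false _ h0]
    have h2 := suba_ph_letter_true (w := fun δ => if δ = .e then 0 else 1) hsub s γ (sec s false δ l)
    have h3 := key γ
    have h4 := ih δ
    have h5 : subaNl γ (δ :: l) = (if γ = .e then 0 else 1) + subaNl δ l := rfl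
    rw [h5]
    beta_reduce at h2
    omega

theorem ph_contract (s : Bt) (γ : Bt) (l : List Bt) :
    3 * (Ph (fun δ => if δ = .e then 0 else 1) (sec s false γ l) +
      Ph (fun δ => if δ = .e then 0 else 1) (sec s true γ l)) ≤
      2 * Ph (fun δ => if δ = .e then 0 else 2) (γ, l) + 2 := by
  have h1 := suba_ph_one s γ l
  have h2 := suba_nl_le γ l
  rw [suba_ph_two]
  omega

end Gri98
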