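import Pool.Agent.W_afafb9_h98.Base

/-!
# A lower bound for the number of sites (Bartholdi, Erschler)
-/

set_option autoImplicit false

namespace Gri98

open scoped Classical

/-- the first other letter -/
def oth1 : Bt → Bt
  | .b => .c
  | .c => .d
  | .d => .b
  | .e => .b

/-- the second other letter: `oth1 s * oth2 s = s` for `s ≠ e` -/
def oth2 : Bt → Bt
  | .b => .d
  | .c => .b
  | .d => .c
  | .e => .b

/-- the substitution `a δ ↦ a δ a δ` (`δ ≠ s`), `a s ↦ a x a s a y` (`x y = s`) for words `a δ₁ a δ₂ …` -/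
def zeta (s : Bt) : List Bt → List Bt
  | [] => []
  | δ :: l => if δ = s then oth1 s :: s :: oth2 s :: zeta s l else δ :: δ :: zeta s l

theorem zeta_mem_cons {ω : ℕ → Bt} (hω : Ok ω) {δ : Bt} {l : List Bt} {x : Om} :
    x ∈ orb ω .e (δ :: l) ↔ x = x0 ∨ ∃ z ∈ orb ω .e l, aF (bF ω δ z) = x := by
  rw [mem_orb_cons]
  have h : ∀ y : Om, y ∈ orb ω δ l ↔ ∃ z ∈ orb ω .e l, bF ω δ z = y := by
    intro y
    have h2 := orb_mul hω δ .e l y
    rwa [Bt.mul_e] at h2
  constructor
  · rintro (h1 | ⟨z, hz, h1⟩)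
    · exact Or.inl h1
    · rw [bF_e] at h1
      obtain ⟨u, hu, rfl⟩ := (h z).1 hz
      exact Or.inr ⟨u, hu, h1⟩
  · rintro (h1 | ⟨z, hz, h1⟩)
    · exact Or.inl h1
    · exact Or.inr ⟨bF ω δ z, (h _).2 ⟨z, hz, rfl⟩, by rw [bF_e]; exact h1⟩

theorem zeta_step {ω : ℕ → Bt} (hω : Ok ω) (δ : Bt) {l : List Bt} {x : Om} (h : x ∈ orb ω .e l) :
    aF (bF ω δ x) ∈ orb ω .e (δ :: l) :=
  (zeta_mem_cons hω).2 (Or.inr ⟨x, h, rfl⟩)

theorem zeta_oth1_ne (s : Bt) (hs : s ≠ .e) : ns s (oth1 s) := by
  cases s <;> first | exact absurd rfl hs | decide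

theorem zeta_oth2_ne (s : Bt) (hs : s ≠ .e) : ns s (oth2 s) := by
  cases s <;> first | exact absurd rfl hs | decide

theorem zeta_oth_mul (s : Bt) (hs : s ≠ .e) : oth1 s * oth2 s = s := by
  cases s <;> first | exact absurd rfl hs | decide

theorem zeta_claim {ω : ℕ → Bt} (hω : Ok ω) (l : List Bt) : (∀ δ ∈ l, δ ≠ .e) →
    ∀ q ∈ orb (sh ω) .e l, cons true q ∈ orb ω .e (zeta (ω 0) l) ∧
      (q ≠ x0 → cons false (aF q) ∈ orb ω .e (zeta (ω 0) l)) := by
  induction l with
  | nil =>
    intro _ q hq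
    simp only [orb, Finset.mem_singleton] at hq
    subst hq
    refine ⟨?_, fun h => absurd rfl h⟩
    rw [cons_true_x0]
    exact x0_mem_orb _ _ _
  | cons δ l ih =>
    intro hl q' hq'
    have hsh := ok_sh hω
    have hδ : δ ≠ .e := hl δ (by simp)
    rcases (zeta_mem_cons hsh).1 hq' with rfl | ⟨q, hq, rfl⟩
    · refine ⟨?_, fun h => absurd rfl h⟩
      rw [cons_true_x0]
      exact x0_mem_orb _ _ _
    obtain ⟨ih1, ih2⟩ := ih (fun δ' h' => hl δ' (by simp [h'])) q hq
    have hx0 : aF x0 = cons false x0 := by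
      conv_lhs => rw [← cons_true_x0]
      rw [aF_cons]
      rfl
    by_cases hds : δ = ω 0
    · have hz : zeta (ω 0) (δ :: l) = oth1 (ω 0) :: ω 0 :: oth2 (ω 0) :: zeta (ω 0) l := by
        simp [zeta, hds]
      rw [hz]
      have n1 := zeta_oth1_ne (ω 0) (hω 0)
      have n2 := zeta_oth2_ne (ω 0) (hω 0)
      have n3 : ¬ ns (ω 0) (ω 0) := fun h => h.2 rfl
      have hm := zeta_oth_mul (ω 0) (hω 0)
      constructor
      · by_cases hq0 : q = x0
        · subst hq0
          have h1 : aF x0 ∈ orb ω .e (ω 0 :: oth2 (ω 0) :: zeta (ω 0) l) := by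
            have := zeta_step hω (ω 0) (x0_mem_orb ω .e (oth2 (ω 0) :: zeta (ω 0) l))
            rwa [bF_x0] at this
          have h2 := zeta_step hω (oth1 (ω 0)) h1
          rw [hx0, bF_false, if_pos n1, aF_cons] at h2
          rw [bF_x0]
          exact h2
        · have h1 := zeta_step hω (oth1 (ω 0)) (zeta_step hω (ω 0) (zeta_step hω (oth2 (ω 0)) (ih2 hq0)))
          rw [bF_false, if_pos n2, aF_aF, aF_cons, Bool.not_false, bF_true, aF_cons, Bool.not_true,
            bF_false, if_pos n1, aF_cons, Bool.not_false] at h1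
          rw [hds]
          exact h1
      · intro _
        have h1 := zeta_step hω (oth1 (ω 0)) (zeta_step hω (ω 0) (zeta_step hω (oth2 (ω 0)) ih1))
        rw [bF_true, aF_cons, Bool.not_true, bF_false, if_neg n3, aF_cons, Bool.not_false, bF_true,
          ← bF_mul hsh, hm, aF_cons, Bool.not_true] at h1
        rw [aF_aF, hds]
        exact h1
    · have hz : zeta (ω 0) (δ :: l) = δ :: δ :: zeta (ω 0) l := by
        simp [zeta, hds]
      rw [hz]
      have n1 : ns (ω 0) δ := ⟨hδ, hds⟩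
      constructor
      · have h1 := zeta_step hω δ (zeta_step hω δ ih1)
        rw [bF_true, aF_cons, Bool.not_true, bF_false, if_pos n1, aF_cons, Bool.not_false] at h1
        exact h1
      · intro _
        rw [aF_aF]
        by_cases hq0 : q = x0
        · subst hq0
          rw [bF_x0]
          have := zeta_step hω δ (x0_mem_orb ω .e (δ :: zeta (ω 0) l))
          rwa [bF_x0, hx0] at this
        · have h1 := zeta_step hω δ (zeta_step hω δ (ih2 hq0))
          rw [bF_false, if_pos n1, aF_aF, aF_cons, Bool.not_false, bF_true, aF_cons, Bool.not_true] at h1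
          exact h1

/-- The substitution almost doubles the number of sites.

Proof. Write `O l = orb (sh ω) .e l`, `O' l = orb ω .e (zeta (ω 0) l)`, `s = ω 0`. Claim, for all `l` with letters
`≠ e`: (1) `cons true q ∈ O' l` for all `q ∈ O l`; (2) `cons false (aF q) ∈ O' l` for all `q ∈ O l` with `q ≠ x0`.
Induction on `l`; `l = []`: `O l = {x0}` and `cons true x0 = x0`. Let the word be `δ :: l`. A site of `.e, δ :: l` is
`x0` or `aF (bF (sh ω) δ q)` with `q ∈ O l` (`orb_mul` with `δ = δ * e`, `bF_e`), and the same for `ω`.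
For `x0`: (1) `cons true x0 = x0`. Let `q' = aF (bF (sh ω) δ q)`.
Case `δ ≠ s`: `u ∈ O' l` gives `aF (bF ω δ (aF (bF ω δ u))) ∈ O' (δ :: l)`. For `u = cons true q`:
`bF ω δ u = cons true (bF (sh ω) δ q)`, then `aF`: `cons false (…)`, then `bF ω δ` (`δ` is not silent): `cons false (aF …)`,
`aF`: `cons true (aF (bF (sh ω) δ q)) = cons true q'`: (1). For `u = cons false (aF q)`, `q ≠ x0`:
`bF ω δ u = cons false (aF (aF q)) = cons false q`, `aF`: `cons true q`, `bF ω δ`: `cons true (bF (sh ω) δ q)`,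
`aF`: `cons false (bF (sh ω) δ q) = cons false (aF q')`: (2) for `q ≠ x0`. If `q = x0` then `bF (sh ω) δ q = x0`
(`bF_x0`), `q' = aF x0`, `cons false (aF q') = cons false x0 = aF x0`, which is the site of the first letter `a`
(apply `aF ∘ bF ω .e` to `x0 ∈ orb`; or `aF (bF ω δ x0)`).
Case `δ = s`: the block is `a x a s a y`, with `x = oth1 s`, `y = oth2 s` not silent, so `u ∈ O' l` gives
`aF (bF ω x (aF (bF ω s (aF (bF ω y u))))) ∈ O' (s :: l)`. For `u = cons true q`: `cons true (y q)`, `cons false (y q)`,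
`cons false (y q)` (silent), `cons true (y q)`, `cons true (x y q) = cons true (s q)` (`bF_mul`),
`cons false (s q) = cons false (aF q')`: (2). For `u = cons false (aF q)`, `q ≠ x0`: `bF ω y`: `cons false q`, `aF`:
`cons true q`, `s`: `cons true (s q)`, `aF`: `cons false (s q)`, `x`: `cons false (aF (s q))`, `aF`:
`cons true (aF (s q)) = cons true q'`: (1). If `q = x0` then `q' = aF x0`, and `cons true (aF x0) =
aF (bF ω x (aF x0))` is a site (number 2).
Count: `q ↦ cons true q` on `O l` and `q ↦ cons false (aF q)` on `(O l).erase x0` are injective with disjoint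
images. -/
theorem zeta_card {ω : ℕ → Bt} (hω : Ok ω) (l : List Bt) (hl : ∀ δ ∈ l, δ ≠ .e) :
    2 * (orb (sh ω) .e l).card ≤ (orb ω .e (zeta (ω 0) l)).card + 1 := by
  set O := orb (sh ω) .e l with hO
  set O' := orb ω .e (zeta (ω 0) l) with hO'
  have hcl := zeta_claim hω l hl
  have h0 : x0 ∈ O := x0_mem_orb _ _ _
  have hsub : (O.image (cons true)) ∪ ((O.erase x0).image fun q => cons false (aF q)) ⊆ O' := by
    intro x hx
    rcases Finset.mem_union.1 hx with hx | hx
    · obtain ⟨q, hq, rfl⟩ := Finset.mem_image.1 hx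
      exact (hcl q hq).1
    · obtain ⟨q, hq, rfl⟩ := Finset.mem_image.1 hx
      have hq2 := Finset.mem_erase.1 hq
      exact (hcl q hq2.2).2 hq2.1
  have hdis : Disjoint (O.image (cons true)) ((O.erase x0).image fun q => cons false (aF q)) := by
    rw [Finset.disjoint_left]
    intro x hx hx2
    obtain ⟨q, -, rfl⟩ := Finset.mem_image.1 hx
    obtain ⟨q2, -, h⟩ := Finset.mem_image.1 hx2
    exact Bool.noConfusion (cons_inj h).1
  have hc := Finset.card_le_card hsub
  rw [Finset.card_union_of_disjoint hdis, Finset.card_image_of_injective, Finset.card_image_of_injective,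
    Finset.card_erase_of_mem h0] at hc
  · omega
  · intro x y h
    exact aF_inj (cons_inj h).2
  · intro x y h
    exact (cons_inj h).2

/-- the weighted number of letters -/
def wt (s : Bt) (l : List Bt) : ℕ := (l.map fun δ => if δ = s then 2 else 1).sum

/-- Proof. Induction on `l`; `oth1 s ≠ s`, `oth2 s ≠ s` for `s ≠ e`. -/
theorem wt_zeta {s : Bt} (hs : s ≠ .e) (l : List Bt) : wt s (zeta s l) = 2 * wt s l := by
  have h1 : oth1 s ≠ s := (zeta_oth1_ne s hs).2
  have h2 : oth2 s ≠ s := (zeta_oth2_ne s hs).2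
  induction l with
  | nil => rfl
  | cons δ l ih =>
    unfold wt at ih ⊢
    by_cases h : δ = s
    · simp only [zeta, h, if_true, List.map_cons, List.sum_cons, if_neg h1, if_neg h2, ih]
      ring
    · simp only [zeta, if_neg h, List.map_cons, List.sum_cons, ih]
      ring

theorem zeta_ne {s : Bt} (hs : s ≠ .e) (l : List Bt) (hl : ∀ δ ∈ l, δ ≠ .e) : ∀ δ ∈ zeta s l, δ ≠ .e := by
  induction l with
  | nil =>
    intro δ hδ
    simp [zeta] at hδ
  | cons δ l ih =>
    intro δ' hδ'
    have ih' := ih (fun x hx => hl x (by simp [hx]))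
    by_cases h : δ = s
    · simp only [zeta, h, if_true, List.mem_cons] at hδ'
      rcases hδ' with rfl | rfl | rfl | h'
      · exact (zeta_oth1_ne s hs).1
      · exact hs
      · exact (zeta_oth2_ne s hs).1
      · exact ih' δ' h'
    · simp only [zeta, if_neg h, List.mem_cons] at hδ'
      rcases hδ' with rfl | rfl | h'
      · exact hl _ (by simp)
      · exact hl _ (by simp)
      · exact ih' δ' h'

/-- the number of changes of the silent letter -/
noncomputable def chg (ω : ℕ → Bt) (L : ℕ) : ℕ := ((Finset.range L).filter fun i => ω i ≠ ω (i + 1)).card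

theorem zeta_chg_succ (ω : ℕ → Bt) (L : ℕ) :
    chg ω (L + 1) = (if ω 0 = ω 1 then 0 else 1) + chg (sh ω) L := by
  unfold chg
  rw [Finset.card_filter, Finset.card_filter, Finset.sum_range_succ']
  have h : (if ω 0 ≠ ω (0 + 1) then 1 else 0 : ℕ) = (if ω 0 = ω 1 then 0 else 1) := by
    by_cases h : ω 0 = ω 1 <;> simp [h]
  rw [h, add_comm]
  rfl

theorem zeta_len_le_wt (s : Bt) (l : List Bt) : l.length ≤ wt s l := by
  unfold wt
  induction l with
  | nil => simp
  | cons δ l ih =>
    simp only [List.length_cons, List.map_cons, List.sum_cons]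
    split_ifs <;> omega

theorem zeta_wt_le (s : Bt) (l : List Bt) : wt s l ≤ 2 * l.length := by
  unfold wt
  induction l with
  | nil => simp
  | cons δ l ih =>
    simp only [List.length_cons, List.map_cons, List.sum_cons]
    split_ifs <;> omega

/-- Long words with many sites.

Proof. Induction on `L`, for all `ω`. `L = 0`: `l = [x]` with `x ≠ e, ω 0`; the sites are `x0 ≠ aF x0` and
`wt (ω 0) [x] = 1`. `L + 1`: take `l` for `sh ω`; `wt (ω 0) l ≤ (if ω 0 = ω 1 then 1 else 2) * wt (ω 1) l` (`wt s l` is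
between `l.length` and `2 * l.length`), and `zeta (ω 0) l` with `zeta_card`, `wt_zeta`;
`chg ω (L + 1) = (if ω 0 = ω 1 then 0 else 1) + chg (sh ω) L`. -/
theorem exists_long (L : ℕ) : ∀ ω : ℕ → Bt, Ok ω → ∃ l : List Bt, (∀ δ ∈ l, δ ≠ .e) ∧
    2 ^ L + 1 ≤ (orb ω .e l).card ∧ wt (ω 0) l ≤ 2 ^ (L + chg ω L) := by
  induction L with
  | zero =>
    intro ω hω
    refine ⟨[oth1 (ω 0)], ?_, ?_, ?_⟩
    · intro δ hδ
      rw [List.mem_singleton] at hδ
      rw [hδ]
      exact (zeta_oth1_ne _ (hω 0)).1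
    · have h1 : x0 ∈ orb ω .e [oth1 (ω 0)] := x0_mem_orb _ _ _
      have h2 : aF x0 ∈ orb ω .e [oth1 (ω 0)] := by
        have := zeta_step hω (oth1 (ω 0)) (x0_mem_orb ω .e [])
        rwa [bF_x0] at this
      have hne : x0 ≠ aF x0 := by
        intro h
        have := congrFun h 0
        exact Bool.noConfusion this
      have h3 : ({x0, aF x0} : Finset Om) ⊆ orb ω .e [oth1 (ω 0)] := by
        intro x hx
        rcases Finset.mem_insert.1 hx with rfl | hx
        · exact h1
        · rw [Finset.mem_singleton.1 hx]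
          exact h2
      have h4 := Finset.card_le_card h3
      rw [Finset.card_pair hne] at h4
      simpa using h4
    · have h1 : oth1 (ω 0) ≠ ω 0 := (zeta_oth1_ne _ (hω 0)).2
      simp [wt, h1, chg]
  | succ L ih =>
    intro ω hω
    obtain ⟨l, hl, hc, hw⟩ := ih (sh ω) (ok_sh hω)
    refine ⟨zeta (ω 0) l, zeta_ne (hω 0) l hl, ?_, ?_⟩
    · have := zeta_card hω l hl
      rw [pow_succ]
      omega
    · rw [wt_zeta (hω 0), zeta_chg_succ]
      have hw' : wt (ω 1) l ≤ 2 ^ (L + chg (sh ω) L) := hw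
      by_cases h : ω 0 = ω 1
      · rw [if_pos h, h]
        calc 2 * wt (ω 1) l ≤ 2 * 2 ^ (L + chg (sh ω) L) := by omega
          _ = 2 ^ (L + 1 + (0 + chg (sh ω) L)) := by ring
      · rw [if_neg h]
        have h1 := zeta_wt_le (ω 0) l
        have h2 := zeta_len_le_wt (ω 1) l
        calc 2 * wt (ω 0) l ≤ 2 * (2 * 2 ^ (L + chg (sh ω) L)) := by omega
          _ = 2 ^ (L + 1 + (1 + chg (sh ω) L)) := by ring

/-- Proof. `exists_long`, `l.length ≤ wt (ω 0) l`, `card_orb_le_dl`. -/
theorem dl_lower {ω : ℕ → Bt} (hω : Ok ω) (L : ℕ) : 2 ^ L + 1 ≤ Dl ω (2 ^ (L + chg ω L)) := by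
  obtain ⟨l, -, hc, hw⟩ := exists_long L ω hω
  exact hc.trans (card_orb_le_dl ((zeta_len_le_wt (ω 0) l).trans hw))

end Gri98
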